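import Mathlib
import Pool.Agent.Lib.MP_193dd3_co_G.Defs

/-!
# MP_193dd3_co, project S: definitions

`B` is a set of points of the plane off the conic (vectors `v = (a, b, c)` with
`nq v = a ^ 2 + b c ≠ 0`), the conic is the projective line `PL p`. The line through the points `s`, `t`
of the conic contains `v` if and only if `Ls v s t = c s t - a (s + t) - b = 0`; this is used for all
`s`, `t` in a field `K` which contains `ZMod p`. For `s` of degree two over `ZMod p` the line through
`s` and its conjugate `s ^ p` is a line of the plane over `ZMod p` without points of the conic.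

`P2 K` is the ring of the polynomials in `s` (inner variable) and `t` (outer variable), and
`bd i j f` says that the degree in `s` is at most `i` and the degree in `t` at most `j`.
The curve `Lc v` is given by `t = mu v / lam v`, and `hev v j f` is `(lam v) ^ j * f(s, mu v / lam v)`.
-/

set_option autoImplicit false

open Polynomial
open Pool.Agent.MP193G (Vc nq Lf Pl iv hx lin)

namespace Pool.Agent.MP193S

/-- The projective line (the points of the conic). -/
abbrev PL (p : ℕ) : Type := Pool.Agent.MP193G.X p

/-- Polynomials in two variables. -/
abbrev P2 (K : Type) [Field K] : Type := Polynomial (Polynomial K)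

/-- Degree at most `i` in the inner and at most `j` in the outer variable. -/
def bd {K : Type} [Field K] (i j : ℕ) (f : P2 K) : Prop :=
  f.natDegree ≤ j ∧ ∀ l, (f.coeff l).natDegree ≤ i

section

variable {p : ℕ} [Fact p.Prime] (K : Type) [Field K] [Algebra (ZMod p) K]

/-- Denominator of the involution of `v`. -/
noncomputable def lam (v : Vc p) : K[X] :=
  C (algebraMap (ZMod p) K v.2.2) * X - C (algebraMap (ZMod p) K v.1)

/-- Numerator of the involution of `v`. -/
noncomputable def mu (v : Vc p) : K[X] :=
  C (algebraMap (ZMod p) K v.1) * X + C (algebraMap (ZMod p) K v.2.1)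

/-- The curve of `v`. -/
noncomputable def Lc (v : Vc p) : P2 K := C (lam K v) * X - C (mu K v)

/-- The restriction of `f` to the curve of `v`, multiplied by `(lam v) ^ j`. -/
noncomputable def hev (v : Vc p) (j : ℕ) (f : P2 K) : K[X] :=
  ∑ l ∈ Finset.range (j + 1), f.coeff l * mu K v ^ l * lam K v ^ (j - l)

end

/-- `c s t - a (s + t) - b`. -/
def Ls {p : ℕ} [Fact p.Prime] {K : Type} [Field K] [Algebra (ZMod p) K] (v : Vc p) (s t : K) : K :=
  algebraMap (ZMod p) K v.2.2 * (s * t) - algebraMap (ZMod p) K v.1 * (s + t)
    - algebraMap (ZMod p) K v.2.1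

/-- The elements of degree two over `ZMod p`. -/
noncomputable def irr (p : ℕ) (K : Type) [Field K] [DecidableEq K] : Finset K :=
  (X ^ (p ^ 2) - X : K[X]).roots.toFinset.filter fun s => s ^ p ≠ s

section

variable {p : ℕ} [Fact p.Prime] (K : Type) [Field K] [DecidableEq K] [Algebra (ZMod p) K]

/-- The `s` for which exactly three points of `B` are on the line through `s`, `s ^ p`. -/
noncomputable def Tt (B : Finset (Vc p)) : Finset K :=
  (irr p K).filter fun s => (B.filter fun v => Ls v s (s ^ p) = 0).card = 3

/-- The elements of `Tt B` whose line contains `v`. -/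
noncomputable def Tv (B : Finset (Vc p)) (v : Vc p) : Finset K :=
  (Tt K B).filter fun s => Ls v s (s ^ p) = 0

end

/-- Different elements of `B` are different points of the projective plane. -/
def Np {p : ℕ} (B : Finset (Vc p)) : Prop := ∀ v ∈ B, ∀ w ∈ B, ∀ k : ZMod p, w = k • v → w = v

end Pool.Agent.MP193S
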