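import Mathlib
import Pool.Agent.Lib.MP_193dd3_co_S.SDefs

/-!
# MP_193dd3_co, project S: bidegrees and restriction to the curves
-/

set_option autoImplicit false

open Polynomial
open Pool.Agent.MP193G (Vc nq Lf Pl iv hx lin)

namespace Pool.Agent.MP193S

section

variable {K : Type} [Field K]

theorem bd_mono {i j i' j' : ℕ} {f : P2 K} (h : bd i j f) (hi : i ≤ i') (hj : j ≤ j') :
    bd i' j' f := by
  exact ⟨h.1.trans hj, fun l => (h.2 l).trans hi⟩

theorem bd_add {i j : ℕ} {f g : P2 K} (hf : bd i j f) (hg : bd i j g) : bd i j (f + g) := by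
  refine ⟨natDegree_add_le_of_degree_le hf.1 hg.1, fun l => ?_⟩
  rw [coeff_add]
  exact natDegree_add_le_of_degree_le (hf.2 l) (hg.2 l)

theorem bd_sub {i j : ℕ} {f g : P2 K} (hf : bd i j f) (hg : bd i j g) : bd i j (f - g) := by
  refine ⟨natDegree_sub_le_of_le hf.1 hg.1 |>.trans (max_self j).le, fun l => ?_⟩
  rw [coeff_sub]
  exact (natDegree_sub_le_of_le (hf.2 l) (hg.2 l)).trans (max_self i).le

theorem bd_mul {i j i' j' : ℕ} {f g : P2 K} (hf : bd i j f) (hg : bd i' j' g) :
    bd (i + i') (j + j') (f * g) := by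
  refine ⟨natDegree_mul_le_of_le hf.1 hg.1, fun l => ?_⟩
  rw [coeff_mul]
  exact natDegree_sum_le_of_forall_le _ _ fun x _ => natDegree_mul_le_of_le (hf.2 _) (hg.2 _)

/-- The multiplication with the polynomial `s - s ^ p`. -/
theorem bd_CU {i j p : ℕ} (hp : 1 ≤ p) {f : P2 K} (hf : bd i j f) :
    bd (p + i) j (C (X - X ^ p) * f) := by
  have h1 : bd p 0 (C (X - X ^ p) : P2 K) := by
    refine ⟨(natDegree_C _).le, fun l => ?_⟩
    rw [coeff_C]
    split_ifs
    · refine (natDegree_sub_le_of_le natDegree_X_le (natDegree_X_pow_le p)).trans ?_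
      exact max_le hp le_rfl
    · rw [natDegree_zero]
      exact Nat.zero_le _
  have h2 := bd_mul h1 hf
  rwa [zero_add] at h2

/-- The multiplication with the polynomial `t - t ^ p`. -/
theorem bd_U {i j p : ℕ} (hp : 1 ≤ p) {f : P2 K} (hf : bd i j f) :
    bd i (p + j) ((X - X ^ p) * f) := by
  have h1 : bd 0 p (X - X ^ p : P2 K) := by
    refine ⟨?_, fun l => ?_⟩
    · refine (natDegree_sub_le_of_le natDegree_X_le (natDegree_X_pow_le p)).trans ?_
      exact max_le hp le_rfl
    · rw [coeff_sub, coeff_X, coeff_X_pow]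
      split_ifs <;> simp
  have h2 := bd_mul h1 hf
  rwa [zero_add] at h2

end

section

variable {p : ℕ} [Fact p.Prime] (K : Type) [Field K] [Algebra (ZMod p) K]

private theorem Hev_lam (v : Vc p) : (lam K v).natDegree ≤ 1 := by
  unfold lam
  refine (natDegree_sub_le_of_le (m := 1) (n := 0) ?_ (natDegree_C _).le).trans (by norm_num)
  exact natDegree_le_of_degree_le (degree_C_mul_X_le _)

private theorem Hev_mu (v : Vc p) : (mu K v).natDegree ≤ 1 := by
  unfold mu
  refine (natDegree_add_le_of_degree_le (n := 1) ?_ ?_)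
  · exact natDegree_le_of_degree_le (degree_C_mul_X_le _)
  · rw [natDegree_C]
    exact Nat.zero_le _

theorem bd_Lc (v : Vc p) : bd 1 1 (Lc K v) := by
  refine ⟨?_, fun l => ?_⟩
  · unfold Lc
    refine (natDegree_sub_le_of_le (m := 1) (n := 0) ?_ (natDegree_C _).le).trans (by norm_num)
    exact natDegree_le_of_degree_le (degree_C_mul_X_le _)
  · unfold Lc
    rw [coeff_sub, coeff_C_mul, coeff_X, coeff_C]
    split_ifs
    · rw [mul_one]
      exact (natDegree_sub_le_of_le (Hev_lam K v) (Hev_mu K v)).trans (by norm_num)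
    · rw [mul_one, sub_zero]
      exact Hev_lam K v
    · rw [mul_zero, zero_sub, natDegree_neg]
      exact Hev_mu K v
    · rw [mul_zero, sub_zero, natDegree_zero]
      exact Nat.zero_le _

theorem evalEval_Lc (v : Vc p) (s t : K) : evalEval s t (Lc K v) = Ls v s t := by
  unfold evalEval Lc lam mu Ls
  simp only [eval_sub, eval_mul, eval_C, eval_X, eval_add]
  ring

theorem hev_add (v : Vc p) (j : ℕ) (f g : P2 K) :
    hev K v j (f + g) = hev K v j f + hev K v j g := by
  unfold hev
  rw [← Finset.sum_add_distrib]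
  refine Finset.sum_congr rfl fun l _ => ?_
  rw [coeff_add]
  ring

theorem hev_smul (v : Vc p) (j : ℕ) (k : K) (f : P2 K) : hev K v j (k • f) = k • hev K v j f := by
  unfold hev
  rw [Finset.smul_sum]
  refine Finset.sum_congr rfl fun l _ => ?_
  rw [coeff_smul, smul_mul_assoc, smul_mul_assoc]

theorem hev_natDegree (v : Vc p) {i j : ℕ} {f : P2 K} (hf : bd i j f) :
    (hev K v j f).natDegree ≤ i + j := by
  unfold hev
  refine natDegree_sum_le_of_forall_le _ _ fun l hl => ?_
  have hl' : l ≤ j := Nat.lt_succ_iff.1 (Finset.mem_range.1 hl)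
  have h1 : (mu K v ^ l).natDegree ≤ l * 1 := natDegree_pow_le_of_le l (Hev_mu K v)
  have h2 : (lam K v ^ (j - l)).natDegree ≤ (j - l) * 1 :=
    natDegree_pow_le_of_le (j - l) (Hev_lam K v)
  have h3 := natDegree_mul_le_of_le (natDegree_mul_le_of_le (hf.2 l) h1) h2
  refine h3.trans ?_
  omega

/-- `hev` is the value at the point `(s, t)` of the curve, `t = mu / lam`, multiplied by `lam ^ j`.
Proof: `evalEval s t f` is `∑ l, eval s (f.coeff l) * t ^ l`, the sum over `l ≤ j`;
`mu = t * lam`. -/
theorem hev_eval (v : Vc p) {j : ℕ} {f : P2 K} (hf : f.natDegree ≤ j) {s t : K}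
    (h : eval s (mu K v) = t * eval s (lam K v)) :
    eval s (hev K v j f) = eval s (lam K v) ^ j * evalEval s t f := by
  have h1 : evalEval s t f = ∑ l ∈ Finset.range (j + 1), eval s (f.coeff l) * t ^ l := by
    unfold evalEval
    rw [eval_eq_sum_range' (Nat.lt_succ_of_le hf), eval_finsetSum]
    refine Finset.sum_congr rfl fun l _ => ?_
    rw [eval_mul, eval_pow, eval_C]
  unfold hev
  rw [h1, eval_finsetSum, Finset.mul_sum]
  refine Finset.sum_congr rfl fun l hl => ?_
  have hl' : l ≤ j := Nat.lt_succ_iff.1 (Finset.mem_range.1 hl)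
  have e : eval s (lam K v) ^ j = eval s (lam K v) ^ (j - l) * eval s (lam K v) ^ l := by
    rw [← pow_add, Nat.sub_add_cancel hl']
  rw [eval_mul, eval_mul, eval_pow, eval_pow, h, e]
  ring

/-- At a zero of `lam` only the highest coefficient is left. -/
theorem hev_top (v : Vc p) {j : ℕ} {f : P2 K} {s : K} (h : eval s (lam K v) = 0) :
    eval s (hev K v j f) = eval s (f.coeff j) * eval s (mu K v) ^ j := by
  unfold hev
  rw [eval_finsetSum, Finset.sum_eq_single j]
  · rw [Nat.sub_self, pow_zero, mul_one, eval_mul, eval_pow]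
  · intro l hl hlj
    have hl' : l ≤ j := Nat.lt_succ_iff.1 (Finset.mem_range.1 hl)
    rw [eval_mul, eval_pow, h, zero_pow (by omega), mul_zero]
  · intro hj
    exact absurd (Finset.mem_range.2 (Nat.lt_succ_self j)) hj

end

end Pool.Agent.MP193S
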