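import Mathlib
import Pool.Agent.Lib.MP_193dd3_co_S.Hev

/-!
# MP_193dd3_co, project S: the lines without points of the conic
-/

set_option autoImplicit false

open Polynomial
open Pool.Agent.MP193G (Vc nq Lf Pl iv hx lin)

namespace Pool.Agent.MP193S

variable {p : ℕ} [Fact p.Prime] (K : Type) [Field K] [DecidableEq K] [Algebra (ZMod p) K]
  [CharP K p]

theorem mem_irr {s : K} : s ∈ irr p K ↔ s ^ (p ^ 2) = s ∧ s ^ p ≠ s := by
  have hp : 1 < p := (Fact.out : p.Prime).one_lt
  have h0 : (X ^ (p ^ 2) - X : K[X]) ≠ 0 := FiniteField.X_pow_card_pow_sub_X_ne_zero K two_ne_zero hp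
  rw [irr, Finset.mem_filter, Multiset.mem_toFinset, mem_roots h0, IsRoot.def, eval_sub, eval_pow,
    eval_X, sub_eq_zero]

theorem irr_pow {s : K} (hs : s ∈ irr p K) : s ^ p ∈ irr p K ∧ (s ^ p) ^ p = s := by
  rw [mem_irr] at hs
  obtain ⟨h1, h2⟩ := hs
  have h3 : (s ^ p) ^ p = s := by
    rw [← pow_mul, ← pow_two]
    exact h1
  refine ⟨?_, h3⟩
  rw [mem_irr]
  refine ⟨?_, ?_⟩
  · rw [← pow_mul, mul_comm, pow_mul, h1]
  · rw [h3]
    exact h2.symm

omit [DecidableEq K] [CharP K p] in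
private theorem tco_Ls (v : Vc p) (s t : K) : Ls v s t = Ls v t s := by
  unfold Ls
  ring

/-- Proof: `Ls v (s ^ p) s = Ls v s (s ^ p)` and `(s ^ p) ^ p = s`. -/
theorem Tt_pow {B : Finset (Vc p)} {s : K} (hs : s ∈ Tt K B) : s ^ p ∈ Tt K B ∧ (s ^ p) ^ p = s := by
  rw [Tt, Finset.mem_filter] at hs ⊢
  obtain ⟨h1, h2⟩ := hs
  obtain ⟨h3, h4⟩ := irr_pow K h1
  refine ⟨⟨h3, ?_⟩, h4⟩
  rw [h4, ← h2]
  congr 1
  refine Finset.filter_congr fun v _ => ?_
  rw [tco_Ls]

theorem Tv_pow {B : Finset (Vc p)} {v : Vc p} {s : K} (hs : s ∈ Tv K B v) : s ^ p ∈ Tv K B v := by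
  rw [Tv, Finset.mem_filter] at hs ⊢
  obtain ⟨h1, h2⟩ := hs
  obtain ⟨h3, h4⟩ := Tt_pow K h1
  refine ⟨h3, ?_⟩
  rw [h4, tco_Ls]
  exact h2

/-- Elements of degree two are not in the image of `ZMod p`. Proof:
`algebraMap x ^ p = algebraMap x`. -/
theorem irr_ne {s : K} (hs : s ∈ irr p K) (x : ZMod p) : s ≠ algebraMap (ZMod p) K x := by
  intro h
  rw [mem_irr] at hs
  apply hs.2
  rw [h, ← map_pow, ZMod.pow_card]

omit [DecidableEq K] [CharP K p] in
private theorem tco_lam (v : Vc p) (s : K) : eval s (lam K v) =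
    algebraMap (ZMod p) K v.2.2 * s - algebraMap (ZMod p) K v.1 := by
  rw [lam, eval_sub, eval_mul, eval_C, eval_X, eval_C]

omit [DecidableEq K] [CharP K p] in
private theorem tco_mu (v : Vc p) (s : K) : eval s (mu K v) =
    algebraMap (ZMod p) K v.1 * s + algebraMap (ZMod p) K v.2.1 := by
  rw [mu, eval_add, eval_mul, eval_C, eval_X, eval_C]

/-- Proof: `c s - a = 0` gives `c = 0` (else `s = a/c` is in the image of `ZMod p`) and `a = 0`. -/
theorem lam_ne {v : Vc p} (hv : nq v ≠ 0) {s : K} (hs : s ∈ irr p K) :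
    eval s (lam K v) ≠ 0 := by
  rw [tco_lam]
  intro h
  by_cases hc : v.2.2 = 0
  · rw [hc, map_zero, zero_mul, zero_sub, neg_eq_zero, map_eq_zero] at h
    apply hv
    rw [nq, hc, h]
    ring
  · have hc' : algebraMap (ZMod p) K v.2.2 ≠ 0 := (_root_.map_ne_zero _).mpr hc
    apply irr_ne K hs (v.1 / v.2.2)
    rw [map_div₀, eq_div_iff hc']
    linear_combination h

theorem mu_eq {v : Vc p} {s : K} (h : Ls v s (s ^ p) = 0) :
    eval s (mu K v) = s ^ p * eval s (lam K v) := by
  rw [tco_lam, tco_mu]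
  unfold Ls at h
  linear_combination (-1) * h

/-- The polynomial `lam v * X ^ p - mu v` vanishes at the elements of `Tv B v`, with nonzero
derivative. Proof: the derivative of `c X ^ (p + 1) - a X ^ p - a X - b` is `c X ^ p - a`, and
`s ^ p` is of degree two (`irr_pow`, `lam_ne`). -/
theorem kv_root {B : Finset (Vc p)} {v : Vc p} (hv : nq v ≠ 0) {s : K} (hs : s ∈ Tv K B v) :
    eval s (lam K v * X ^ p - mu K v) = 0 ∧
      eval s (derivative (lam K v * X ^ p - mu K v)) ≠ 0 := by
  rw [Tv, Finset.mem_filter, Tt, Finset.mem_filter] at hs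
  obtain ⟨⟨h1, _⟩, h2⟩ := hs
  constructor
  · rw [eval_sub, eval_mul, eval_pow, eval_X, mu_eq K h2]
    ring
  · have h3 := lam_ne K hv (irr_pow K h1).1
    rw [tco_lam] at h3
    have hd : derivative (lam K v * X ^ p - mu K v) =
        C (algebraMap (ZMod p) K v.2.2) * X ^ p - C (algebraMap (ZMod p) K v.1) := by
      rw [derivative_sub, derivative_mul, derivative_X_pow, CharP.cast_eq_zero, C_0, zero_mul,
        mul_zero, add_zero, lam, mu]
      simp
    rw [hd, eval_sub, eval_mul, eval_C, eval_pow, eval_X, eval_C]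
    exact h3

omit [Field K] [DecidableEq K] [Algebra (ZMod p) K] [CharP K p] in
private theorem tco_prop {v w : Vc p} (hv : v ≠ 0)
    (h1 : v.2.1 * w.2.2 - v.2.2 * w.2.1 = 0) (h2 : v.2.2 * w.1 - v.1 * w.2.2 = 0)
    (h3 : v.1 * w.2.1 - v.2.1 * w.1 = 0) : ∃ k : ZMod p, w = k • v := by
  obtain ⟨a, b, c⟩ := v
  obtain ⟨a', b', c'⟩ := w
  dsimp only at h1 h2 h3
  by_cases ha : a = 0
  · by_cases hb : b = 0
    · have hc : c ≠ 0 := by
        intro hc
        apply hv
        rw [ha, hb, hc]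
        rfl
      subst ha
      subst hb
      refine ⟨c' / c, ?_⟩
      refine Prod.ext ?_ (Prod.ext ?_ ?_)
      · change a' = c' / c * 0
        have : c * a' = 0 := by linear_combination h2
        rw [mul_zero]
        exact (mul_eq_zero.mp this).resolve_left hc
      · change b' = c' / c * 0
        have : c * b' = 0 := by linear_combination (-1) * h1
        rw [mul_zero]
        exact (mul_eq_zero.mp this).resolve_left hc
      · change c' = c' / c * c
        rw [div_mul_cancel₀ _ hc]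
    · refine ⟨b' / b, ?_⟩
      refine Prod.ext ?_ (Prod.ext ?_ ?_)
      · change a' = b' / b * a
        rw [div_mul_eq_mul_div, eq_div_iff hb]
        linear_combination (-1) * h3
      · change b' = b' / b * b
        rw [div_mul_cancel₀ _ hb]
      · change c' = b' / b * c
        rw [div_mul_eq_mul_div, eq_div_iff hb]
        linear_combination h1
  · refine ⟨a' / a, ?_⟩
    refine Prod.ext ?_ (Prod.ext ?_ ?_)
    · change a' = a' / a * a
      rw [div_mul_cancel₀ _ ha]
    · change b' = a' / a * b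
      rw [div_mul_eq_mul_div, eq_div_iff ha]
      linear_combination h3
    · change c' = a' / a * c
      rw [div_mul_eq_mul_div, eq_div_iff ha]
      linear_combination (-1) * h2

/-- Two points of the plane are on one line. Proof: `Ls v s (s ^ p) = 0` says that the functional
`(s + s ^ p, 1, - s ^ (p + 1))` vanishes at `v`; if this holds for `v` and `w` (not proportional),
the functional is proportional to the vector product `l` of `v` and `w`, so `s + s ^ p = l.1/l.2.1`
and `s ^ (p + 1) = - l.2.2/l.2.1`, `s` is a root of a fixed quadratic polynomial. -/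
theorem Tv_inter {B : Finset (Vc p)} (hB : Np B) (hn : ∀ v ∈ B, nq v ≠ 0) {v w : Vc p}
    (hv : v ∈ B) (hw : w ∈ B) (hvw : v ≠ w) : (Tv K B v ∩ Tv K B w).card ≤ 2 := by
  obtain ⟨l1, hl1⟩ : ∃ l1, l1 = v.2.1 * w.2.2 - v.2.2 * w.2.1 := ⟨_, rfl⟩
  obtain ⟨l2, hl2⟩ : ∃ l2, l2 = v.2.2 * w.1 - v.1 * w.2.2 := ⟨_, rfl⟩
  obtain ⟨l3, hl3⟩ : ∃ l3, l3 = v.1 * w.2.1 - v.2.1 * w.1 := ⟨_, rfl⟩
  have hv0 : v ≠ 0 := by
    intro h
    apply hn v hv
    rw [h]
    change (0 : ZMod p) ^ 2 + 0 * 0 = 0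
    ring
  have key : ∀ s ∈ Tv K B v ∩ Tv K B w,
      algebraMap (ZMod p) K l2 * (s + s ^ p) = algebraMap (ZMod p) K l1 ∧
      algebraMap (ZMod p) K l2 * (s * s ^ p) = - algebraMap (ZMod p) K l3 := by
    intro s hs
    rw [Finset.mem_inter, Tv, Tv, Finset.mem_filter, Finset.mem_filter] at hs
    obtain ⟨⟨_, e1⟩, ⟨_, e2⟩⟩ := hs
    unfold Ls at e1 e2
    rw [hl1, hl2, hl3]
    simp only [map_sub, map_mul]
    constructor
    · linear_combination algebraMap (ZMod p) K w.2.2 * e1 - algebraMap (ZMod p) K v.2.2 * e2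
    · linear_combination algebraMap (ZMod p) K w.1 * e1 - algebraMap (ZMod p) K v.1 * e2
  by_cases h2 : l2 = 0
  · have hemp : Tv K B v ∩ Tv K B w = ∅ := by
      rw [Finset.eq_empty_iff_forall_notMem]
      intro s hs
      obtain ⟨k1, k2⟩ := key s hs
      rw [h2, map_zero, zero_mul] at k1 k2
      have e1 : l1 = 0 := (map_eq_zero _).mp k1.symm
      have e3 : l3 = 0 := by
        have := k2.symm
        rw [neg_eq_zero] at this
        exact (map_eq_zero _).mp this
      obtain ⟨k, hk⟩ := tco_prop hv0 (hl1.symm.trans e1) (hl2.symm.trans h2) (hl3.symm.trans e3)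
      exact hvw (hB v hv w hw k hk).symm
    rw [hemp, Finset.card_empty]
    exact Nat.zero_le _
  · have h2' : algebraMap (ZMod p) K l2 ≠ 0 := (_root_.map_ne_zero _).mpr h2
    obtain ⟨f, hf⟩ : ∃ f : K[X], f = C (algebraMap (ZMod p) K l2) * X ^ 2 +
        C (- algebraMap (ZMod p) K l1) * X + C (- algebraMap (ZMod p) K l3) := ⟨_, rfl⟩
    have hf0 : f ≠ 0 := by
      intro h
      apply h2'
      have h4 : f.coeff 2 = algebraMap (ZMod p) K l2 := by
        rw [hf]
        simp [coeff_X]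
      rw [← h4, h, coeff_zero]
    have hsub : Tv K B v ∩ Tv K B w ⊆ f.roots.toFinset := by
      intro s hs
      obtain ⟨k1, k2⟩ := key s hs
      rw [Multiset.mem_toFinset, mem_roots hf0, IsRoot.def, hf]
      simp only [eval_add, eval_mul, eval_pow, eval_X, eval_C]
      linear_combination s * k1 - k2
    refine (Finset.card_le_card hsub).trans ((Multiset.toFinset_card_le _).trans
      ((card_roots' f).trans ?_))
    rw [hf]
    exact natDegree_quadratic_le

theorem Tv_three {B : Finset (Vc p)} (s : K) : (B.filter fun v => s ∈ Tv K B v).card ≤ 3 := by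
  by_cases h : ∃ v ∈ B, s ∈ Tv K B v
  · obtain ⟨v, _, hv⟩ := h
    rw [Tv, Finset.mem_filter, Tt, Finset.mem_filter] at hv
    rw [← hv.1.2]
    refine Finset.card_le_card fun w hw => ?_
    rw [Finset.mem_filter, Tv, Finset.mem_filter] at hw
    rw [Finset.mem_filter]
    exact ⟨hw.1, hw.2.2⟩
  · have hemp : (B.filter fun v => s ∈ Tv K B v) = ∅ := by
      rw [Finset.filter_eq_empty_iff]
      intro v hv hs
      exact h ⟨v, hv, hs⟩
    rw [hemp, Finset.card_empty]
    exact Nat.zero_le _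

/-- Double counting: every element of `Tt B` is in `Tv B v` for exactly three `v ∈ B`. -/
theorem sum_Tv (B : Finset (Vc p)) : ∑ v ∈ B, (Tv K B v).card = 3 * (Tt K B).card := by
  have h1 : ∀ v : Vc p, (Tv K B v).card =
      ∑ s ∈ Tt K B, if Ls v s (s ^ p) = 0 then 1 else 0 := by
    intro v
    rw [Tv, Finset.card_filter]
  simp only [h1]
  rw [Finset.sum_comm]
  have h2 : ∀ s ∈ Tt K B, (∑ v ∈ B, if Ls v s (s ^ p) = 0 then 1 else 0) = 3 := by
    intro s hs
    rw [← Finset.card_filter]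
    rw [Tt, Finset.mem_filter] at hs
    exact hs.2
  rw [Finset.sum_congr rfl h2, Finset.sum_const, smul_eq_mul, mul_comm]

end Pool.Agent.MP193S
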