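import Mathlib
import Pool.Agent.Lib.MP_193dd3_co_S.Hev

/-!
# MP_193dd3_co, project S: division by `t - s ^ p`
-/

set_option autoImplicit false

open Polynomial
open Pool.Agent.MP193G (Vc nq Lf Pl iv hx lin)

namespace Pool.Agent.MP193S

variable {K : Type} [Field K]

private theorem Van_coeff (f : P2 K) (a b : ℕ) :
    ((Bivariate.swap f).coeff a).coeff b = (f.coeff b).coeff a := by
  induction f using Polynomial.induction_on' with
  | add f g hf hg => rw [map_add, coeff_add, coeff_add, coeff_add, coeff_add, hf, hg]
  | monomial n g =>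
    induction g using Polynomial.induction_on' with
    | add f g hf hg =>
      rw [map_add, map_add, coeff_add, coeff_add, coeff_add, coeff_add, hf, hg]
    | monomial m r =>
      rw [Bivariate.swap_monomial_monomial]
      simp only [coeff_monomial]
      split_ifs <;> simp [coeff_monomial, *]

private theorem Van_deg {i : ℕ} {f : P2 K} (h : (Bivariate.swap f).natDegree ≤ i) (l : ℕ) :
    (f.coeff l).natDegree ≤ i := by
  rw [natDegree_le_iff_coeff_eq_zero]
  intro N hN
  rw [← Van_coeff, coeff_eq_zero_of_natDegree_lt (lt_of_le_of_lt h hN), coeff_zero]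

theorem bd_swap {i j : ℕ} {f : P2 K} (hf : bd i j f) : bd j i (Bivariate.swap f) := by
  refine ⟨?_, fun l => ?_⟩
  · rw [natDegree_le_iff_coeff_eq_zero]
    intro N hN
    ext b
    rw [Van_coeff, coeff_zero]
    exact coeff_eq_zero_of_natDegree_lt (lt_of_le_of_lt (hf.2 b) hN)
  · rw [natDegree_le_iff_coeff_eq_zero]
    intro N hN
    rw [Van_coeff, coeff_eq_zero_of_natDegree_lt (lt_of_le_of_lt hf.1 hN), coeff_zero]

theorem evalEval_sw (s t : K) (f : P2 K) :
    evalEval s t (Bivariate.swap f) = evalEval t s f := by
  induction f using Polynomial.induction_on' with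
  | add f g hf hg => rw [map_add, evalEval_add, evalEval_add, hf, hg]
  | monomial n g =>
    induction g using Polynomial.induction_on' with
    | add f g hf hg => rw [map_add, map_add, evalEval_add, evalEval_add, hf, hg]
    | monomial m r =>
      rw [Bivariate.swap_monomial_monomial]
      unfold evalEval
      rw [eval_monomial, eval_monomial, eval_mul, eval_mul, eval_monomial, eval_monomial,
        ← C_pow, ← C_pow, eval_C, eval_C]
      ring

/-- Proof. The polynomial `f(X, X ^ p)` has degree at most `i + p j` and vanishes on `S`, so it is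
zero, and `f` is divisible by the polynomial `X - C (X ^ p)` (outer variable),
`f = (X - C (X ^ p)) * Q`. If
`f = 0` take `Q = 0`. Otherwise the degree of `Q` in the outer variable is one less than that of
`f`, and the degree in the inner variable is additive (swap the variables: `K[X][X]` is an
integral domain), so it is at most `i - p`. -/
theorem van {p : ℕ} (hp : 1 ≤ p) {f : P2 K} {i j : ℕ} (hf : bd i j f) (hi : p ≤ i)
    (S : Finset K) (hS : i + p * j < S.card) (hz : ∀ s ∈ S, evalEval s (s ^ p) f = 0) :
    ∃ Q : P2 K, f = (X - C (X ^ p)) * Q ∧ bd (i - p) (j - 1) Q := by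
  have hev : ∀ s : K, eval s (f.eval (X ^ p : K[X])) = evalEval s (s ^ p) f := by
    intro s
    unfold evalEval
    rw [eval_eq_sum_range (p := f) (X ^ p : K[X]), eval_eq_sum_range (p := f) (C (s ^ p)),
      eval_finsetSum, eval_finsetSum]
    refine Finset.sum_congr rfl fun l _ => ?_
    rw [eval_mul, eval_mul, eval_pow, eval_pow, eval_pow, eval_X, eval_C]
  have hdeg : (f.eval (X ^ p : K[X])).natDegree ≤ i + p * j := by
    rw [eval_eq_sum_range]
    refine natDegree_sum_le_of_forall_le _ _ fun l hl => ?_
    have hl' : l ≤ f.natDegree := Nat.lt_succ_iff.1 (Finset.mem_range.1 hl)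
    have h1 : ((X ^ p : K[X]) ^ l).natDegree ≤ p * l := by
      rw [← pow_mul]
      exact natDegree_X_pow_le _
    refine (natDegree_mul_le_of_le (hf.2 l) h1).trans ?_
    have h2 : p * l ≤ p * j := Nat.mul_le_mul_left p (hl'.trans hf.1)
    omega
  have hzero : f.eval (X ^ p : K[X]) = 0 := by
    by_contra h
    have h1 : S.card ≤ (f.eval (X ^ p : K[X])).natDegree := by
      refine card_le_degree_of_subset_roots (p := f.eval (X ^ p : K[X])) ?_
      intro s hs
      rw [Finset.mem_val] at hs
      rw [mem_roots h, IsRoot, hev]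
      exact hz s hs
    omega
  obtain ⟨Q, hQ⟩ := dvd_iff_isRoot.2 (show IsRoot f (X ^ p : K[X]) from hzero)
  refine ⟨Q, hQ, ?_⟩
  by_cases hQ0 : Q = 0
  · rw [hQ0]
    refine ⟨by rw [natDegree_zero]; exact Nat.zero_le _, fun l => ?_⟩
    rw [coeff_zero, natDegree_zero]
    exact Nat.zero_le _
  · refine ⟨?_, Van_deg ?_⟩
    · have h1 : f.natDegree = 1 + Q.natDegree := by
        rw [hQ, natDegree_mul (X_sub_C_ne_zero _) hQ0, natDegree_X_sub_C]
      have h2 := hf.1
      omega
    · have h1 : Bivariate.swap f = (C X - X ^ p) * Bivariate.swap Q := by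
        rw [hQ, map_mul, map_sub, C_pow, map_pow, Bivariate.swap_X, Bivariate.swap_Y]
      have h2 : (C X - X ^ p : P2 K).natDegree = p := by
        rw [natDegree_sub_eq_right_of_natDegree_lt, natDegree_X_pow]
        rw [natDegree_C, natDegree_X_pow]
        exact hp
      have h3 : (C X - X ^ p : P2 K) ≠ 0 := by
        intro h
        rw [h, natDegree_zero] at h2
        omega
      have h4 : Bivariate.swap Q ≠ 0 := by
        intro h
        apply hQ0
        have h5 := congrArg Bivariate.swap h
        rwa [Bivariate.swap_swap_apply, map_zero] at h5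
      have h5 := (bd_swap hf).1
      rw [h1, natDegree_mul h3 h4, h2] at h5
      omega

end Pool.Agent.MP193S
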