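import Mathlib
import Pool.Agent.Lib.MP_193dd3_co_S.Hev

/-!
# MP_193dd3_co, project S: a polynomial which vanishes on many curves is zero
-/

set_option autoImplicit false

open Polynomial
open Pool.Agent.MP193G (Vc nq Lf Pl iv hx lin)

namespace Pool.Agent.MP193S

variable {p : ℕ} [Fact p.Prime] (K : Type) [Field K] [Algebra (ZMod p) K] [CharP K p] [Infinite K]

private theorem Zer_pow (a : ZMod p) : (algebraMap (ZMod p) K a) ^ p = algebraMap (ZMod p) K a := by
  rw [← map_pow, ZMod.pow_card]

/-- An element which is not a root of `X ^ (p ^ 2) - X` satisfies no quadratic equation. -/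
private theorem Zer_quad {t : K} (ht : t ^ (p ^ 2) ≠ t) {α β γ : ZMod p}
    (h : algebraMap (ZMod p) K α * t ^ 2 + algebraMap (ZMod p) K β * t +
      algebraMap (ZMod p) K γ = 0) : α = 0 ∧ β = 0 ∧ γ = 0 := by
  have hinj : Function.Injective (algebraMap (ZMod p) K) := (algebraMap (ZMod p) K).injective
  have ht2 : (t ^ p) ^ p = t ^ (p ^ 2) := by rw [← pow_mul, sq]
  have htp : t ^ p ≠ t := by
    intro h1
    exact ht (by rw [← ht2, h1, h1])
  -- the Frobenius map on the equation
  have hfr : ∀ u : K, algebraMap (ZMod p) K α * u ^ 2 + algebraMap (ZMod p) K β * u +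
      algebraMap (ZMod p) K γ = 0 → algebraMap (ZMod p) K α * (u ^ p) ^ 2 +
        algebraMap (ZMod p) K β * u ^ p + algebraMap (ZMod p) K γ = 0 := by
    intro u hu
    have h1 := congrArg (frobenius K p) hu
    rw [map_add, map_add, map_mul, map_mul, map_pow, map_zero] at h1
    simp only [frobenius_def, Zer_pow] at h1
    exact h1
  have h1 := hfr t h
  have h2 := hfr _ h1
  rw [ht2] at h2
  by_cases hα : α = 0
  · by_cases hβ : β = 0
    · refine ⟨hα, hβ, hinj ?_⟩
      rw [hα, hβ, map_zero, zero_mul, zero_mul, zero_add, zero_add] at h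
      rw [h, map_zero]
    · exfalso
      rw [hα, map_zero, zero_mul, zero_add] at h h1
      have h3 : algebraMap (ZMod p) K β ≠ 0 := by
        rw [Ne, ← map_zero (algebraMap (ZMod p) K)]
        exact fun h4 => hβ (hinj h4)
      refine htp (mul_left_cancel₀ h3 ?_)
      linear_combination h1 - h
  · exfalso
    have h3 : algebraMap (ZMod p) K α ≠ 0 := by
      rw [Ne, ← map_zero (algebraMap (ZMod p) K)]
      exact fun h4 => hα (hinj h4)
    have hne2 : t ^ (p ^ 2) ≠ t ^ p := by
      rw [← ht2]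
      intro h4
      have h5 : frobenius K p (t ^ p) = frobenius K p t := by
        rw [frobenius_def, frobenius_def, h4]
      exact htp (frobenius_inj K p h5)
    have h5 : (t ^ p - t) * (algebraMap (ZMod p) K α * (t ^ p + t) +
        algebraMap (ZMod p) K β) = 0 := by
      linear_combination h1 - h
    have h6 : (t ^ (p ^ 2) - t ^ p) * (algebraMap (ZMod p) K α * (t ^ (p ^ 2) + t ^ p) +
        algebraMap (ZMod p) K β) = 0 := by
      linear_combination h2 - h1
    have h7 := (mul_eq_zero.1 h5).resolve_left (sub_ne_zero.2 htp)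
    have h8 := (mul_eq_zero.1 h6).resolve_left (sub_ne_zero.2 hne2)
    refine ht (mul_left_cancel₀ h3 ?_)
    linear_combination h8 - h7

private theorem Zer_den {t : K} (ht : t ^ (p ^ 2) ≠ t) {v : Vc p} (hv : nq v ≠ 0) :
    algebraMap (ZMod p) K v.2.2 * t - algebraMap (ZMod p) K v.1 ≠ 0 := by
  intro h
  have h1 := Zer_quad K ht (α := 0) (β := v.2.2) (γ := -v.1) (by
    rw [map_zero, zero_mul, zero_add, map_neg]
    linear_combination h)
  apply hv
  rw [nq, h1.2.1, neg_eq_zero.1 h1.2.2]
  ring

private theorem Zer_prop {v w : Vc p} (hv : nq v ≠ 0) (h1 : v.1 * w.2.2 = w.1 * v.2.2)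
    (h2 : v.2.1 * w.2.2 = w.2.1 * v.2.2) (h3 : v.1 * w.2.1 = w.1 * v.2.1) :
    ∃ k : ZMod p, w = k • v := by
  by_cases ha : v.1 = 0
  · have hb : v.2.1 ≠ 0 := by
      intro hb
      apply hv
      rw [nq, ha, hb]
      ring
    refine ⟨w.2.1 / v.2.1, ?_⟩
    refine Prod.ext ?_ (Prod.ext ?_ ?_)
    · rw [ha, zero_mul] at h3
      have h4 := (mul_eq_zero.1 h3.symm).resolve_right hb
      rw [h4, Prod.smul_fst, ha, smul_zero]
    · rw [Prod.smul_snd, Prod.smul_fst, smul_eq_mul, div_mul_cancel₀ _ hb]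
    · rw [Prod.smul_snd, Prod.smul_snd, smul_eq_mul, div_mul_eq_mul_div, ← h2,
        mul_div_cancel_left₀ _ hb]
  · refine ⟨w.1 / v.1, ?_⟩
    refine Prod.ext ?_ (Prod.ext ?_ ?_)
    · rw [Prod.smul_fst, smul_eq_mul, div_mul_cancel₀ _ ha]
    · rw [Prod.smul_snd, Prod.smul_fst, smul_eq_mul, div_mul_eq_mul_div, ← h3,
        mul_div_cancel_left₀ _ ha]
    · rw [Prod.smul_snd, Prod.smul_snd, smul_eq_mul, div_mul_eq_mul_div, ← h1,
        mul_div_cancel_left₀ _ ha]

private theorem Zer_point {t : K} (ht : t ^ (p ^ 2) ≠ t) {v : Vc p} (hv : nq v ≠ 0) {j : ℕ}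
    {f : P2 K} (hf : f.natDegree ≤ j) (h : hev K v j f = 0) :
    evalEval ((algebraMap (ZMod p) K v.1 * t + algebraMap (ZMod p) K v.2.1) /
      (algebraMap (ZMod p) K v.2.2 * t - algebraMap (ZMod p) K v.1)) t f = 0 := by
  have hD := Zer_den K ht hv
  set D := algebraMap (ZMod p) K v.2.2 * t - algebraMap (ZMod p) K v.1 with hDd
  set s := (algebraMap (ZMod p) K v.1 * t + algebraMap (ZMod p) K v.2.1) / D with hs
  have hsD : s * D = algebraMap (ZMod p) K v.1 * t + algebraMap (ZMod p) K v.2.1 := by
    rw [hs, div_mul_cancel₀ _ hD]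
  have hmu : eval s (mu K v) = t * eval s (lam K v) := by
    simp only [mu, lam, eval_add, eval_sub, eval_mul, eval_C, eval_X]
    rw [hDd] at hsD
    linear_combination -hsD
  have hlam : eval s (lam K v) ≠ 0 := by
    simp only [lam, eval_sub, eval_mul, eval_C, eval_X]
    intro h0
    have h1 : algebraMap (ZMod p) K (nq v) = 0 := by
      rw [nq, map_add, map_pow, map_mul]
      rw [hDd] at hsD
      linear_combination (algebraMap (ZMod p) K v.2.2 * t - algebraMap (ZMod p) K v.1) * h0 -
        algebraMap (ZMod p) K v.2.2 * hsD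
    rw [← map_zero (algebraMap (ZMod p) K)] at h1
    exact hv ((algebraMap (ZMod p) K).injective h1)
  have h2 := hev_eval K v hf hmu
  rw [h, eval_zero] at h2
  exact (mul_eq_zero.1 h2.symm).resolve_left (pow_ne_zero _ hlam)

/-- Proof. Let `t ∈ K` be not a root of `X ^ (p ^ 2) - X` (all but finitely many elements of the infinite
field `K`). For `v = (a, b, c) ∈ B` we have `c t - a ≠ 0` (otherwise `t` is in the image of `ZMod p`,
or `a = c = 0`); put `s_v = (a t + b)/(c t - a)`; then `c s_v - a = (a ^ 2 + b c)/(c t - a) ≠ 0` and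
`mu = t * lam` at `s_v`, so by `hev_eval` `evalEval s_v t f = 0`. Different `v, w ∈ B` give
different `s_v ≠ s_w`: otherwise `(a t + b)(c' t - a') = (a' t + b')(c t - a)` is a quadratic equation
for `t` with coefficients in `ZMod p`; `t` is not a root of `X ^ (p ^ 2) - X`, i.e. not of degree at most
two over `ZMod p`, so the coefficients `a c' - a' c`, `b c' - b' c` (middle coefficient, `a a'`
cancels) and `b a' - b' a` are zero, so `v` and `w` are proportional, contrary to `Np`. (To see that a
root `t` of a quadratic polynomial `q ≠ 0` over `ZMod p` is a root of `X ^ (p ^ 2) - X`: `t ^ p` is also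
a root of `q`; if `t ^ p = t` fine; else `t`, `t ^ p` are the two roots and `t ^ (p ^ 2)` is one of them; it
is not `t ^ p`, because the Frobenius map is injective.) So the polynomial `f(s, t)` in `s` of
degree at most `i` (its coefficients are values at `t`) has more than `i` zeros, and it is zero. As
this is true for infinitely many `t`, `f = 0` (swap the variables or compare coefficients). -/
theorem hev_zero (B : Finset (Vc p)) (hn : ∀ v ∈ B, nq v ≠ 0) (hB : Np B) {i j : ℕ} {f : P2 K}
    (hf : bd i j f) (hi : i < B.card) (h : ∀ v ∈ B, hev K v j f = 0) : f = 0 := by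
  have hp : p.Prime := Fact.out
  have hfin : {t : K | t ^ (p ^ 2) = t}.Finite := by
    have h1 : (X ^ (p ^ 2) - X : K[X]) ≠ 0 :=
      FiniteField.X_pow_card_sub_X_ne_zero K (Nat.one_lt_pow (by norm_num) hp.one_lt)
    refine ((X ^ (p ^ 2) - X : K[X]).rootSet_finite K).subset ?_
    intro t ht
    rw [mem_rootSet]
    refine ⟨h1, ?_⟩
    simp only [map_sub, map_pow, aeval_X]
    exact sub_eq_zero.2 ht
  have hinf : {t : K | t ^ (p ^ 2) ≠ t}.Infinite := by
    have h1 := hfin.infinite_compl
    exact h1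
  have hzero : ∀ t : K, t ^ (p ^ 2) ≠ t → eval (C t) f = 0 := by
    intro t ht
    refine eq_zero_of_natDegree_lt_card_of_eval_eq_zero (eval (C t) f)
      (f := fun v : B => (algebraMap (ZMod p) K v.1.1 * t + algebraMap (ZMod p) K v.1.2.1) /
        (algebraMap (ZMod p) K v.1.2.2 * t - algebraMap (ZMod p) K v.1.1)) ?_ ?_ ?_
    · rintro ⟨v, hv⟩ ⟨w, hw⟩ hvw
      rw [Subtype.mk.injEq]
      have hDv := Zer_den K ht (hn v hv)
      have hDw := Zer_den K ht (hn w hw)
      simp only at hvw
      rw [div_eq_div_iff hDv hDw] at hvw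
      have h1 := Zer_quad K ht (α := v.1 * w.2.2 - w.1 * v.2.2)
        (β := v.2.1 * w.2.2 - w.2.1 * v.2.2) (γ := v.1 * w.2.1 - w.1 * v.2.1) (by
          simp only [map_sub, map_mul]
          linear_combination hvw)
      obtain ⟨k, hk⟩ := Zer_prop (hn v hv) (sub_eq_zero.1 h1.1) (sub_eq_zero.1 h1.2.1)
        (sub_eq_zero.1 h1.2.2)
      exact (hB v hv w hw k hk).symm
    · rintro ⟨v, hv⟩
      exact Zer_point K ht (hn v hv) hf.1 (h v hv)
    · rw [Fintype.card_coe]
      refine lt_of_le_of_lt ?_ hi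
      rw [eval_eq_sum_range]
      refine natDegree_sum_le_of_forall_le _ _ fun l _ => ?_
      rw [← C_pow]
      exact (natDegree_mul_C_le _ _).trans (hf.2 l)
  refine eq_zero_of_infinite_isRoot f ?_
  refine (hinf.image (C_injective.injOn)).mono ?_
  rintro _ ⟨t, ht, rfl⟩
  exact hzero t ht

end Pool.Agent.MP193S
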