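import Mathlib
import Pool.Agent.Lib.MP_193dd3_co_S.Van
import Pool.Agent.Lib.MP_193dd3_co_S.Zer
import Pool.Agent.Lib.MP_193dd3_co_S.Tco

/-!
# MP_193dd3_co, project S: the contradiction from a global function
-/

set_option autoImplicit false

open Polynomial
open Pool.Agent.MP193G (Vc nq Lf Pl iv hx lin)

namespace Pool.Agent.MP193S

variable {p : ℕ} [Fact p.Prime] (K : Type) [Field K] [DecidableEq K] [Algebra (ZMod p) K]
  [CharP K p] [Infinite K]

omit [Fact p.Prime] [DecidableEq K] [Algebra (ZMod p) K] [CharP K p] [Infinite K] in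
private theorem algFin_evC (s t : K) : evalEval s t (C (X - X ^ p) : P2 K) = s - s ^ p := by
  rw [evalEval_C, eval_sub, eval_X, eval_pow, eval_X]

omit [Fact p.Prime] [DecidableEq K] [Algebra (ZMod p) K] [CharP K p] [Infinite K] in
private theorem algFin_evU (s t : K) : evalEval s t (X - X ^ p : P2 K) = t - t ^ p := by
  rw [evalEval_sub, evalEval_X, evalEval_pow, evalEval_X]

omit [Fact p.Prime] [DecidableEq K] [Algebra (ZMod p) K] [CharP K p] [Infinite K] in
private theorem algFin_evD (s t : K) : evalEval s t (X - C (X ^ p) : P2 K) = t - s ^ p := by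
  rw [evalEval_sub, evalEval_X, evalEval_C, eval_pow, eval_X]

omit [DecidableEq K] [CharP K p] [Infinite K] in
private theorem algFin_zero {f : K[X]} {m : ℕ} (hf : f.natDegree ≤ m) (hm : m < p)
    (h : ∀ x : ZMod p, eval (algebraMap (ZMod p) K x) f = 0) : f = 0 := by
  have : NeZero p := ⟨(Fact.out : p.Prime).ne_zero⟩
  refine eq_zero_of_natDegree_lt_card_of_eval_eq_zero f (f := algebraMap (ZMod p) K)
    (algebraMap (ZMod p) K).injective h ?_
  rw [ZMod.card]
  exact lt_of_le_of_lt hf hm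

omit [DecidableEq K] [CharP K p] [Infinite K] in
private theorem algFin_Lc {v : Vc p} (hv : nq v ≠ 0) (x : ZMod p) :
    (Lc K v).map (evalRingHom (algebraMap (ZMod p) K x)) ≠ 0 := by
  intro h
  have h1 := congrArg (fun g => coeff g 1) h
  have h0 := congrArg (fun g => coeff g 0) h
  unfold Lc lam mu at h0 h1
  simp only [Polynomial.map_sub, Polynomial.map_mul, map_C, map_X, coeff_sub, coeff_C_mul,
    coeff_X_one, coeff_X_zero, coeff_C_zero, coeff_C_succ, coe_evalRingHom, eval_sub, eval_add,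
    eval_mul, eval_C, eval_X, coeff_zero, mul_one, mul_zero, sub_zero, zero_sub] at h0 h1
  have hinj := (algebraMap (ZMod p) K).injective
  have h2 : v.2.2 * x - v.1 = 0 := by
    apply hinj
    rw [map_sub, map_mul, map_zero]
    linear_combination h1
  have h3 : v.1 * x + v.2.1 = 0 := by
    apply hinj
    rw [map_add, map_mul, map_zero]
    linear_combination -h0
  apply hv
  rw [nq]
  linear_combination (-v.1) * h2 + v.2.2 * h3

/-- Proof. Let `F = E * ∏ Lc w`, `G = R * D + C (X - X ^ p) * N`, `G' = P * D - (X - X ^ p) * N`. Then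
`F * D = C (X - X ^ p) * G' + (X - X ^ p) * G`. The bidegrees: `G` at most `(p + a + d, a + d)`, `G'` at
most `(a + d, p + a + d)` (`bd_mul`, `bd_CU`, `bd_U`, `bd_mono`).

Let `s ∈ Tt B`, `z = (s, s ^ p)`. `G(z) = 0` by `hX`. As `F(z) = 0` and `(s ^ p) ^ p = s`,
`(s - s ^ p) P(z) + (s ^ p - s) R(z) = 0`, so `P(z) = R(z)` and `G'(z) = G(z) = 0`. By `van`
(`hT`) `G = (X - C (X ^ p)) * Q`, `bd (a + d) (a + d - 1) Q`, and as `Tt B` is closed under
`s ↦ s ^ p` also `swap G'` vanishes at the points `(s, s ^ p)`, so `swap G' = (X - C (X ^ p)) * Q'`, i.e.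
`G' = (C X - X ^ p) * swap Q'`. Three of the factors of `F` vanish at `z`, so the derivative of
`F * D` in the outer variable vanishes at `z`. The derivative of
`C (X - X ^ p) * (C X - X ^ p) * swap Q'` at `z` is zero (`s - (s ^ p) ^ p = 0` and the derivative of
`X ^ p` is zero); that of `(X - X ^ p) * (X - C (X ^ p)) * Q` at `z` is `(s ^ p - s) Q(z)`. So
`Q(z) = 0` for all `s ∈ Tt B`. For `v ∈ B` the polynomial `hev v (a + d) Q` of degree at most `2 (a + d)`
vanishes on `Tv B v` (`hev_eval` with `t = s ^ p`, `mu_eq`), so it is zero (`hTv`), and by `hev_zero`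
`Q = 0`, `G = 0`. So `E * ∏ Lc w * D = C (X - X ^ p) * G'`. At `s` in the image of `ZMod p` the right-hand
side is zero, the polynomials `Lc w (s, t)` in `t` are not zero (`lam w` and `mu w` have no common
zero as `nq w ≠ 0`), so `(E * D)(s, t) = 0` as a polynomial in `t`. The coefficients of `E * D` have
degree at most `e + d < p` and vanish at the `p` elements of the image of `ZMod p`, so `E * D = 0`,
a contradiction. -/
theorem alg_fin (B : Finset (Vc p)) (hn : ∀ v ∈ B, nq v ≠ 0) (hB : Np B) {a d e : ℕ}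
    {E P R N D : P2 K} (hE0 : E ≠ 0) (hD0 : D ≠ 0) (hE : bd e e E) (hP : bd a (p - 1) P)
    (hR : bd (p + a) a R) (hN : bd (a + d) (a + d) N) (hD : bd d d D)
    (hF : E * ∏ w ∈ B, Lc K w = C (X - X ^ p) * P + (X - X ^ p) * R)
    (hX : ∀ s ∈ Tt K B, evalEval s (s ^ p) (R * D + C (X - X ^ p) * N) = 0)
    (hT : p + a + d + p * (a + d) < (Tt K B).card)
    (hTv : ∀ v ∈ B, 2 * (a + d) < (Tv K B v).card) (hed : e + d < p) (han : a + d < B.card) :
    False := by
  have hp : p.Prime := Fact.out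
  have hp1 : 1 ≤ p := hp.one_lt.le
  set G : P2 K := R * D + C (X - X ^ p) * N with hG
  set G' : P2 K := P * D - (X - X ^ p) * N with hG'
  have hFD : E * (∏ w ∈ B, Lc K w) * D = C (X - X ^ p) * G' + (X - X ^ p) * G := by
    rw [hF, hG, hG']
    ring
  have bG : bd (p + (a + d)) (a + d) G := by
    refine bd_add (bd_mono (bd_mul hR hD) (by omega) (by omega)) (bd_CU hp1 hN)
  have bG' : bd (a + d) (p + (a + d)) G' := by
    refine bd_sub (bd_mono (bd_mul hP hD) (by omega) (by omega)) (bd_U hp1 hN)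
  have hirr : ∀ s ∈ Tt K B, s ^ p ≠ s ∧ (s ^ p) ^ p = s := by
    intro s hs
    refine ⟨?_, (Tt_pow K hs).2⟩
    rw [Tt, Finset.mem_filter, mem_irr] at hs
    exact hs.1.2
  -- two of the factors vanish
  have htwo : ∀ s ∈ Tt K B, ∃ W : P2 K, ∃ v w : Vc p, E * (∏ w ∈ B, Lc K w) =
      Lc K v * Lc K w * W ∧ evalEval s (s ^ p) (Lc K v) = 0 ∧
        evalEval s (s ^ p) (Lc K w) = 0 := by
    intro s hs
    rw [Tt, Finset.mem_filter] at hs
    have h2 : 1 < (B.filter fun v => Ls v s (s ^ p) = 0).card := by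
      rw [hs.2]
      norm_num
    obtain ⟨v, hv, w, hw, hvw⟩ := Finset.one_lt_card.1 h2
    rw [Finset.mem_filter] at hv hw
    refine ⟨E * ∏ u ∈ (B.erase v).erase w, Lc K u, v, w, ?_, ?_, ?_⟩
    · rw [← Finset.mul_prod_erase B _ hv.1,
        ← Finset.mul_prod_erase (B.erase v) _ (Finset.mem_erase.2 ⟨Ne.symm hvw, hw.1⟩)]
      ring
    · rw [evalEval_Lc]
      exact hv.2
    · rw [evalEval_Lc]
      exact hw.2
  have hF0 : ∀ s ∈ Tt K B, evalEval s (s ^ p) (E * ∏ w ∈ B, Lc K w) = 0 := by
    intro s hs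
    obtain ⟨W, v, w, h1, h2, h3⟩ := htwo s hs
    rw [h1, evalEval_mul, evalEval_mul, h2, zero_mul, zero_mul]
  have hG'0 : ∀ s ∈ Tt K B, evalEval s (s ^ p) G' = 0 := by
    intro s hs
    obtain ⟨h1, h2⟩ := hirr s hs
    have h3 := hF0 s hs
    rw [hF, evalEval_add, evalEval_mul, evalEval_mul, algFin_evC, algFin_evU, h2] at h3
    have h4 : (s - s ^ p) * (evalEval s (s ^ p) P - evalEval s (s ^ p) R) = 0 := by
      linear_combination h3
    have h5 := (mul_eq_zero.1 h4).resolve_left (sub_ne_zero.2 (Ne.symm h1))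
    have h6 := hX s hs
    rw [evalEval_add, evalEval_mul, evalEval_mul, algFin_evC] at h6
    rw [hG', evalEval_sub, evalEval_mul, evalEval_mul, algFin_evU, h2]
    linear_combination h6 + evalEval s (s ^ p) D * h5
  obtain ⟨Q, hQ, bQ⟩ := van hp1 bG (Nat.le_add_right p (a + d)) (Tt K B) (by omega) hX
  rw [Nat.add_sub_cancel_left] at bQ
  obtain ⟨Q', hQ', bQ'⟩ := van hp1 (bd_swap bG') (Nat.le_add_right p (a + d)) (Tt K B)
    (by omega) (by
      intro s hs
      rw [evalEval_sw]
      obtain ⟨h1, h2⟩ := Tt_pow K hs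
      have h3 := hG'0 _ h1
      rwa [h2] at h3)
  have hG'2 : G' = (C X - X ^ p) * Bivariate.swap Q' := by
    have h1 := congrArg (Bivariate.swap (R := K)) hQ'
    rw [Bivariate.swap_swap_apply, map_mul, map_sub, Bivariate.swap_Y, C_pow, map_pow,
      Bivariate.swap_X] at h1
    exact h1
  have hQz : ∀ s ∈ Tt K B, evalEval s (s ^ p) Q = 0 := by
    intro s hs
    obtain ⟨h1, h2⟩ := hirr s hs
    obtain ⟨W, v, w, h3, h4, h5⟩ := htwo s hs
    have h6 := congrArg (fun g => evalEval s (s ^ p) (derivative g)) hFD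
    rw [h3, hQ, hG'2] at h6
    have hdX : derivative (X ^ p : P2 K) = 0 := by
      rw [derivative_X_pow, CharP.cast_eq_zero, C_0, zero_mul]
    simp only [derivative_mul, derivative_add, derivative_sub, derivative_C, derivative_X, hdX,
      evalEval_add, evalEval_mul, evalEval_sub, evalEval_X, evalEval_C, evalEval_pow,
      evalEval_one, evalEval_zero, eval_sub, eval_X, eval_pow, h4, h5, h2] at h6
    have h7 : (s ^ p - s) * evalEval s (s ^ p) Q = 0 := by
      linear_combination -h6
    exact (mul_eq_zero.1 h7).resolve_left (sub_ne_zero.2 h1)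
  have hQ0 : Q = 0 := by
    refine hev_zero K B hn hB (bd_mono bQ le_rfl (Nat.sub_le _ 1)) han ?_
    intro v hv
    refine eq_zero_of_natDegree_lt_card_of_eval_eq_zero' _ (Tv K B v) ?_ ?_
    · intro s hs
      have hs' := hs
      rw [Tv, Finset.mem_filter] at hs
      rw [hev_eval K v (bQ.1.trans (Nat.sub_le _ 1)) (mu_eq K hs.2), hQz s hs.1, mul_zero]
    · refine lt_of_le_of_lt (hev_natDegree K v (bd_mono bQ le_rfl (Nat.sub_le _ 1))) ?_
      have := hTv v hv
      omega
  have hfin : E * (∏ w ∈ B, Lc K w) * D = C (X - X ^ p) * G' := by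
    rw [hFD, hQ, hQ0, mul_zero, mul_zero, add_zero]
  have hED : E * D = 0 := by
    have bED : bd (e + d) (e + d) (E * D) := bd_mul hE hD
    ext1 l
    rw [coeff_zero]
    refine algFin_zero K (bED.2 l) hed ?_
    intro x
    have h1 := congrArg (Polynomial.map (evalRingHom (algebraMap (ZMod p) K x))) hfin
    rw [Polynomial.map_mul, Polynomial.map_mul, Polynomial.map_mul, map_C] at h1
    have h2 : (evalRingHom (algebraMap (ZMod p) K x)) (X - X ^ p) = 0 := by
      rw [coe_evalRingHom, eval_sub, eval_X, eval_pow, eval_X, ← map_pow, ZMod.pow_card, sub_self]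
    rw [h2, C_0, zero_mul, Polynomial.map_prod] at h1
    have h3 : (∏ w ∈ B, (Lc K w).map (evalRingHom (algebraMap (ZMod p) K x))) ≠ 0 := by
      rw [Finset.prod_ne_zero_iff]
      intro w hw
      exact algFin_Lc K (hn w hw) x
    have h4 : (E * D).map (evalRingHom (algebraMap (ZMod p) K x)) = 0 := by
      rw [Polynomial.map_mul]
      refine (mul_eq_zero.1 ?_).resolve_left h3
      rw [← h1]
      ring
    have h5 := congrArg (fun g => coeff g l) h4
    simp only [coeff_map, coeff_zero, coe_evalRingHom] at h5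
    exact h5
  rcases mul_eq_zero.1 hED with h | h
  · exact hE0 h
  · exact hD0 h

end Pool.Agent.MP193S
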