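import Mathlib
import Pool.Agent.Lib.MP_193dd3_co_S.SDefs
import Pool.Agent.Lib.MP_193dd3_co_G.Geo

/-!
# MP_193dd3_co, project S: the secants without points of `B`
-/

set_option autoImplicit false

open Pool.Agent.MP193G (Vc nq Lf Pl iv hx lin)

namespace Pool.Agent.MP193S

variable {p : ℕ} [Fact p.Prime]

private theorem Cou_two : (Finset.univ.filter (fun w : Vc 2 => nq w ≠ 0)).card ≤ 4 := by
  decide

private theorem Cou_Lf (s t : ZMod p) (v : Vc p) :
    Lf (s : PL p) (t : PL p) v = -(v.2.2 * (s * t) - v.1 * (s + t) - v.2.1) := by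
  have e1 : hx ((s : ZMod p) : PL p) = (s, 1) := rfl
  have e2 : hx ((t : ZMod p) : PL p) = (t, 1) := rfl
  unfold Lf
  rw [e1, e2]
  ring

private theorem Cou_sym (s t : PL p) (v : Vc p) : Lf t s v = Lf s t v := by
  unfold Lf
  ring

private theorem Cou_N (v : Vc p) (hv : nq v ≠ 0) :
    p - 1 ≤ ((Finset.univ : Finset (ZMod p × ZMod p)).filter fun z =>
      v.2.2 * (z.1 * z.2) - v.1 * (z.1 + z.2) - v.2.1 = 0).card := by
  classical
  by_cases hc : v.2.2 = 0
  · have ha : v.1 ≠ 0 := by
      rintro h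
      apply hv
      unfold nq
      rw [h, hc]
      ring
    calc p - 1 ≤ p := Nat.sub_le _ _
      _ = (Finset.univ : Finset (ZMod p)).card := by rw [Finset.card_univ, ZMod.card]
      _ ≤ _ := Finset.card_le_card_of_injOn (fun s => (s, -v.2.1 / v.1 - s)) (by
          intro s _
          rw [Finset.mem_coe, Finset.mem_filter]
          refine ⟨Finset.mem_univ _, ?_⟩
          simp only [hc]
          field_simp
          ring) (by
          intro s _ s' _ h
          exact (Prod.mk.inj h).1)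
  · calc p - 1 = ((Finset.univ : Finset (ZMod p)).erase (v.1 / v.2.2)).card := by
          rw [Finset.card_erase_of_mem (Finset.mem_univ _), Finset.card_univ, ZMod.card]
      _ ≤ _ := Finset.card_le_card_of_injOn
          (fun s => (s, (v.1 * s + v.2.1) / (v.2.2 * s - v.1))) (by
          intro s hs
          rw [Finset.mem_coe, Finset.mem_erase] at hs
          have h1 : v.2.2 * s - v.1 ≠ 0 := by
            intro h2
            apply hs.1
            rw [eq_div_iff hc]
            linear_combination h2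
          rw [Finset.mem_coe, Finset.mem_filter]
          refine ⟨Finset.mem_univ _, ?_⟩
          simp only
          field_simp
          ring) (by
          intro s _ s' _ h
          exact (Prod.mk.inj h).1)

private theorem Cou_compl (A : Finset (PL p)) (h : ℕ) (hA : p ≤ A.card + h) :
    Aᶜ.card ≤ h + 1 := by
  rw [Finset.card_compl, Pool.Agent.MP193G.card_X]
  omega

private theorem Cou_bad (A : Finset (PL p)) (h : ℕ) (hA : p ≤ A.card + h) :
    ((Finset.univ : Finset (ZMod p × ZMod p)).filter fun z =>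
      z.1 = z.2 ∨ (z.1 : PL p) ∉ A ∨ (z.2 : PL p) ∉ A).card ≤ (2 * (h + 1) + 1) * p := by
  classical
  obtain ⟨C, hC⟩ : ∃ C : Finset (ZMod p), C = Finset.univ.filter fun s : ZMod p =>
    (s : PL p) ∉ A := ⟨_, rfl⟩
  have hCc : C.card ≤ h + 1 := by
    refine le_trans ?_ (Cou_compl A h hA)
    refine Finset.card_le_card_of_injOn (fun s => ((s : ZMod p) : PL p)) ?_ ?_
    · intro s hs
      rw [Finset.mem_coe, hC, Finset.mem_filter] at hs
      rw [Finset.mem_coe, Finset.mem_compl]
      exact hs.2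
    · intro s _ t _ hst
      exact OnePoint.coe_injective hst
  have hsub : ((Finset.univ : Finset (ZMod p × ZMod p)).filter fun z =>
      z.1 = z.2 ∨ (z.1 : PL p) ∉ A ∨ (z.2 : PL p) ∉ A) ⊆
      (Finset.univ : Finset (ZMod p)).image (fun s => (s, s)) ∪
        (C ×ˢ Finset.univ ∪ Finset.univ ×ˢ C) := by
    rintro ⟨s, t⟩ hz
    rw [Finset.mem_filter] at hz
    rw [Finset.mem_union, Finset.mem_union, Finset.mem_product, Finset.mem_product,
      Finset.mem_image, hC, Finset.mem_filter, Finset.mem_filter]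
    rcases hz.2 with h2 | h2 | h2
    · left
      refine ⟨s, Finset.mem_univ _, ?_⟩
      simp only at h2
      rw [h2]
    · right
      left
      exact ⟨⟨Finset.mem_univ _, h2⟩, Finset.mem_univ _⟩
    · right
      right
      exact ⟨Finset.mem_univ _, Finset.mem_univ _, h2⟩
  refine (Finset.card_le_card hsub).trans ((Finset.card_union_le _ _).trans ?_)
  have h3 : ((Finset.univ : Finset (ZMod p)).image (fun s => (s, s))).card ≤ p := by
    refine Finset.card_image_le.trans ?_
    rw [Finset.card_univ, ZMod.card]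
  have h4 := Finset.card_union_le (C ×ˢ (Finset.univ : Finset (ZMod p))) (Finset.univ ×ˢ C)
  rw [Finset.card_product, Finset.card_product, Finset.card_univ, ZMod.card] at h4
  have h5 : C.card * p ≤ (h + 1) * p := Nat.mul_le_mul_right _ hCc
  have h6 : p * C.card = C.card * p := mul_comm _ _
  have h7 : (2 * (h + 1) + 1) * p = p + ((h + 1) * p + (h + 1) * p) := by ring
  rw [h7]
  omega

/-- Proof. Let `N(z)` be the number of the `v ∈ B` with `c s t - a (s + t) - b = 0`, `z = (s, t)`,
i.e. `Lf s t v = 0`. Every `v ∈ B` contributes at least `p - 1` pairs `z` (`c ≠ 0`: one `t` for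
each `s ≠ a/c`; `c = 0`: then `a ≠ 0` and there is one `t` for each `s`). `N(z) ≤ 3` (`Pl 3 B`,
`Lf_lin`), and `N(z) ≤ 1` if `s ≠ t` and both are in `A`. The other `z` are at most `p + 2 (h + 1)
p` (`PL p` has `p + 1` elements, so at most `h + 1` of them are not in `A`). So `|B| (p - 1) ≤ ∑
N(z) ≤ |{z : N(z) ≥ 1}| + 2 (p + 2 (h + 1) p)`. -/
theorem card_grid (B : Finset (Vc p)) (hn : ∀ v ∈ B, nq v ≠ 0) (hP : Pl 3 B)
    (A : Finset (PL p)) (h : ℕ) (hA : p ≤ A.card + h)
    (h1 : ∀ s ∈ A, ∀ t ∈ A, s ≠ t → (B.filter fun v => Lf s t v = 0).card ≤ 1) :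
    (Finset.univ.filter fun z : ZMod p × ZMod p =>
      ∀ v ∈ B, v.2.2 * (z.1 * z.2) - v.1 * (z.1 + z.2) - v.2.1 ≠ 0).card + B.card * (p - 1) ≤
      p ^ 2 + 2 * (2 * (h + 1) + 1) * p := by
  classical
  obtain ⟨N, hN⟩ : ∃ N : ZMod p × ZMod p → ℕ, N = fun z => (B.filter fun v =>
    v.2.2 * (z.1 * z.2) - v.1 * (z.1 + z.2) - v.2.1 = 0).card := ⟨_, rfl⟩
  obtain ⟨D, hD⟩ : ∃ D : Finset (ZMod p × ZMod p), D = Finset.univ.filter fun z =>
    z.1 = z.2 ∨ (z.1 : PL p) ∉ A ∨ (z.2 : PL p) ∉ A := ⟨_, rfl⟩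
  have hDc : D.card ≤ (2 * (h + 1) + 1) * p := hD ▸ Cou_bad A h hA
  have hfil : ∀ z, N z = (B.filter fun v => Lf (z.1 : PL p) (z.2 : PL p) v = 0).card := by
    intro z
    rw [hN]
    simp only
    congr 1
    apply Finset.filter_congr
    intro v _
    rw [Cou_Lf, neg_eq_zero]
  have hN3 : ∀ z, N z ≤ 3 := by
    intro z
    rw [hfil]
    obtain ⟨l, hl, hv⟩ := Pool.Agent.MP193G.Lf_lin (z.1 : PL p) (z.2 : PL p)
    have h2 := hP l hl
    simp_rw [← hv] at h2
    exact h2
  have hN1 : ∀ z, z ∉ D → N z ≤ 1 := by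
    intro z hz
    rw [hD, Finset.mem_filter] at hz
    push Not at hz
    obtain ⟨h2, h3, h4⟩ := hz (Finset.mem_univ _)
    rw [hfil]
    exact h1 _ h3 _ h4 fun h5 => h2 (OnePoint.coe_injective h5)
  have hsum : B.card * (p - 1) ≤ ∑ z, N z := by
    have h2 : ∑ z, N z = ∑ v ∈ B, ((Finset.univ : Finset (ZMod p × ZMod p)).filter fun z =>
        v.2.2 * (z.1 * z.2) - v.1 * (z.1 + z.2) - v.2.1 = 0).card := by
      rw [hN]
      simp only [Finset.card_filter]
      rw [Finset.sum_comm]
    rw [h2, ← smul_eq_mul, ← Finset.sum_const]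
    exact Finset.sum_le_sum fun v hv => Cou_N v (hn v hv)
  have hpt : ∀ z, (if N z = 0 then 1 else 0) + N z ≤ 1 + if z ∈ D then 2 else 0 := by
    intro z
    have h2 := hN3 z
    have h3 := hN1 z
    split_ifs with h4 h5 h5
    · omega
    · omega
    · omega
    · have := h3 h5
      omega
  have hz : (Finset.univ.filter fun z : ZMod p × ZMod p =>
      ∀ v ∈ B, v.2.2 * (z.1 * z.2) - v.1 * (z.1 + z.2) - v.2.1 ≠ 0).card =
      ∑ z, if N z = 0 then 1 else 0 := by
    rw [Finset.card_filter]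
    refine Finset.sum_congr rfl fun z _ => ?_
    have h2 : (∀ v ∈ B, v.2.2 * (z.1 * z.2) - v.1 * (z.1 + z.2) - v.2.1 ≠ 0) ↔ N z = 0 := by
      rw [hN]
      simp only
      rw [Finset.card_eq_zero, Finset.filter_eq_empty_iff]
    simp only [h2]
  rw [hz]
  have h2 := Finset.sum_le_sum fun z (_ : z ∈ (Finset.univ : Finset (ZMod p × ZMod p))) => hpt z
  rw [Finset.sum_add_distrib, Finset.sum_add_distrib] at h2
  have h3 : ∑ _z : ZMod p × ZMod p, 1 = p ^ 2 := by
    rw [Finset.sum_const, Finset.card_univ, Fintype.card_prod, ZMod.card, smul_eq_mul, mul_one,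
      pow_two]
  have h4 : ∑ z : ZMod p × ZMod p, (if z ∈ D then 2 else 0) = D.card * 2 := by
    rw [Finset.sum_ite_mem, Finset.univ_inter, Finset.sum_const, smul_eq_mul]
  rw [h3, h4] at h2
  have h5 : 2 * (2 * (h + 1) + 1) * p = (2 * (h + 1) + 1) * p * 2 := by ring
  rw [h5]
  omega

/-- The number of the `w` which are together with `v` on a secant or tangent line.

Proof. Let `w` be such an element and `Lf s t v = Lf s t w = 0`; by `iv_iff` `t = iv v s`. If `s ≠
t` and both are in `A` then `v`, `w` contradict `h1`. So `s = iv v s`, or `s ∉ A` or `t ∉ A`, and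
by symmetry (`Lf s t = Lf t s`) we may assume `s ∉ A` in the last case. So `w` is in the plane of
`Lf s (iv v s)` for a fixed point `s` of `iv v` (at most two, `mob_fix`: `iv v ≠ 1`, because a
matrix `mv v` is not scalar; or directly: the fixed points are the zeros of `Lf s s v`, a form of
degree two in `hx s`) or for one of the at most `h + 1` points `s ∉ A`. Every such plane contains
`v` and at most two other elements of `B`. -/
theorem card_sec (B : Finset (Vc p)) (hn : ∀ v ∈ B, nq v ≠ 0) (hP : Pl 3 B)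
    (A : Finset (PL p)) (h : ℕ) (hA : p ≤ A.card + h)
    (h1 : ∀ s ∈ A, ∀ t ∈ A, s ≠ t → (B.filter fun v => Lf s t v = 0).card ≤ 1) {v : Vc p}
    (hv : v ∈ B) [DecidablePred fun w => w ≠ v ∧ ∃ s t : PL p, Lf s t v = 0 ∧ Lf s t w = 0] :
    (B.filter fun w => w ≠ v ∧ ∃ s t : PL p, Lf s t v = 0 ∧ Lf s t w = 0).card ≤
      2 * (h + 3) := by
  classical
  by_cases hp2 : p = 2
  · subst hp2
    have h2 : B.card ≤ 4 := (Finset.card_le_card (fun w hw =>
      Finset.mem_filter.2 ⟨Finset.mem_univ _, hn w hw⟩)).trans Cou_two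
    refine (Finset.card_le_card (Finset.filter_subset _ _)).trans ?_
    omega
  have hvn := hn v hv
  have hF : (Finset.univ.filter fun s : PL p => iv v s = s).card ≤ 2 := by
    by_contra hlt
    push Not at hlt
    obtain ⟨a, b, c, ha, hb, hc, hab, hac, hbc⟩ := Finset.two_lt_card_iff.1 hlt
    have h2 := Pool.Agent.MP193G.mob_fix (Pool.Agent.MP193G.iv_mem v) hab hac hbc
      (Finset.mem_filter.1 ha).2 (Finset.mem_filter.1 hb).2 (Finset.mem_filter.1 hc).2
    have h3 : ∀ s : PL p, Lf s s v = 0 := fun s =>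
      (Pool.Agent.MP193G.iv_iff hvn s s).1 (by rw [h2]; rfl)
    have h4 := h3 (OnePoint.infty : PL p)
    have h5 := h3 ((0 : ZMod p) : PL p)
    have h6 := h3 ((1 : ZMod p) : PL p)
    rw [Cou_Lf] at h5 h6
    have e1 : hx (OnePoint.infty : PL p) = (1, 0) := rfl
    unfold Lf at h4
    rw [e1] at h4
    have hc0 : v.2.2 = 0 := by linear_combination -h4
    have hb0 : v.2.1 = 0 := by linear_combination h5
    rw [hc0, hb0] at h6
    have ha0 : v.1 ≠ 0 := by
      intro h7
      apply hvn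
      unfold nq
      rw [h7, hb0]
      ring
    have h8 : (2 : ZMod p) * v.1 = 0 := by linear_combination h6
    have h9 : (2 : ZMod p) = 0 := (mul_eq_zero.1 h8).resolve_right ha0
    have h10 : ((2 : ℕ) : ZMod p) = 0 := by exact_mod_cast h9
    rw [ZMod.natCast_eq_zero_iff] at h10
    exact hp2 ((Nat.prime_dvd_prime_iff_eq Fact.out Nat.prime_two).1 h10)
  have hsub : (B.filter fun w => w ≠ v ∧ ∃ s t : PL p, Lf s t v = 0 ∧ Lf s t w = 0) ⊆
      ((Finset.univ.filter fun s : PL p => iv v s = s) ∪ Aᶜ).biUnion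
        (fun s => (B.filter fun w => Lf s (iv v s) w = 0).erase v) := by
    intro w hw
    rw [Finset.mem_filter] at hw
    obtain ⟨hwB, hwv, s, t, hsv, hsw⟩ := hw
    have ht : iv v s = t := (Pool.Agent.MP193G.iv_iff hvn s t).2 hsv
    have hs : iv v t = s := (Pool.Agent.MP193G.iv_iff hvn t s).2 (by rw [Cou_sym]; exact hsv)
    rw [Finset.mem_biUnion]
    by_cases hsA : s ∈ A
    · by_cases htA : t ∈ A
      · by_cases hst : s = t
        · refine ⟨s, Finset.mem_union_left _ (Finset.mem_filter.2 ⟨Finset.mem_univ _, ?_⟩),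
            Finset.mem_erase.2 ⟨hwv, Finset.mem_filter.2 ⟨hwB, ?_⟩⟩⟩
          · rw [ht, hst]
          · rw [ht]
            exact hsw
        · exfalso
          have h2 := h1 s hsA t htA hst
          exact hwv (Finset.card_le_one.1 h2 w (Finset.mem_filter.2 ⟨hwB, hsw⟩) v
            (Finset.mem_filter.2 ⟨hv, hsv⟩))
      · refine ⟨t, Finset.mem_union_right _ (Finset.mem_compl.2 htA),
          Finset.mem_erase.2 ⟨hwv, Finset.mem_filter.2 ⟨hwB, ?_⟩⟩⟩
        rw [hs, Cou_sym]
        exact hsw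
    · refine ⟨s, Finset.mem_union_right _ (Finset.mem_compl.2 hsA),
        Finset.mem_erase.2 ⟨hwv, Finset.mem_filter.2 ⟨hwB, ?_⟩⟩⟩
      rw [ht]
      exact hsw
  have h3 : ∀ s ∈ ((Finset.univ.filter fun s : PL p => iv v s = s) ∪ Aᶜ),
      ((B.filter fun w => Lf s (iv v s) w = 0).erase v).card ≤ 2 := by
    intro s _
    have hvs : v ∈ B.filter fun w => Lf s (iv v s) w = 0 :=
      Finset.mem_filter.2 ⟨hv, (Pool.Agent.MP193G.iv_iff hvn s _).1 rfl⟩
    rw [Finset.card_erase_of_mem hvs]
    obtain ⟨l, hl, hlv⟩ := Pool.Agent.MP193G.Lf_lin s (iv v s)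
    have h4 := hP l hl
    simp_rw [← hlv] at h4
    omega
  have h4 := Finset.card_union_le (Finset.univ.filter fun s : PL p => iv v s = s) Aᶜ
  have h5 := Cou_compl A h hA
  have h6 := Finset.sum_le_card_nsmul _ _ 2 h3
  rw [smul_eq_mul] at h6
  have h7 := (Finset.card_le_card hsub).trans (Finset.card_biUnion_le.trans h6)
  refine h7.trans ?_
  omega

end Pool.Agent.MP193S
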