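import Mathlib
import Pool.Agent.Lib.MP_193dd3_co_S.Tco

/-!
# MP_193dd3_co, project S: the two types of lines
-/

set_option autoImplicit false

open Polynomial
open Pool.Agent.MP193G (Vc nq Lf Pl iv hx lin)

namespace Pool.Agent.MP193S

variable {p : ℕ} [Fact p.Prime] (K : Type) [Field K] [DecidableEq K] [Algebra (ZMod p) K]
  [CharP K p] [IsAlgClosed K]

omit [DecidableEq K] [Algebra (ZMod p) K] [CharP K p] [IsAlgClosed K] in
private theorem Typ_indep {v w : Vc p} (hvw : ∀ k : ZMod p, w ≠ k • v) (hv : nq v ≠ 0)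
    (h1 : v.2.1 * w.2.2 - v.2.2 * w.2.1 = 0) (h2 : v.2.2 * w.1 - v.1 * w.2.2 = 0)
    (h3 : v.1 * w.2.1 - v.2.1 * w.1 = 0) : False := by
  obtain ⟨a, b, c⟩ := v
  obtain ⟨a', b', c'⟩ := w
  simp only at h1 h2 h3
  by_cases ha : a = 0
  · by_cases hb : b = 0
    · apply hv
      simp [nq, ha, hb]
    · apply hvw (b' / b)
      ext
      · simp only [Prod.smul_mk, smul_eq_mul]
        field_simp
        linear_combination (-1 : ZMod p) * h3
      · simp only [Prod.smul_mk, smul_eq_mul]
        field_simp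
      · simp only [Prod.smul_mk, smul_eq_mul]
        field_simp
        linear_combination h1
  · apply hvw (a' / a)
    ext
    · simp only [Prod.smul_mk, smul_eq_mul]
      field_simp
    · simp only [Prod.smul_mk, smul_eq_mul]
      field_simp
      linear_combination h3
    · simp only [Prod.smul_mk, smul_eq_mul]
      field_simp
      linear_combination (-1 : ZMod p) * h2

omit [DecidableEq K] [IsAlgClosed K] in
private theorem Typ_fix {s : K} (h : s ^ p = s) : ∃ x : ZMod p, algebraMap (ZMod p) K x = s := by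
  have h1 : s ∈ (⊥ : Subfield K) := (Subfield.mem_bot_iff_pow_eq_self K p).2 h
  rw [← ZMod.fieldRange_castHom_eq_bot p] at h1
  obtain ⟨x, hx⟩ := h1
  refine ⟨x, ?_⟩
  rw [← hx]
  exact congrArg (fun f : ZMod p →+* K => f x) (Subsingleton.elim _ _)

/-- The line through `v` and `w` meets the conic in points of the projective line over `ZMod p` or
in two conjugate points.

Proof. Let `l ≠ 0` be the vector product of `v` and `w`: `lin l v = lin l w = 0`. The binary
quadratic form `q(x, y) = l.2.1 x² - l.1 x y - l.2.2 y²` is not zero. (1) If it has a zero `hx s`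
over `ZMod p` then it is a product of two linear forms over `ZMod p` and it has a second zero `hx
t` (`t = s` for a double zero), and `l` is a multiple of the functional `Lf s t` (coefficients `(x
x'.., ..)`: `Lf s t v = v.1 (s1 t2 + s2 t1) + v.2.1 s2 t2 - v.2.2 s1 t1`, the form `(x s2 - y
s1)(x t2 - y t1) = x² s2 t2 - x y (s2 t1 + s1 t2) + y² s1 t1`). (2) Otherwise `l.2.1 ≠ 0`, and the
polynomial `l.2.1 X² - l.1 X - l.2.2` has a root `s ∈ K` which is not in the image of `ZMod p`, so
`s ^ p ≠ s` (the roots of `X ^ p - X` are the elements of the image). As the coefficients are in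
`ZMod p`, `s ^ p` is the other root and `s ^ (p ^ 2)` is a root which is not `s ^ p`, so it is
`s`: `s ∈ irr`. And `s + s ^ p = l.1/l.2.1`, `s * s ^ p = - l.2.2/l.2.1`, so `Ls v s (s ^ p) = -
(v.2.1 l.2.1 + v.1 l.1 + v.2.2 l.2.2)/l.2.1 = 0`. -/
theorem two_types {v w : Vc p} (hvw : ∀ k : ZMod p, w ≠ k • v) (hv : nq v ≠ 0) :
    (∃ s t : PL p, Lf s t v = 0 ∧ Lf s t w = 0) ∨
      ∃ s ∈ irr p K, Ls v s (s ^ p) = 0 ∧ Ls w s (s ^ p) = 0 := by
  classical
  have hLf : ∀ (s t : PL p) (u : Vc p), Lf s t u = u.1 * ((hx s).1 * (hx t).2 +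
      (hx s).2 * (hx t).1) + u.2.1 * ((hx s).2 * (hx t).2) - u.2.2 * ((hx s).1 * (hx t).1) :=
    fun _ _ _ => rfl
  have hinf : hx (OnePoint.infty : PL p) = ((1 : ZMod p), (0 : ZMod p)) := rfl
  have hfin : ∀ x : ZMod p, hx ((x : ZMod p) : PL p) = (x, 1) := fun _ => rfl
  set l1 : ZMod p := v.2.1 * w.2.2 - v.2.2 * w.2.1 with hl1
  set l2 : ZMod p := v.2.2 * w.1 - v.1 * w.2.2 with hl2
  set l3 : ZMod p := v.1 * w.2.1 - v.2.1 * w.1 with hl3
  have ev : l1 * v.1 + l2 * v.2.1 + l3 * v.2.2 = 0 := by rw [hl1, hl2, hl3]; ring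
  have ew : l1 * w.1 + l2 * w.2.1 + l3 * w.2.2 = 0 := by rw [hl1, hl2, hl3]; ring
  have hl : ¬ (l1 = 0 ∧ l2 = 0 ∧ l3 = 0) := by
    rintro ⟨h1, h2, h3⟩
    exact Typ_indep hvw hv h1 h2 h3
  by_cases h2 : l2 = 0
  · left
    by_cases h1 : l1 = 0
    · have h3 : l3 ≠ 0 := fun h3 => hl ⟨h1, h2, h3⟩
      refine ⟨OnePoint.infty, OnePoint.infty, ?_, ?_⟩
      · rw [h1, h2] at ev
        have : v.2.2 = 0 := by
          rcases mul_eq_zero.1 (by linear_combination ev : l3 * v.2.2 = 0) with h | h
          · exact absurd h h3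
          · exact h
        rw [hLf, hinf, this]
        ring
      · rw [h1, h2] at ew
        have : w.2.2 = 0 := by
          rcases mul_eq_zero.1 (by linear_combination ew : l3 * w.2.2 = 0) with h | h
          · exact absurd h h3
          · exact h
        rw [hLf, hinf, this]
        ring
    · refine ⟨OnePoint.infty, ((-l3 / l1 : ZMod p) : PL p), ?_, ?_⟩
      · rw [hLf, hinf, hfin]
        rw [h2] at ev
        field_simp
        linear_combination ev
      · rw [hLf, hinf, hfin]
        rw [h2] at ew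
        field_simp
        linear_combination ew
  by_cases hroot : ∃ x : ZMod p, l2 * x ^ 2 - l1 * x - l3 = 0
  · left
    obtain ⟨x, hxr⟩ := hroot
    have hgen : ∀ u : Vc p, l1 * u.1 + l2 * u.2.1 + l3 * u.2.2 = 0 →
        Lf ((x : ZMod p) : PL p) ((l1 / l2 - x : ZMod p) : PL p) u = 0 := by
      intro u hu
      rw [hLf, hfin, hfin]
      have e1 : l2 * (l1 / l2) = l1 := mul_div_cancel₀ l1 h2
      have e2 : l2 * (u.1 * (x * 1 + 1 * (l1 / l2 - x)) + u.2.1 * (1 * 1) -
          u.2.2 * (x * (l1 / l2 - x))) = 0 := by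
        linear_combination hu + (u.1 - u.2.2 * x) * e1 + u.2.2 * hxr
      rcases mul_eq_zero.1 e2 with h | h
      · exact absurd h h2
      · exact h
    exact ⟨_, _, hgen v ev, hgen w ew⟩
  · right
    set A := algebraMap (ZMod p) K with hA
    have hA2 : A l2 ≠ 0 := by
      rw [Ne, map_eq_zero]
      exact h2
    have hpA : ∀ c : ZMod p, A c ^ p = A c := by
      intro c
      rw [← map_pow, ZMod.pow_card]
    obtain ⟨s, hs⟩ : ∃ s : K, A l2 * s ^ 2 - A l1 * s - A l3 = 0 := by
      have hdeg : (C (A l2) * X ^ 2 + C (-A l1) * X + C (-A l3) : K[X]).degree ≠ 0 := by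
        rw [degree_quadratic hA2]
        norm_num
      obtain ⟨s, hs⟩ := IsAlgClosed.exists_root _ hdeg
      refine ⟨s, ?_⟩
      simp only [IsRoot.def, eval_add, eval_mul, eval_C, eval_pow, eval_X] at hs
      linear_combination hs
    have hfrob : ∀ r : K, A l2 * r ^ 2 - A l1 * r - A l3 = 0 →
        A l2 * (r ^ p) ^ 2 - A l1 * r ^ p - A l3 = 0 := by
      intro r hr
      have h := congrArg (frobenius K p) hr
      rw [map_sub, map_sub, map_mul, map_mul, map_zero] at h
      simp only [frobenius_def] at h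
      rw [hpA, hpA, hpA, ← pow_mul, mul_comm 2 p, pow_mul] at h
      exact h
    have hne : s ^ p ≠ s := by
      intro h
      obtain ⟨x, rfl⟩ := Typ_fix K h
      apply hroot
      refine ⟨x, ?_⟩
      apply (algebraMap (ZMod p) K).injective
      rw [map_zero, map_sub, map_sub, map_mul, map_mul, map_pow]
      exact hs
    have hs1 := hfrob s hs
    have hs2 := hfrob (s ^ p) hs1
    have hsum : ∀ r r' : K, r ≠ r' → A l2 * r ^ 2 - A l1 * r - A l3 = 0 →
        A l2 * r' ^ 2 - A l1 * r' - A l3 = 0 → A l2 * (r + r') = A l1 := by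
      intro r r' hrr h h'
      have h3 : (r - r') * (A l2 * (r + r') - A l1) = 0 := by linear_combination h - h'
      rcases mul_eq_zero.1 h3 with h4 | h4
      · exact absurd (sub_eq_zero.1 h4) hrr
      · exact sub_eq_zero.1 h4
    have hne2 : (s ^ p) ^ p ≠ s ^ p := by
      intro h
      apply hne
      exact frobenius_inj K p (by simpa only [frobenius_def] using h)
    have e1 := hsum (s ^ p) s hne hs1 hs
    have e2 := hsum ((s ^ p) ^ p) (s ^ p) hne2 hs2 hs1
    have e3 : (s ^ p) ^ p = s := by
      have h3 : A l2 * ((s ^ p) ^ p - s) = 0 := by linear_combination e2 - e1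
      rcases mul_eq_zero.1 h3 with h4 | h4
      · exact absurd h4 hA2
      · exact sub_eq_zero.1 h4
    have hirr : s ∈ irr p K := by
      rw [mem_irr]
      refine ⟨?_, hne⟩
      rw [sq, pow_mul]
      exact e3
    have hgen : ∀ u : Vc p, l1 * u.1 + l2 * u.2.1 + l3 * u.2.2 = 0 → Ls u s (s ^ p) = 0 := by
      intro u hu
      have h5 := congrArg A hu
      rw [map_add, map_add, map_mul, map_mul, map_mul, map_zero] at h5
      have h6 : A l2 * Ls u s (s ^ p) = 0 := by
        rw [Ls]
        linear_combination (-1 : K) * h5 - (A u.2.2 * s + A u.1) * e1 * 0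
          + (A u.2.2 * s - A u.1) * e1 - A u.2.2 * hs
      rcases mul_eq_zero.1 h6 with h4 | h4
      · exact absurd h4 hA2
      · exact h4
    exact ⟨s, hirr, hgen v ev, hgen w ew⟩

/-- The number of the elements of degree two on the curve of `v`. Proof: they are roots of the
polynomial `lam v * X ^ p - mu v ≠ 0` of degree at most `p + 1`. -/
theorem card_irr {v : Vc p} (hv : nq v ≠ 0) :
    ((irr p K).filter fun s => Ls v s (s ^ p) = 0).card ≤ p + 1 := by
  have hp := (Fact.out : p.Prime).two_le
  set a := algebraMap (ZMod p) K v.1 with ha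
  set b := algebraMap (ZMod p) K v.2.1 with hb
  set c := algebraMap (ZMod p) K v.2.2 with hc
  set f : K[X] := lam K v * X ^ p - mu K v with hf
  have hcoef : ∀ n, f.coeff n =
      (C c * X ^ (p + 1) - C a * X ^ p - C a * X - C b : K[X]).coeff n := by
    intro n
    congr 1
    rw [hf, lam, mu]
    ring
  have hf0 : f ≠ 0 := by
    intro h0
    have h1 := hcoef (p + 1)
    have h2 := hcoef p
    rw [h0] at h1 h2
    simp only [coeff_zero, coeff_sub, coeff_C_mul, coeff_X_pow, coeff_X, coeff_C] at h1 h2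
    rw [if_pos trivial, if_neg (by omega), if_neg (by omega), if_neg (by omega)] at h1
    rw [if_neg (by omega), if_pos trivial, if_neg (by omega), if_neg (by omega)] at h2
    have hc0 : c = 0 := by linear_combination (-1 : K) * h1
    have ha0 : a = 0 := by linear_combination h2
    rw [hc, map_eq_zero] at hc0
    rw [ha, map_eq_zero] at ha0
    apply hv
    simp [nq, ha0, hc0]
  have hdeg : f.natDegree ≤ p + 1 := by
    rw [natDegree_le_iff_coeff_eq_zero]
    intro n hn
    rw [hcoef]
    simp only [coeff_sub, coeff_C_mul, coeff_X_pow, coeff_X, coeff_C]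
    rw [if_neg (by omega), if_neg (by omega), if_neg (by omega), if_neg (by omega)]
    ring
  have hsub : ((irr p K).filter fun s => Ls v s (s ^ p) = 0) ⊆ f.roots.toFinset := by
    intro s hs
    rw [Finset.mem_filter] at hs
    rw [Multiset.mem_toFinset, mem_roots hf0, IsRoot.def, hf, eval_sub, eval_mul, eval_pow, eval_X,
      mu_eq K hs.2]
    ring
  calc _ ≤ f.roots.toFinset.card := Finset.card_le_card hsub
    _ ≤ Multiset.card f.roots := Multiset.toFinset_card_le _
    _ ≤ f.natDegree := card_roots' f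
    _ ≤ p + 1 := hdeg

end Pool.Agent.MP193S
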