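import Mathlib
import Pool.Agent.Lib.MP_193dd3_co_S.Typ
import Pool.Agent.Lib.MP_193dd3_co_S.Cou

/-!
# MP_193dd3_co, project S: almost all lines without points of the conic contain three points
-/

set_option autoImplicit false

open Polynomial
open Pool.Agent.MP193G (Vc nq Lf Pl iv hx lin)

namespace Pool.Agent.MP193S

variable {p : ℕ} [Fact p.Prime] (K : Type) [Field K] [DecidableEq K] [Algebra (ZMod p) K]
  [CharP K p] [IsAlgClosed K]

omit [CharP K p] [IsAlgClosed K] in
private theorem ext_fix {x : K} (hx : x ^ p = x) : ∃ y : ZMod p, algebraMap (ZMod p) K y = x := by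
  classical
  have hp := (Fact.out : p.Prime)
  by_contra hcon
  push Not at hcon
  have hinj : Function.Injective (algebraMap (ZMod p) K) := (algebraMap (ZMod p) K).injective
  have hP : (X ^ p - X : K[X]) ≠ 0 := by
    intro h
    have h1 := congrArg (fun f : K[X] => f.coeff p) h
    rw [coeff_sub, coeff_X_pow, if_pos rfl, coeff_X, if_neg hp.one_lt.ne, sub_zero,
      coeff_zero] at h1
    exact one_ne_zero h1
  have hdeg : (X ^ p - X : K[X]).natDegree ≤ p := by
    refine (natDegree_sub_le _ _).trans (max_le ?_ ?_)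
    · exact (natDegree_X_pow p).le
    · exact natDegree_X_le.trans hp.one_lt.le
  have hsub : insert x (Finset.univ.image (algebraMap (ZMod p) K)) ⊆
      (X ^ p - X : K[X]).roots.toFinset := by
    intro y hy
    rw [Multiset.mem_toFinset, mem_roots hP, IsRoot.def, eval_sub, eval_pow, eval_X, sub_eq_zero]
    rcases Finset.mem_insert.1 hy with rfl | hy
    · exact hx
    · obtain ⟨z, _, rfl⟩ := Finset.mem_image.1 hy
      rw [← map_pow, ZMod.pow_card]
  have hcard := Finset.card_le_card hsub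
  rw [Finset.card_insert_of_notMem (by
    intro h
    obtain ⟨z, _, hz⟩ := Finset.mem_image.1 h
    exact hcon z hz), Finset.card_image_of_injective _ hinj, Finset.card_univ, ZMod.card] at hcard
  have h2 := (Multiset.toFinset_card_le (X ^ p - X : K[X]).roots).trans
    ((card_roots' (X ^ p - X : K[X])).trans hdeg)
  omega

omit [IsAlgClosed K] in
private theorem ext_lin {s : K} (hs : s ∈ irr p K) :
    ∃ l : Vc p, l ≠ 0 ∧ ∀ w : Vc p, Ls w s (s ^ p) = 0 ↔ lin l w = 0 := by
  obtain ⟨h1, h2⟩ := (mem_irr K).1 hs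
  have h3 : (s ^ p) ^ p = s := by
    rw [← pow_mul, ← sq, h1]
  obtain ⟨e, he⟩ := ext_fix (p := p) K (x := s + s ^ p) (by
    rw [add_pow_char, h3, add_comm])
  obtain ⟨f, hf⟩ := ext_fix (p := p) K (x := s * s ^ p) (by
    rw [mul_pow, h3, mul_comm])
  refine ⟨(-e, -1, f), ?_, fun w => ?_⟩
  · intro h
    have h4 : (-1 : ZMod p) = 0 := congrArg (fun v : Vc p => v.2.1) h
    exact one_ne_zero (neg_eq_zero.1 h4)
  · have h5 : Ls w s (s ^ p) = algebraMap (ZMod p) K (lin (-e, -1, f) w) := by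
      unfold Ls lin
      rw [← he, ← hf]
      simp only [map_add, map_mul, map_neg, map_one]
      ring
    rw [h5, map_eq_zero_iff _ (algebraMap (ZMod p) K).injective]

private theorem ext_three {B : Finset (Vc p)} (hP : Pl 3 B) {s : K} (hs : s ∈ irr p K) :
    (B.filter fun w => Ls w s (s ^ p) = 0).card ≤ 3 := by
  obtain ⟨l, hl, h⟩ := ext_lin K hs
  refine le_trans (Finset.card_le_card ?_) (hP l hl)
  intro w hw
  rw [Finset.mem_filter] at hw ⊢
  exact ⟨hw.1, (h w).1 hw.2⟩

omit [IsAlgClosed K] in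
private theorem ext_conj {s : K} (hs : s ∈ irr p K) {w : Vc p} (hw : Ls w s (s ^ p) = 0) :
    Ls w (s ^ p) ((s ^ p) ^ p) = 0 := by
  rw [(irr_pow K hs).2]
  rw [← hw]
  unfold Ls
  ring

omit [CharP K p] [IsAlgClosed K] in
private theorem ext_mem_Tv {B : Finset (Vc p)} {v : Vc p} {s : K} :
    s ∈ Tv K B v ↔ s ∈ irr p K ∧ (B.filter fun w => Ls w s (s ^ p) = 0).card = 3 ∧
      Ls v s (s ^ p) = 0 := by
  unfold Tv Tt
  rw [Finset.mem_filter, Finset.mem_filter, and_assoc]

open scoped Classical in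
/-- The vectors which are not together with `v` on a secant or tangent line. -/
private noncomputable def ext_W (B : Finset (Vc p)) (v : Vc p) : Finset (Vc p) :=
  B.filter fun w => w ≠ v ∧ ¬ ∃ s t : PL p, Lf s t v = 0 ∧ Lf s t w = 0

private theorem ext_second {B : Finset (Vc p)} (hn : ∀ v ∈ B, nq v ≠ 0) (hB : Np B) {v w : Vc p}
    (hv : v ∈ B) (hw : w ∈ ext_W B v) :
    ∃ s ∈ irr p K, Ls v s (s ^ p) = 0 ∧ Ls w s (s ^ p) = 0 := by
  classical
  unfold ext_W at hw
  rw [Finset.mem_filter] at hw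
  obtain ⟨hwB, hwv, hno⟩ := hw
  rcases two_types K (v := v) (w := w) (fun k hk => hwv (hB v hv w hwB k hk)) (hn v hv) with h | h
  · exact absurd h hno
  · exact h

/-- Proof. Let `Rv = {s ∈ irr : Ls v s (s ^ p) = 0}`, `|Rv| ≤ p + 1` (`card_irr`), and for `s ∈
Rv` let `N(s)` be the number of the `w ∈ B` with `Ls w s (s ^ p) = 0`; `1 ≤ N(s) ≤ 3` (`Pl 3 B`:
`Ls w s (s ^ p) = 0` is a linear condition over `ZMod p` for `w`, because `s + s ^ p` and `s * s ^
p` are in the image of `ZMod p`), and `N(s) = 3` means `s ∈ Tv B v`. By `two_types` and `card_sec`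
at least `|B| - 1 - 2 (h + 3)` of the `w ≠ v` in `B` are of the second type (`Np` implies that
they are not multiples of `v`), and for each of them there are at least two `s ∈ Rv` with `Ls w s
(s ^ p) = 0` (`s` and `s ^ p`). So `2 (|B| - 1 - 2 (h + 3)) ≤ ∑_{s ∈ Rv} (N(s) - 1) ≤ |Rv| + |Tv B
v|`. -/
theorem Tv_large (B : Finset (Vc p)) (hn : ∀ v ∈ B, nq v ≠ 0) (hB : Np B) (hP : Pl 3 B)
    (A : Finset (PL p)) (h : ℕ) (hA : p ≤ A.card + h)
    (h1 : ∀ s ∈ A, ∀ t ∈ A, s ≠ t → (B.filter fun v => Lf s t v = 0).card ≤ 1) {v : Vc p}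
    (hv : v ∈ B) : 2 * B.card ≤ (Tv K B v).card + p + 4 * h + 15 := by
  classical
  have hsec := card_sec B hn hP A h hA h1 hv
  have hirr := card_irr K (hn v hv)
  set R : Finset K := (irr p K).filter fun s => Ls v s (s ^ p) = 0 with hR
  set W := ext_W B v with hW
  -- the number of the elements of the second type
  have hcW : B.card ≤ W.card + 1 + 2 * (h + 3) := by
    have hsub : B ⊆ (W ∪ {v}) ∪
        (B.filter fun w => w ≠ v ∧ ∃ s t : PL p, Lf s t v = 0 ∧ Lf s t w = 0) := by
      intro w hw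
      rw [Finset.mem_union, Finset.mem_union, Finset.mem_singleton, Finset.mem_filter]
      by_cases h2 : w = v
      · exact Or.inl (Or.inr h2)
      · by_cases h3 : ∃ s t : PL p, Lf s t v = 0 ∧ Lf s t w = 0
        · exact Or.inr ⟨hw, h2, h3⟩
        · refine Or.inl (Or.inl ?_)
          rw [hW]
          unfold ext_W
          rw [Finset.mem_filter]
          exact ⟨hw, h2, h3⟩
    have h2 := Finset.card_le_card hsub
    have h3 := Finset.card_union_le (W ∪ {v})
      (B.filter fun w => w ≠ v ∧ ∃ s t : PL p, Lf s t v = 0 ∧ Lf s t w = 0)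
    have h4 := Finset.card_union_le W {v}
    rw [Finset.card_singleton] at h4
    omega
  -- double counting
  have hlow : ∀ w ∈ W, 2 ≤ (R.filter fun s => Ls w s (s ^ p) = 0).card := by
    intro w hw
    obtain ⟨s, hs, hvs, hws⟩ := ext_second K hn hB hv hw
    have hs' := irr_pow K hs
    have hne : s ^ p ≠ s := ((mem_irr K).1 hs).2
    have hsub : ({s, s ^ p} : Finset K) ⊆ R.filter fun s => Ls w s (s ^ p) = 0 := by
      intro t ht
      rw [Finset.mem_insert, Finset.mem_singleton] at ht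
      rw [Finset.mem_filter, hR, Finset.mem_filter]
      rcases ht with rfl | rfl
      · exact ⟨⟨hs, hvs⟩, hws⟩
      · exact ⟨⟨hs'.1, ext_conj K hs hvs⟩, ext_conj K hs hws⟩
    have h2 := Finset.card_le_card hsub
    rwa [Finset.card_pair hne.symm] at h2
  have hup : ∀ s ∈ R, (W.filter fun w => Ls w s (s ^ p) = 0).card ≤
      1 + if s ∈ Tv K B v then 1 else 0 := by
    intro s hs
    rw [hR, Finset.mem_filter] at hs
    have hN := ext_three K hP hs.1
    have hsub : insert v (W.filter fun w => Ls w s (s ^ p) = 0) ⊆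
        B.filter fun w => Ls w s (s ^ p) = 0 := by
      intro w hw
      rw [Finset.mem_filter]
      rcases Finset.mem_insert.1 hw with rfl | hw
      · exact ⟨hv, hs.2⟩
      · rw [Finset.mem_filter] at hw
        have h2 := hw.1
        rw [hW] at h2
        unfold ext_W at h2
        exact ⟨(Finset.mem_filter.1 h2).1, hw.2⟩
    have hvn : v ∉ W.filter fun w => Ls w s (s ^ p) = 0 := by
      intro hmem
      have h2 := (Finset.mem_filter.1 hmem).1
      rw [hW] at h2
      unfold ext_W at h2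
      exact (Finset.mem_filter.1 h2).2.1 rfl
    have h2 := Finset.card_le_card hsub
    rw [Finset.card_insert_of_notMem hvn] at h2
    split_ifs with hT
    · omega
    · have h3 : (B.filter fun w => Ls w s (s ^ p) = 0).card ≠ 3 := fun h3 =>
        hT ((ext_mem_Tv K).2 ⟨hs.1, h3, hs.2⟩)
      omega
  have hdc : ∑ w ∈ W, (R.filter fun s => Ls w s (s ^ p) = 0).card =
      ∑ s ∈ R, (W.filter fun w => Ls w s (s ^ p) = 0).card :=
    Finset.sum_card_bipartiteAbove_eq_sum_card_bipartiteBelow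
      (fun (w : Vc p) (s : K) => Ls w s (s ^ p) = 0)
  have hA1 : 2 * W.card ≤ ∑ w ∈ W, (R.filter fun s => Ls w s (s ^ p) = 0).card := by
    rw [mul_comm, ← smul_eq_mul]
    exact Finset.card_nsmul_le_sum _ _ _ hlow
  have hA2 : ∑ s ∈ R, (W.filter fun w => Ls w s (s ^ p) = 0).card ≤
      R.card + (Tv K B v).card := by
    refine (Finset.sum_le_sum hup).trans ?_
    rw [Finset.sum_add_distrib, Finset.sum_const, smul_eq_mul, mul_one, ← Finset.card_filter]
    refine Nat.add_le_add_left (Finset.card_le_card ?_) _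
    intro s hs
    exact (Finset.mem_filter.1 hs).2
  omega

/-- Proof. Let `w ≠ v` with `|Tv B v ∩ Tv B w| < 2`. Either `w` is of the first type in
`two_types` (at most `2 (h + 3)` elements, `card_sec`). Or there is `s ∈ Rv` with `Ls w s (s ^ p)
= 0`; `s ∉ Tv B v`, otherwise `s` and `s ^ p ≠ s` are in `Tv B v ∩ Tv B w`; so `N(s) = 2`
(notation of `Tv_large`) and `w` is determined by `s`. So there are at most `|Rv \ Tv B v| ≤ p + 1
- |Tv B v|` such `w`. -/
theorem partner (B : Finset (Vc p)) (hn : ∀ v ∈ B, nq v ≠ 0) (hB : Np B) (hP : Pl 3 B)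
    (A : Finset (PL p)) (h : ℕ) (hA : p ≤ A.card + h)
    (h1 : ∀ s ∈ A, ∀ t ∈ A, s ≠ t → (B.filter fun v => Lf s t v = 0).card ≤ 1) {v : Vc p}
    (hv : v ∈ B) : (B.filter fun w => w ≠ v ∧ (Tv K B v ∩ Tv K B w).card < 2).card
      + (Tv K B v).card ≤ 2 * (h + 3) + (p + 1) := by
  classical
  have hsec := card_sec B hn hP A h hA h1 hv
  have hirr := card_irr K (hn v hv)
  set R : Finset K := (irr p K).filter fun s => Ls v s (s ^ p) = 0 with hR
  set F := B.filter fun w => w ≠ v ∧ (Tv K B v ∩ Tv K B w).card < 2 with hF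
  set S := B.filter fun w => w ≠ v ∧ ∃ s t : PL p, Lf s t v = 0 ∧ Lf s t w = 0 with hS
  have hTR : Tv K B v ⊆ R := by
    intro s hs
    have h2 := (ext_mem_Tv K).1 hs
    rw [hR, Finset.mem_filter]
    exact ⟨h2.1, h2.2.2⟩
  have hsd : (R \ Tv K B v).card + (Tv K B v).card = R.card :=
    Finset.card_sdiff_add_card_eq_card hTR
  have hFW : F \ S ⊆ ext_W B v := by
    intro w hw
    rw [Finset.mem_sdiff, hF, hS, Finset.mem_filter, Finset.mem_filter] at hw
    unfold ext_W
    rw [Finset.mem_filter]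
    exact ⟨hw.1.1, hw.1.2.1, fun h2 => hw.2 ⟨hw.1.1, hw.1.2.1, h2⟩⟩
  have hex : ∀ w ∈ F \ S, ∃ s, s ∈ R \ Tv K B v ∧ Ls w s (s ^ p) = 0 := by
    intro w hw
    obtain ⟨s, hs, hvs, hws⟩ := ext_second K hn hB hv (hFW hw)
    refine ⟨s, ?_, hws⟩
    rw [Finset.mem_sdiff, hR, Finset.mem_filter]
    refine ⟨⟨hs, hvs⟩, fun hT => ?_⟩
    have hTw : s ∈ Tv K B w := (ext_mem_Tv K).2 ⟨hs, ((ext_mem_Tv K).1 hT).2.1, hws⟩
    have hne : s ^ p ≠ s := ((mem_irr K).1 hs).2
    have hsub : ({s, s ^ p} : Finset K) ⊆ Tv K B v ∩ Tv K B w := by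
      intro t ht
      rw [Finset.mem_insert, Finset.mem_singleton] at ht
      rw [Finset.mem_inter]
      rcases ht with rfl | rfl
      · exact ⟨hT, hTw⟩
      · exact ⟨Tv_pow K hT, Tv_pow K hTw⟩
    have h2 := Finset.card_le_card hsub
    rw [Finset.card_pair hne.symm] at h2
    have h3 := (Finset.mem_filter.1 (Finset.mem_sdiff.1 hw).1).2.2
    omega
  have hFS : (F \ S).card ≤ (R \ Tv K B v).card := by
    choose! f hf using hex
    refine Finset.card_le_card_of_injOn f (fun w hw => (hf w hw).1) ?_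
    intro w hw w' hw' heq
    by_contra hne
    have h2 := hf w hw
    have h3 := hf w' hw'
    rw [← heq] at h3
    have h4 := Finset.mem_sdiff.1 h2.1
    rw [hR, Finset.mem_filter] at h4
    have hwv : ∀ u ∈ F \ S, u ∈ B ∧ u ≠ v := by
      intro u hu
      have h5 := (Finset.mem_sdiff.1 hu).1
      rw [hF, Finset.mem_filter] at h5
      exact ⟨h5.1, h5.2.1⟩
    have hw1 := hwv w (Finset.mem_coe.1 hw)
    have hw2 := hwv w' (Finset.mem_coe.1 hw')
    have hN := ext_three K hP h4.1.1
    have hsub : ({v, w, w'} : Finset (Vc p)) ⊆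
        B.filter fun u => Ls u (f w) (f w ^ p) = 0 := by
      intro u hu
      rw [Finset.mem_insert, Finset.mem_insert, Finset.mem_singleton] at hu
      rw [Finset.mem_filter]
      rcases hu with rfl | rfl | rfl
      · exact ⟨hv, h4.1.2⟩
      · exact ⟨hw1.1, h2.2⟩
      · exact ⟨hw2.1, h3.2⟩
    have h5 := Finset.card_le_card hsub
    have h6 : ({v, w, w'} : Finset (Vc p)).card = 3 :=
      Finset.card_eq_three.2 ⟨v, w, w', hw1.2.symm, hw2.2.symm, hne, rfl⟩
    rw [h6] at h5
    exact h4.2 ((ext_mem_Tv K).2 ⟨h4.1.1, le_antisymm hN h5, h4.1.2⟩)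
  have h2 : F.card ≤ (F \ S).card + S.card := by
    have h3 := Finset.card_le_card_sdiff_add_card (s := F) (t := S)
    omega
  omega

end Pool.Agent.MP193S
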