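import Mathlib

/-!
# MP_193dd3_co, project S: linear algebra and choice for the gluing lemma
-/

set_option autoImplicit false

open Polynomial

namespace Pool.Agent.MP193S

/-- A linear map to the polynomials of degree at most `δ` which vanish on `Z` has rank at most
`δ + 1 - |Z|`.

Proof. The restriction of `γ` to `U` has the kernel `U ⊓ ker γ`, so it is enough to bound the rank of the
image. A polynomial of degree at most `δ` which vanishes on `Z` is a multiple of
`∏_{s ∈ Z} (X - s)`: it is zero if `|Z| > δ`, and otherwise the quotient has degree at most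
`δ - |Z|` (for example `Polynomial.degreeLT`, whose dimension is known). -/
theorem glue_step {K : Type} [Field K] [DecidableEq K] {W : Type} [AddCommGroup W] [Module K W]
    [FiniteDimensional K W] (U : Submodule K W) (γ : W →ₗ[K] K[X]) (δ : ℕ) (Z : Finset K)
    (hdeg : ∀ x ∈ U, (γ x).natDegree ≤ δ) (hz : ∀ x ∈ U, ∀ s ∈ Z, eval s (γ x) = 0) :
    Module.finrank K U ≤
      Module.finrank K (U ⊓ LinearMap.ker γ : Submodule K W) + (δ + 1 - Z.card) := by
  have h1 := LinearMap.finrank_range_add_finrank_ker (γ.domRestrict U)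
  have h2 : Module.finrank K (LinearMap.ker (γ.domRestrict U)) =
      Module.finrank K (U ⊓ LinearMap.ker γ : Submodule K W) := by
    rw [LinearMap.ker_domRestrict, (Submodule.equivSubtypeMap U _).finrank_eq,
      Submodule.map_comap_subtype]
  obtain ⟨P, hP⟩ : ∃ P : K[X], P = ∏ s ∈ Z, (X - C s) := ⟨_, rfl⟩
  have hPm : P.Monic := by
    rw [hP]
    exact monic_prod_of_monic _ _ fun s _ => monic_X_sub_C s
  have hPd : P.natDegree = Z.card := by
    rw [hP, natDegree_prod_of_monic _ _ fun s _ => monic_X_sub_C s]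
    simp
  obtain ⟨m, hm⟩ : ∃ m, m = δ + 1 - Z.card := ⟨_, rfl⟩
  have h3 : LinearMap.range (γ.domRestrict U) ≤
      (degreeLT K m).map (LinearMap.mulLeft K P) := by
    rintro f ⟨x, rfl⟩
    have hx : γ.domRestrict U x = γ (x : W) := rfl
    rw [hx]
    by_cases h0 : γ (x : W) = 0
    · rw [h0]
      exact Submodule.zero_mem _
    · have hdvd : P ∣ γ (x : W) := by
        rw [hP]
        have h4 : Z.val ≤ (γ (x : W)).roots := by
          rw [Multiset.le_iff_subset Z.nodup]
          intro s hs
          rw [mem_roots h0]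
          exact hz _ x.2 s hs
        exact (Multiset.prod_X_sub_C_dvd_iff_le_roots h0 Z.val).2 h4
      obtain ⟨g, hg⟩ := hdvd
      have hg0 : g ≠ 0 := by
        rintro rfl
        exact h0 (by rw [hg, mul_zero])
      have hd : Z.card + g.natDegree ≤ δ := by
        have h5 := hdeg _ x.2
        rw [hg, hPm.natDegree_mul' hg0, hPd] at h5
        exact h5
      refine ⟨g, ?_, ?_⟩
      · show g ∈ degreeLT K m
        rw [mem_degreeLT, degree_eq_natDegree hg0, Nat.cast_lt, hm]
        omega
      · rw [hg]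
        rfl
  have h4 : Module.finrank K (degreeLT K m) = m := by
    rw [(degreeLTEquiv K m).finrank_eq]
    simp
  have : FiniteDimensional K (degreeLT K m) :=
    Module.Finite.equiv (degreeLTEquiv K m).symm
  have h5 : Module.finrank K (LinearMap.range (γ.domRestrict U)) ≤ m := by
    calc Module.finrank K (LinearMap.range (γ.domRestrict U))
        ≤ Module.finrank K ((degreeLT K m).map (LinearMap.mulLeft K P)) :=
          Submodule.finrank_mono h3
      _ ≤ Module.finrank K (degreeLT K m) := Submodule.finrank_map_le _ _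
      _ = m := h4
  rw [← hm]
  omega

section

variable {I K : Type} [DecidableEq I] [DecidableEq K]

private theorem glueA_m (B : Finset I) (T : I → Finset K)
    (h3 : ∀ s, (B.filter fun v => s ∈ T v).card ≤ 3) (S : Finset I) (hS : S ⊆ B) {u : I}
    (hu : u ∈ B \ S) {s : K} (hs : s ∈ T u) : (S.filter fun w => s ∈ T w).card ≤ 2 := by
  rw [Finset.mem_sdiff] at hu
  have h1 : insert u (S.filter fun w => s ∈ T w) ⊆ B.filter fun v => s ∈ T v := by
    intro v hv
    rw [Finset.mem_insert, Finset.mem_filter] at hv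
    rw [Finset.mem_filter]
    rcases hv with rfl | hv
    · exact ⟨hu.1, hs⟩
    · exact ⟨hS hv.1, hv.2⟩
  have h2 := Finset.card_le_card h1
  rw [Finset.card_insert_of_notMem (fun h => hu.2 (Finset.mem_filter.1 h).1)] at h2
  have := h3 s
  omega

private theorem glueA_sum (T : I → Finset K) (S : Finset I) (X : Finset K) :
    ∑ w ∈ S, (X ∩ T w).card = ∑ s ∈ X, (S.filter fun w => s ∈ T w).card := by
  have h1 : ∀ w, (X ∩ T w).card = ∑ s ∈ X, if s ∈ T w then 1 else 0 := fun w => by
    rw [← Finset.card_filter, Finset.filter_mem_eq_inter]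
  simp only [h1, Finset.card_filter]
  exact Finset.sum_comm

private theorem glueA_two (T : I → Finset K) (S : Finset I) (X : Finset K) :
    2 * (S.filter fun w => 2 ≤ (X ∩ T w).card).card ≤ ∑ w ∈ S, (X ∩ T w).card := by
  calc 2 * (S.filter fun w => 2 ≤ (X ∩ T w).card).card
      = ∑ w ∈ S.filter (fun w => 2 ≤ (X ∩ T w).card), 2 := by
        rw [Finset.sum_const, smul_eq_mul, mul_comm]
    _ ≤ ∑ w ∈ S.filter (fun w => 2 ≤ (X ∩ T w).card), (X ∩ T w).card :=
        Finset.sum_le_sum fun w hw => (Finset.mem_filter.1 hw).2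
    _ ≤ ∑ w ∈ S, (X ∩ T w).card :=
        Finset.sum_le_sum_of_subset (Finset.filter_subset _ _)

private theorem glueA_zero (T : I → Finset K) (S : Finset I) {s : K}
    (h : s ∉ S.biUnion T) : (S.filter fun w => s ∈ T w).card = 0 := by
  rw [Finset.card_eq_zero, Finset.filter_eq_empty_iff]
  intro w hw hs
  exact h (Finset.mem_biUnion.2 ⟨w, hw, hs⟩)

end

/-- Proof. For `u ∈ B \ S` every `s ∈ T u` is in at most two of the sets `T w`, `w ∈ S` (`h3`), so
`|T u ∩ ⋃_{w ∈ S} T w| = ∑_{w ∈ S} |T u ∩ T w| - d(u) ≥ 2 |{w ∈ S : |T u ∩ T w| ≥ 2}| - d(u)`, where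
`d(u)` is the number of the `s ∈ T u` which are in exactly two of the sets `T w`, `w ∈ S`. And
`∑_{u ∈ B \ S} d(u) ≤ ∑_{ {w, w'} ⊆ S, w ≠ w' } |T w ∩ T w'| ≤ |S|²`, because for `s ∈ T w ∩ T w'`
at most one `u ∈ B \ S` has `s ∈ T u`. So some `u` satisfies `d(u) ≤ c`: otherwise
`(c + 1) (|B| - |S|) ≤ |S|² ≤ c (|B| - |S|)`. -/
theorem glue_choice {I K : Type} [DecidableEq I] [DecidableEq K] (B : Finset I)
    (T : I → Finset K) (h2 : ∀ v ∈ B, ∀ w ∈ B, v ≠ w → (T v ∩ T w).card ≤ 2)
    (h3 : ∀ s, (B.filter fun v => s ∈ T v).card ≤ 3) (S : Finset I) (hS : S ⊆ B)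
    (hlt : S.card < B.card) (c : ℕ) (hc : S.card ^ 2 ≤ c * (B.card - S.card)) :
    ∃ u ∈ B \ S, 2 * (S.filter fun w => 2 ≤ (T u ∩ T w).card).card ≤
      (T u ∩ S.biUnion T).card + c := by
  by_contra hcon
  push Not at hcon
  obtain ⟨d, hd⟩ : ∃ d : I → ℕ, ∀ u, d u =
      ((T u).filter fun s => (S.filter fun w => s ∈ T w).card = 2).card := ⟨_, fun u => rfl⟩
  -- the inequality for one `u`
  have hA : ∀ u ∈ B \ S, c + 1 ≤ d u := by
    intro u hu
    have h4 := hcon u hu
    have h5 := glueA_two T S (T u)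
    rw [glueA_sum] at h5
    have h6 : ∑ s ∈ T u, (S.filter fun w => s ∈ T w).card ≤
        (T u ∩ S.biUnion T).card + d u := by
      rw [hd, Finset.card_filter, ← Finset.filter_mem_eq_inter, Finset.card_filter,
        ← Finset.sum_add_distrib]
      refine Finset.sum_le_sum fun s hs => ?_
      have h7 := glueA_m B T h3 S hS hu hs
      by_cases h8 : s ∈ S.biUnion T
      · rw [if_pos h8]
        split_ifs <;> omega
      · rw [glueA_zero T S h8]
        exact Nat.zero_le _
    omega
  have hcard : (B \ S).card = B.card - S.card := Finset.card_sdiff_of_subset hS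
  -- the double counting
  have hB : 2 * ∑ u ∈ B \ S, d u ≤ 2 * S.card ^ 2 := by
    have e1 : ∀ u ∈ B \ S, 2 * d u ≤
        ∑ q ∈ S.offDiag, (T u ∩ (T q.1 ∩ T q.2)).card := by
      intro u hu
      have e2 : ∀ q : I × I, (T u ∩ (T q.1 ∩ T q.2)).card =
          ∑ s ∈ T u, if s ∈ T q.1 ∩ T q.2 then 1 else 0 := fun q => by
        rw [← Finset.card_filter, Finset.filter_mem_eq_inter]
      simp only [e2]
      rw [Finset.sum_comm, hd, Finset.card_filter, Finset.mul_sum]
      refine Finset.sum_le_sum fun s hs => ?_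
      split_ifs with h7
      · rw [← Finset.card_filter]
        have h8 : (S.filter fun w => s ∈ T w).offDiag ⊆
            S.offDiag.filter fun q => s ∈ T q.1 ∩ T q.2 := by
          intro q hq
          rw [Finset.mem_offDiag, Finset.mem_filter, Finset.mem_filter] at hq
          rw [Finset.mem_filter, Finset.mem_offDiag, Finset.mem_inter]
          exact ⟨⟨hq.1.1, hq.2.1.1, hq.2.2⟩, hq.1.2, hq.2.1.2⟩
        have h9 := Finset.card_le_card h8
        rw [Finset.offDiag_card, h7] at h9
        omega
      · omega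
    calc 2 * ∑ u ∈ B \ S, d u = ∑ u ∈ B \ S, 2 * d u := Finset.mul_sum _ _ _
      _ ≤ ∑ u ∈ B \ S, ∑ q ∈ S.offDiag, (T u ∩ (T q.1 ∩ T q.2)).card := Finset.sum_le_sum e1
      _ = ∑ q ∈ S.offDiag, ∑ u ∈ B \ S, (T u ∩ (T q.1 ∩ T q.2)).card := Finset.sum_comm
      _ ≤ ∑ q ∈ S.offDiag, 2 := by
        refine Finset.sum_le_sum fun q hq => ?_
        rw [Finset.mem_offDiag] at hq
        have e3 : ∑ u ∈ B \ S, (T u ∩ (T q.1 ∩ T q.2)).card =
            ∑ u ∈ B \ S, ((T q.1 ∩ T q.2) ∩ T u).card :=
          Finset.sum_congr rfl fun u _ => by rw [Finset.inter_comm]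
        rw [e3, glueA_sum]
        calc ∑ s ∈ T q.1 ∩ T q.2, ((B \ S).filter fun w => s ∈ T w).card
            ≤ ∑ s ∈ T q.1 ∩ T q.2, 1 := by
              refine Finset.sum_le_sum fun s hs => ?_
              rw [Finset.mem_inter] at hs
              have e4 : insert q.1 (insert q.2 ((B \ S).filter fun w => s ∈ T w)) ⊆
                  B.filter fun v => s ∈ T v := by
                intro v hv
                rw [Finset.mem_insert, Finset.mem_insert, Finset.mem_filter,
                  Finset.mem_sdiff] at hv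
                rw [Finset.mem_filter]
                rcases hv with rfl | rfl | hv
                · exact ⟨hS hq.1, hs.1⟩
                · exact ⟨hS hq.2.1, hs.2⟩
                · exact ⟨hv.1.1, hv.2⟩
              have e5 := Finset.card_le_card e4
              have e6 : q.2 ∉ (B \ S).filter fun w => s ∈ T w := by
                rw [Finset.mem_filter, Finset.mem_sdiff]
                exact fun h => h.1.2 hq.2.1
              have e7 : q.1 ∉ insert q.2 ((B \ S).filter fun w => s ∈ T w) := by
                rw [Finset.mem_insert, Finset.mem_filter, Finset.mem_sdiff]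
                rintro (h | h)
                · exact hq.2.2 h
                · exact h.1.2 hq.1
              rw [Finset.card_insert_of_notMem e7, Finset.card_insert_of_notMem e6] at e5
              have e8 := h3 s
              omega
          _ = (T q.1 ∩ T q.2).card := by simp
          _ ≤ 2 := h2 _ (hS hq.1) _ (hS hq.2.1) hq.2.2
      _ = 2 * S.offDiag.card := by rw [Finset.sum_const, smul_eq_mul, mul_comm]
      _ ≤ 2 * S.card ^ 2 := by
        refine Nat.mul_le_mul_left _ ?_
        rw [Finset.offDiag_card, pow_two]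
        exact Nat.sub_le _ _
  have hC : (c + 1) * (B \ S).card ≤ ∑ u ∈ B \ S, d u := by
    calc (c + 1) * (B \ S).card = ∑ u ∈ B \ S, (c + 1) := by
          rw [Finset.sum_const, smul_eq_mul, mul_comm]
      _ ≤ ∑ u ∈ B \ S, d u := Finset.sum_le_sum hA
  rw [hcard] at hC
  have h10 : 0 < B.card - S.card := by omega
  have h11 : (c + 1) * (B.card - S.card) = c * (B.card - S.card) + (B.card - S.card) := by ring
  omega

/-- Proof: every `s ∈ T v` is in at most two of the sets `T w`, `w ∈ S`, so `|T v ∩ ⋃_{w ∈ S} T w| ≥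
(1/2) ∑_{w ∈ S} |T v ∩ T w|`. -/
theorem glue_cover {I K : Type} [DecidableEq I] [DecidableEq K] (B : Finset I)
    (T : I → Finset K) (h3 : ∀ s, (B.filter fun v => s ∈ T v).card ≤ 3) (S : Finset I)
    (hS : S ⊆ B) {v : I} (hv : v ∈ B \ S) :
    (S.filter fun w => 2 ≤ (T v ∩ T w).card).card ≤ (T v ∩ S.biUnion T).card := by
  have h5 := glueA_two T S (T v)
  rw [glueA_sum] at h5
  have h6 : ∑ s ∈ T v, (S.filter fun w => s ∈ T w).card ≤
      2 * (T v ∩ S.biUnion T).card := by
    rw [← Finset.filter_mem_eq_inter, Finset.card_filter, Finset.mul_sum]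
    refine Finset.sum_le_sum fun s hs => ?_
    have h7 := glueA_m B T h3 S hS hv hs
    by_cases h8 : s ∈ S.biUnion T
    · rw [if_pos h8]
      omega
    · rw [glueA_zero T S h8]
      exact Nat.zero_le _
  omega

end Pool.Agent.MP193S
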