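import Mathlib
import Pool.Agent.Lib.MP_193dd3_co_S.GlueA

/-!
# MP_193dd3_co, project S: the gluing lemma
-/

set_option autoImplicit false

open Polynomial

namespace Pool.Agent.MP193S

private theorem Glue_sum (M k : ℕ) :
    4 * ∑ j ∈ Finset.range k, (M - 2 * j) + (M + 1 - 2 * k) ^ 2 ≤ (M + 1) ^ 2 := by
  induction k with
  | zero => simp
  | succ k ih =>
    rw [Finset.sum_range_succ, mul_add]
    refine le_trans ?_ ih
    rw [add_assoc]
    refine Nat.add_le_add_left ?_ _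
    rcases Nat.lt_or_ge M (2 * k) with h | h
    · have h1 : M - 2 * k = 0 := by omega
      have h2 : M + 1 - 2 * (k + 1) = 0 := by omega
      rw [h1, h2]
      exact Nat.zero_le _
    · obtain ⟨a, rfl⟩ := Nat.exists_eq_add_of_le h
      have h1 : 2 * k + a - 2 * k = a := by omega
      have h2 : 2 * k + a + 1 - 2 * k = a + 1 := by omega
      have h3 : 2 * k + a + 1 - 2 * (k + 1) = a - 1 := by omega
      rw [h1, h2, h3]
      rcases a with _ | a
      · norm_num
      · rw [Nat.add_sub_cancel]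
        nlinarith

private theorem Glue_filter {I K : Type} [DecidableEq I] [DecidableEq K] (B : Finset I)
    (T : I → Finset K) (m : ℕ) (S : Finset I) (hS : S ⊆ B) {v : I} (hv : v ∈ B \ S)
    (hm : (B.filter fun w => w ≠ v ∧ (T v ∩ T w).card < 2).card ≤ m) :
    S.card ≤ (S.filter fun w => 2 ≤ (T v ∩ T w).card).card + m := by
  have h1 : S.filter (fun w => ¬ 2 ≤ (T v ∩ T w).card) ⊆
      B.filter fun w => w ≠ v ∧ (T v ∩ T w).card < 2 := by
    intro w hw
    rw [Finset.mem_filter] at hw ⊢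
    refine ⟨hS hw.1, ?_, not_le.1 hw.2⟩
    rintro rfl
    exact (Finset.mem_sdiff.1 hv).2 hw.1
  have h2 := Finset.card_le_card h1
  have h3 := Finset.card_filter_add_card_filter_not (s := S)
    (fun w => 2 ≤ (T v ∩ T w).card)
  omega

/-- The gluing lemma: linear conditions on curves which meet each other have many dependencies.

Proof. Let `n = |B|`, `r = δ + m + 1`, `M = δ + 1 + 2 m + c`. Claim: for `k ≤ r` there is `S ⊆ B`
with `|S| = k` such that `U = ⨅_{w ∈ S} ker (γ w)` satisfies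
`4 finrank W ≤ 4 finrank U + 4 ∑_{j < k} (M - 2 j)` (natural subtraction). Induction step
`k < r`: as `k² ≤ r² ≤ c (n - r) ≤ c (n - k)`, `glue_choice` gives `u ∈ B \ S`. By `hm` at least
`k - m` of the `w ∈ S` satisfy `|T u ∩ T w| ≥ 2`, so `Z = T u ∩ ⋃_{w ∈ S} T w` has at least
`2 (k - m) - c` elements. For `x ∈ U` and `s ∈ Z`, `s ∈ T w`, `w ∈ S`: `γ w x = 0`, so by `hrel`
`eval s (γ u x) = 0`. `glue_step` gives the claim for `S ∪ {u}`, because
`δ + 1 - |Z| ≤ M - 2 k`. The sum `∑_j (M - 2 j)` is at most `(M + 1)²/4`, so by `hdim` the space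
`U` for `k = r` contains some `x ≠ 0`. For `v ∈ S` `γ v x = 0`. For `v ∈ B \ S` by `hm` and
`glue_cover` the set `T v ∩ ⋃_{w ∈ S} T w` has at least `r - m = δ + 1` elements; at all of them `γ
v x` vanishes (`hrel`), and its degree is at most `δ`, so `γ v x = 0`. -/
theorem glue {K : Type} [Field K] [DecidableEq K] {W : Type} [AddCommGroup W] [Module K W]
    [FiniteDimensional K W] {I : Type} [DecidableEq I] (B : Finset I) (T : I → Finset K)
    (γ : I → W →ₗ[K] K[X]) (δ m c : ℕ) (hdeg : ∀ v ∈ B, ∀ x, (γ v x).natDegree ≤ δ)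
    (hrel : ∀ v ∈ B, ∀ w ∈ B, ∀ s ∈ T v, s ∈ T w → ∀ x, eval s (γ v x) = 0 → eval s (γ w x) = 0)
    (h2 : ∀ v ∈ B, ∀ w ∈ B, v ≠ w → (T v ∩ T w).card ≤ 2)
    (h3 : ∀ s, (B.filter fun v => s ∈ T v).card ≤ 3)
    (hm : ∀ v ∈ B, (B.filter fun w => w ≠ v ∧ (T v ∩ T w).card < 2).card ≤ m)
    (hn : δ + m + 1 < B.card) (hc : (δ + m + 1) ^ 2 ≤ c * (B.card - (δ + m + 1)))
    (hdim : (δ + 2 * m + c + 2) ^ 2 < 4 * Module.finrank K W) :
    ∃ x : W, x ≠ 0 ∧ ∀ v ∈ B, γ v x = 0 := by
  -- the vanishing at the points of `T v ∩ ⋃ T w`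
  have hvan : ∀ S : Finset I, S ⊆ B → ∀ v ∈ B, ∀ x : W,
      x ∈ (⨅ w ∈ S, LinearMap.ker (γ w) : Submodule K W) →
        ∀ s ∈ T v ∩ S.biUnion T, eval s (γ v x) = 0 := by
    intro S hS v hv x hx s hs
    obtain ⟨hs1, hs2⟩ := Finset.mem_inter.1 hs
    obtain ⟨w, hw, hsw⟩ := Finset.mem_biUnion.1 hs2
    refine hrel w (hS hw) v hv s hsw hs1 x ?_
    have h4 : x ∈ LinearMap.ker (γ w) := by
      have h5 := (Submodule.mem_iInf _).1 hx w
      exact (Submodule.mem_iInf _).1 h5 hw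
    rw [LinearMap.mem_ker.1 h4, eval_zero]
  have claim : ∀ k : ℕ, k ≤ δ + m + 1 → ∃ S ⊆ B, S.card = k ∧
      Module.finrank K W ≤ Module.finrank K (⨅ w ∈ S, LinearMap.ker (γ w) : Submodule K W) +
        ∑ j ∈ Finset.range k, (δ + 1 + 2 * m + c - 2 * j) := by
    intro k
    induction k with
    | zero =>
      intro _
      refine ⟨∅, Finset.empty_subset B, Finset.card_empty, ?_⟩
      have h4 : (⨅ w ∈ (∅ : Finset I), LinearMap.ker (γ w) : Submodule K W) = ⊤ := by simp
      rw [h4, finrank_top]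
      exact Nat.le_add_right _ _
    | succ k ih =>
      intro hk
      obtain ⟨S, hSB, hSk, hS⟩ := ih (Nat.le_of_succ_le hk)
      have hlt : S.card < B.card := by omega
      have hc' : S.card ^ 2 ≤ c * (B.card - S.card) := by
        refine le_trans (Nat.pow_le_pow_left (by omega) 2) (hc.trans ?_)
        exact Nat.mul_le_mul_left c (by omega)
      obtain ⟨u, hu, hu2⟩ := glue_choice B T h2 h3 S hSB hlt c hc'
      have huB : u ∈ B := (Finset.mem_sdiff.1 hu).1
      have huS : u ∉ S := (Finset.mem_sdiff.1 hu).2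
      have h4 := Glue_filter B T m S hSB hu (hm u huB)
      have h5 := glue_step (⨅ w ∈ S, LinearMap.ker (γ w) : Submodule K W) (γ u) δ
        (T u ∩ S.biUnion T) (fun x _ => hdeg u huB x) (fun x hx => hvan S hSB u huB x hx)
      refine ⟨insert u S, Finset.insert_subset huB hSB, ?_, ?_⟩
      · rw [Finset.card_insert_of_notMem huS, hSk]
      · rw [Finset.iInf_insert, inf_comm, Finset.sum_range_succ]
        have h6 : δ + 1 - (T u ∩ S.biUnion T).card ≤ δ + 1 + 2 * m + c - 2 * k := by omega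
        omega
  obtain ⟨S, hSB, hSk, hS⟩ := claim (δ + m + 1) le_rfl
  have hsum := Glue_sum (δ + 1 + 2 * m + c) (δ + m + 1)
  have hM : δ + 1 + 2 * m + c + 1 = δ + 2 * m + c + 2 := by ring
  rw [hM] at hsum
  have hpos : Module.finrank K (⨅ w ∈ S, LinearMap.ker (γ w) : Submodule K W) ≠ 0 := by
    intro h0
    rw [h0, zero_add] at hS
    have h4 : 4 * ∑ j ∈ Finset.range (δ + m + 1), (δ + 1 + 2 * m + c - 2 * j) ≤
        (δ + 2 * m + c + 2) ^ 2 := le_trans (Nat.le_add_right _ _) hsum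
    omega
  have hbot : (⨅ w ∈ S, LinearMap.ker (γ w) : Submodule K W) ≠ ⊥ := by
    intro h0
    apply hpos
    rw [h0]
    exact finrank_bot K W
  obtain ⟨x, hx, hx0⟩ := Submodule.exists_mem_ne_zero_of_ne_bot hbot
  refine ⟨x, hx0, fun v hv => ?_⟩
  by_cases hvS : v ∈ S
  · have h5 := (Submodule.mem_iInf _).1 hx v
    exact LinearMap.mem_ker.1 ((Submodule.mem_iInf _).1 h5 hvS)
  · have hv' : v ∈ B \ S := Finset.mem_sdiff.2 ⟨hv, hvS⟩
    have h4 := Glue_filter B T m S hSB hv' (hm v hv)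
    have h5 := glue_cover B T h3 S hSB hv'
    refine Polynomial.eq_zero_of_natDegree_lt_card_of_eval_eq_zero' (γ v x)
      (T v ∩ S.biUnion T) (fun s hs => hvan S hSB v hv x hx s hs) ?_
    have h6 := hdeg v hv x
    omega

end Pool.Agent.MP193S
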