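import Mathlib
import Pool.Agent.Lib.MP_193dd3_co_S.Hev

/-!
# MP_193dd3_co, project S: polynomials which vanish on a grid
-/

set_option autoImplicit false

open Polynomial
open Pool.Agent.MP193G (Vc nq Lf Pl iv hx lin)

namespace Pool.Agent.MP193S

variable {p : ℕ} [Fact p.Prime] (K : Type) [Field K] [Algebra (ZMod p) K] [CharP K p]

/-- division by `X ^ p - X` in the outer variable -/
private theorem Grid_div (hp2 : 2 ≤ p) {b : ℕ} (n : ℕ) : ∀ F : P2 K, bd b n F →
    ∃ R r : P2 K, bd b (n - p) R ∧ bd b (p - 1) r ∧ F = (X - X ^ p) * R + r := by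
  induction n with
  | zero =>
    intro F hF
    refine ⟨0, F, ⟨by simp, fun l => by simp⟩, bd_mono hF le_rfl (Nat.zero_le _), ?_⟩
    rw [mul_zero, zero_add]
  | succ n ih =>
    intro F hF
    by_cases hn : n + 1 < p
    · refine ⟨0, F, ⟨by simp, fun l => by simp⟩, bd_mono hF le_rfl (by omega), ?_⟩
      rw [mul_zero, zero_add]
    · obtain ⟨c, hc⟩ : ∃ c : ℕ, n + 1 = c + p := ⟨n + 1 - p, by omega⟩
      obtain ⟨a, ha⟩ : ∃ a : K[X], a = F.coeff (n + 1) := ⟨_, rfl⟩
      have hab : a.natDegree ≤ b := by rw [ha]; exact hF.2 _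
      have hmon : ∀ k : ℕ, ∀ j, k ≤ j → bd b j (monomial k a : P2 K) := by
        intro k j hkj
        refine ⟨(natDegree_monomial_le _).trans hkj, fun l => ?_⟩
        rw [coeff_monomial]
        split_ifs
        · exact hab
        · rw [natDegree_zero]
          exact Nat.zero_le _
      have h1 : bd b n (F - monomial (n + 1) a) := by
        refine ⟨?_, (bd_sub hF (hmon (n + 1) (n + 1) le_rfl)).2⟩
        rw [natDegree_le_iff_coeff_eq_zero]
        intro N hN
        rw [coeff_sub, coeff_monomial]
        split_ifs with h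
        · rw [← h, ha, sub_self]
        · rw [sub_zero]
          exact coeff_eq_zero_of_natDegree_lt (by have := hF.1; omega)
      have h2 : bd b n (F - monomial (n + 1) a + monomial (c + 1) a) :=
        bd_add h1 (hmon (c + 1) n (by omega))
      obtain ⟨R, r, hR, hr, e⟩ := ih _ h2
      refine ⟨R - monomial c a, r, ?_, hr, ?_⟩
      · exact bd_sub (bd_mono hR le_rfl (by omega)) (hmon c _ (by omega))
      · have e1 : (monomial (n + 1) a : P2 K) = X ^ p * monomial c a := by
          rw [hc, X_pow_mul_monomial]
        have e2 : (monomial (c + 1) a : P2 K) = X * monomial c a := by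
          rw [X_mul_monomial]
        rw [e1, e2] at e
        linear_combination e

/-- polynomials in one variable which vanish on the prime field -/
private theorem Grid_one (hp2 : 2 ≤ p) {b : ℕ} {g : K[X]} (hg : g.natDegree ≤ b)
    (h : ∀ s : ZMod p, eval (algebraMap (ZMod p) K s) g = 0) :
    ∃ q : K[X], q.natDegree ≤ b - p ∧ g = (X - X ^ p) * q := by
  have hm : (X ^ p - X : K[X]).Monic := monic_X_pow_sub (by
    rw [degree_X]
    exact_mod_cast hp2)
  have hd : (X ^ p - X : K[X]).natDegree = p := by
    have h1 := natDegree_sub_eq_left_of_natDegree_lt (p := (X ^ p : K[X])) (q := X) (by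
      rw [natDegree_X, natDegree_X_pow]
      omega)
    rw [h1, natDegree_X_pow]
  have h0 : g %ₘ (X ^ p - X) = 0 := by
    refine eq_zero_of_natDegree_lt_card_of_eval_eq_zero _
      (f := fun t : ZMod p => algebraMap (ZMod p) K t) (algebraMap (ZMod p) K).injective
      (fun t => ?_) ?_
    · have h1 := congrArg (eval (algebraMap (ZMod p) K t)) (modByMonic_add_div g (X ^ p - X))
      rw [eval_add, eval_mul, eval_sub, eval_pow, eval_X, ← map_pow, ZMod.pow_card, sub_self,
        zero_mul, add_zero, h t] at h1
      exact h1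
    · rw [ZMod.card]
      have h1 := natDegree_modByMonic_lt g hm (by
        intro h2
        rw [h2, natDegree_one] at hd
        omega)
      rwa [hd] at h1
  refine ⟨-(g /ₘ (X ^ p - X)), ?_, ?_⟩
  · rw [natDegree_neg, natDegree_divByMonic g hm, hd]
    omega
  · have h1 := modByMonic_add_div g (X ^ p - X)
    rw [h0, zero_add] at h1
    linear_combination -h1

/-- Proof. Divide `F` by `X ^ p - X` (outer variable, monic, coefficients in `K`): `F = (X - X ^ p) * R + r`,
`r.natDegree < p`, `R.natDegree ≤ b - p`; all coefficients of `R` and `r` are sums of coefficients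
of `F`, so they have degree at most `b` (reduce `X ^ l` for `l ≥ p` step by step, or use that
`divByMonic` commutes with the truncation; a simple way is induction on `F.natDegree`). For
`s ∈ ZMod p` the polynomial `r(s, t)` has degree less than `p` in `t` and vanishes for all
`t ∈ ZMod p`, so it is zero. So all coefficients of `r` vanish on `ZMod p` and are divisible by
`X - X ^ p`, with quotients of degree at most `b - p`. -/
theorem div_grid {b : ℕ} (hb : p ≤ b) (F : P2 K) (hF : bd b b F)
    (hz : ∀ s t : ZMod p, evalEval (algebraMap (ZMod p) K s) (algebraMap (ZMod p) K t) F = 0) :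
    ∃ P R : P2 K, bd (b - p) (p - 1) P ∧ bd b (b - p) R ∧
      F = C (X - X ^ p) * P + (X - X ^ p) * R := by
  classical
  have hp2 : 2 ≤ p := (Fact.out : p.Prime).two_le
  obtain ⟨R, r, hR, hr, hFr⟩ := Grid_div K hp2 b F hF
  -- the remainder vanishes
  have hrow : ∀ s : ZMod p, r.map (evalRingHom (algebraMap (ZMod p) K s)) = 0 := by
    intro s
    refine eq_zero_of_natDegree_lt_card_of_eval_eq_zero _
      (f := fun t : ZMod p => algebraMap (ZMod p) K t) (algebraMap (ZMod p) K).injective
      (fun t => ?_) ?_
    · rw [map_evalRingHom_eval]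
      have h1 := hz s t
      rw [hFr, evalEval_add, evalEval_mul] at h1
      have h2 : evalEval (algebraMap (ZMod p) K s) (algebraMap (ZMod p) K t)
          (X - X ^ p : P2 K) = 0 := by
        unfold evalEval
        rw [eval_sub, eval_pow, eval_X, eval_sub, eval_pow, eval_C, ← map_pow, ZMod.pow_card,
          sub_self]
      rw [h2, zero_mul, zero_add] at h1
      exact h1
    · rw [ZMod.card]
      refine lt_of_le_of_lt natDegree_map_le (lt_of_le_of_lt hr.1 (by omega))
  have hcoef : ∀ (s : ZMod p) (l : ℕ), eval (algebraMap (ZMod p) K s) (r.coeff l) = 0 := by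
    intro s l
    have h1 := congrArg (fun f : K[X] => f.coeff l) (hrow s)
    simp only [coeff_map, coe_evalRingHom, coeff_zero] at h1
    exact h1
  have hex : ∀ l, ∃ q : K[X], q.natDegree ≤ b - p ∧ r.coeff l = (X - X ^ p) * q := fun l =>
    Grid_one K hp2 (hr.2 l) fun s => hcoef s l
  choose q hq1 hq2 using hex
  refine ⟨∑ l ∈ Finset.range p, monomial l (q l), R, ⟨?_, fun l => ?_⟩, hR, ?_⟩
  · refine natDegree_sum_le_of_forall_le _ _ fun l hl => ?_
    have := Finset.mem_range.1 hl
    exact (natDegree_monomial_le _).trans (by omega)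
  · rw [finsetSum_coeff]
    refine natDegree_sum_le_of_forall_le _ _ fun k _ => ?_
    rw [coeff_monomial]
    split_ifs
    · exact hq1 k
    · rw [natDegree_zero]
      exact Nat.zero_le _
  · rw [hFr, add_comm]
    congr 1
    rw [as_sum_range' r p (lt_of_le_of_lt hr.1 (by omega)), Finset.mul_sum]
    refine Finset.sum_congr rfl fun l _ => ?_
    rw [C_mul_monomial, ← hq2]

end Pool.Agent.MP193S
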