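import Mathlib
import Pool.Agent.Lib.MP_193dd3_co_S.Hev

/-!
# MP_193dd3_co, project S: a divisibility
-/

set_option autoImplicit false

open Polynomial
open Pool.Agent.MP193G (Vc nq Lf Pl iv hx lin)

namespace Pool.Agent.MP193S

variable {p : ℕ} [Fact p.Prime] (K : Type) [Field K] [Algebra (ZMod p) K] [CharP K p]

omit [CharP K p] in
private theorem Sym_dvd {G : K[X]} (h : ∀ x : ZMod p, eval (algebraMap (ZMod p) K x) G = 0) :
    (X - X ^ p : K[X]) ∣ G := by
  have hp : 1 < p := (Fact.out : p.Prime).one_lt
  have hm : (X ^ p - X : K[X]).Monic := by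
    refine monic_X_pow_sub ?_
    rw [degree_X]
    exact_mod_cast hp
  have hx : ∀ x : ZMod p, eval (algebraMap (ZMod p) K x) (X ^ p - X : K[X]) = 0 := by
    intro x
    rw [eval_sub, eval_pow, eval_X, ← map_pow, ZMod.pow_card, sub_self]
  have h1 : G %ₘ (X ^ p - X) = 0 := by
    refine Polynomial.eq_zero_of_natDegree_lt_card_of_eval_eq_zero _
      (algebraMap (ZMod p) K).injective (fun x => ?_) ?_
    · have h2 := congrArg (eval (algebraMap (ZMod p) K x)) (modByMonic_add_div G (X ^ p - X))
      rw [eval_add, eval_mul, hx x, zero_mul, add_zero, h x] at h2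
      exact h2
    · rw [ZMod.card]
      have h3 := natDegree_modByMonic_lt G hm (fun h1 => by
        have h4 := FiniteField.X_pow_card_sub_X_natDegree_eq K hp
        rw [h1, natDegree_one] at h4
        omega)
      rwa [FiniteField.X_pow_card_sub_X_natDegree_eq K hp] at h3
  have h5 : (X ^ p - X : K[X]) ∣ G := (modByMonic_eq_zero_iff_dvd hm).1 h1
  have h6 : (X - X ^ p : K[X]) = -(X ^ p - X) := by ring
  rw [h6, neg_dvd]
  exact h5

omit [CharP K p] in
private theorem Sym_lam (w : Vc p) (x : ZMod p) : eval (algebraMap (ZMod p) K x) (lam K w) =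
    algebraMap (ZMod p) K (w.2.2 * x - w.1) := by
  simp [lam]

omit [CharP K p] in
private theorem Sym_mu (w : Vc p) (x : ZMod p) : eval (algebraMap (ZMod p) K x) (mu K w) =
    algebraMap (ZMod p) K (w.1 * x + w.2.1) := by
  simp [mu]

omit [CharP K p] in
private theorem Sym_map (w : Vc p) (s : K) : (Lc K w).map (evalRingHom s) =
    C (eval s (lam K w)) * X - C (eval s (mu K w)) := by
  simp [Lc]

/-- Proof. `X - X ^ p` is up to the sign the product of the `X - x`, `x ∈ ZMod p`, so it is enough
to
show that the polynomial vanishes at every `s` in the image of `ZMod p`. Let `λ`, `μ` be the values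
of `lam v`, `mu v` at `s`; they are in the image of `ZMod p`, so `s ^ p = s`, `λ ^ p = λ`, and
`lam v * X ^ p - mu v` and `lam v * X - mu v` have at `s` the same value `λ s - μ`. The identity
`hF` at
`s` says (polynomials in `t`) `E(s, t) ∏_w L_w(s, t) = (t - t ^ p) R(s, t)`, `L_v(s, t) = λ t - μ`.

(1) `λ ≠ 0`. Let `t0 = μ/λ` (in the image of `ZMod p`). Divide by `t - t0` (or take the derivative
at
`t0`; `t - t ^ p` has the derivative `1`): `λ E(s, t0) ∏_{w ≠ v} L_w(s, t0) = R(s, t0)`. By
`hev_eval`
the value of `hev v a R` is `λ ^ a R(s, t0)`, that of `hev v e E` is `λ ^ e E(s, t0)` and that of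
`hev v 1 (Lc w)` is `λ L_w(s, t0)`. So `lam v * hev v e E * ∏_{w ≠ v} hev v 1 (Lc w)` has the value
`λ ^ (1 + e + |B| - 1) E ∏ L_w = λ ^ (p + a) E ∏ L_w = λ ^ (a + 1) E ∏ L_w = λ ^ a R`, as `hb` and
`λ ^ p = λ`. So the two terms cancel.

(2) `λ = 0`. The second term is zero. As `L_v(s, t) = - μ` is constant in `t`, the left-hand side
of the
identity has degree at most `e + |B| - 1 = p + a - 1` in `t`, so `R(s, t)` has degree less than
`a`, its
coefficient at `t ^ a` is zero, and by `hev_top` the value of `hev v a R` is zero. (If `a = 0` then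
`R(s, t) = 0`.) -/
theorem rhs_dvd (B : Finset (Vc p)) {v : Vc p} (hv : v ∈ B) {e a : ℕ} (hb : B.card + e = p + a)
    (E P R : P2 K) (hE : bd e e E) (hR : bd (p + a) a R)
    (hF : E * ∏ w ∈ B, Lc K w = C (X - X ^ p) * P + (X - X ^ p) * R) :
    (X - X ^ p : K[X]) ∣ (lam K v * X ^ p - mu K v) * hev K v a R -
      lam K v * hev K v e E * (lam K v * X - mu K v) * ∏ w ∈ B.erase v, hev K v 1 (Lc K w) := by
  classical
  have hp : 1 < p := (Fact.out : p.Prime).one_lt
  have hB : 0 < B.card := Finset.card_pos.2 ⟨v, hv⟩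
  have hcard : (B.erase v).card = B.card - 1 := Finset.card_erase_of_mem hv
  refine Sym_dvd K fun x => ?_
  obtain ⟨s, hs⟩ : ∃ s : K, s = algebraMap (ZMod p) K x := ⟨_, rfl⟩
  have hsp : s ^ p = s := by rw [hs, ← map_pow, ZMod.pow_card]
  obtain ⟨l, hl⟩ : ∃ l : K, l = eval s (lam K v) := ⟨_, rfl⟩
  obtain ⟨m, hm⟩ : ∃ m : K, m = eval s (mu K v) := ⟨_, rfl⟩
  have hlp : l ^ p = l := by rw [hl, hs, Sym_lam, ← map_pow, ZMod.pow_card]
  have hmp : m ^ p = m := by rw [hm, hs, Sym_mu, ← map_pow, ZMod.pow_card]
  -- the identity at `s`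
  have hF1 : E.map (evalRingHom s) * ∏ w ∈ B, (Lc K w).map (evalRingHom s) =
      (X - X ^ p) * R.map (evalRingHom s) := by
    have h1 := congrArg (Polynomial.map (evalRingHom s)) hF
    rw [Polynomial.map_mul, Polynomial.map_prod, Polynomial.map_add, Polynomial.map_mul,
      Polynomial.map_mul, Polynomial.map_C, Polynomial.map_sub, Polynomial.map_pow,
      Polynomial.map_X, coe_evalRingHom, eval_sub, eval_pow, eval_X, hsp, sub_self, C_0,
      zero_mul, zero_add] at h1
    exact h1
  rw [← Finset.mul_prod_erase B _ hv, Sym_map, ← hl, ← hm] at hF1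
  rw [← hs]
  have hgoal : eval s ((lam K v * X ^ p - mu K v) * hev K v a R -
      lam K v * hev K v e E * (lam K v * X - mu K v) * ∏ w ∈ B.erase v, hev K v 1 (Lc K w)) =
      (l * s - m) * (eval s (hev K v a R) -
        l * eval s (hev K v e E) * ∏ w ∈ B.erase v, eval s (hev K v 1 (Lc K w))) := by
    rw [eval_sub, eval_mul, eval_sub, eval_mul, eval_pow, eval_X, hsp, eval_mul, eval_mul,
      eval_mul, eval_sub, eval_mul, eval_X, eval_prod, ← hl, ← hm]
    ring
  rw [hgoal]
  by_cases hl0 : l = 0
  · -- only the first term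
    have h1 : eval s (hev K v a R) = eval s (R.coeff a) * m ^ a := by
      rw [hm]
      exact hev_top K v (by rw [← hl, hl0])
    rw [hl0] at hF1 ⊢
    rw [zero_mul, zero_mul, zero_mul, zero_sub, sub_zero, h1]
    have hRc : eval s (R.coeff a) = 0 := by
      have hER : (R.map (evalRingHom s)).natDegree ≤ a :=
        (natDegree_map_le).trans hR.1
      have hX : (X - X ^ p : K[X]).natDegree ≤ p := by
        refine (natDegree_sub_le _ _).trans ?_
        rw [natDegree_X, natDegree_X_pow]
        exact max_le hp.le le_rfl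
      have h2 := coeff_mul_add_eq_of_natDegree_le hX hER
      rw [← hF1, coeff_map, coe_evalRingHom] at h2
      have h3 : (X - X ^ p : K[X]).coeff p = -1 := by
        rw [coeff_sub, coeff_X_pow, if_pos rfl, coeff_X, if_neg (by omega), zero_sub]
      have h4 : (E.map (evalRingHom s) * ((C 0 * X - C m) *
          ∏ w ∈ B.erase v, (Lc K w).map (evalRingHom s))).coeff (p + a) = 0 := by
        refine coeff_eq_zero_of_natDegree_lt ?_
        have d1 : (E.map (evalRingHom s)).natDegree ≤ e := (natDegree_map_le).trans hE.1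
        have d2 : (C 0 * X - C m : K[X]).natDegree ≤ 0 := by
          rw [C_0, zero_mul, zero_sub, natDegree_neg, natDegree_C]
        have d3 : (∏ w ∈ B.erase v, (Lc K w).map (evalRingHom s)).natDegree ≤
            (B.erase v).card := by
          refine (natDegree_prod_le _ _).trans ?_
          refine (Finset.sum_le_card_nsmul _ _ 1 fun w _ => ?_).trans ?_
          · exact (natDegree_map_le).trans (bd_Lc K w).1
          · rw [smul_eq_mul, mul_one]
        have d4 := natDegree_mul_le_of_le d1 (natDegree_mul_le_of_le d2 d3)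
        omega
      rw [h4, h3] at h2
      linear_combination h2
    rw [hRc]
    ring
  · -- the point `t = m / l`
    obtain ⟨t, ht⟩ : ∃ t : K, t = m / l := ⟨_, rfl⟩
    have htl : m = t * l := by rw [ht, div_mul_cancel₀ _ hl0]
    have htp : t ^ p = t := by rw [ht, div_pow, hmp, hlp]
    have hcond : eval s (mu K v) = t * eval s (lam K v) := by rw [← hm, ← hl, htl]
    have hR1 : eval s (hev K v a R) = l ^ a * evalEval s t R := by
      rw [hl]
      exact hev_eval K v hR.1 hcond
    have hE1 : eval s (hev K v e E) = l ^ e * evalEval s t E := by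
      rw [hl]
      exact hev_eval K v hE.1 hcond
    have hL1 : ∀ w : Vc p, eval s (hev K v 1 (Lc K w)) = l * evalEval s t (Lc K w) := by
      intro w
      rw [hev_eval K v (bd_Lc K w).1 hcond, ← hl, pow_one]
    have hder := congrArg (fun q : K[X] => eval t (derivative q)) hF1
    have e1 : eval t (C l * X - C m : K[X]) = 0 := by
      rw [eval_sub, eval_mul, eval_C, eval_X, eval_C, htl]
      ring
    have e2 : eval t (derivative (C l * X - C m : K[X])) = l := by
      simp
    have e3 : eval t (X - X ^ p : K[X]) = 0 := by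
      rw [eval_sub, eval_pow, eval_X, htp, sub_self]
    have e4 : eval t (derivative (X - X ^ p : K[X])) = 1 := by
      rw [derivative_sub, derivative_X, derivative_X_pow, CharP.cast_eq_zero K p]
      simp
    simp only [derivative_mul, eval_add, eval_mul] at hder
    rw [e1, e2, e3, e4] at hder
    rw [map_evalRingHom_eval, map_evalRingHom_eval] at hder
    have hprod : eval t (∏ w ∈ B.erase v, (Lc K w).map (evalRingHom s)) =
        ∏ w ∈ B.erase v, evalEval s t (Lc K w) := by
      rw [eval_prod]
      exact Finset.prod_congr rfl fun w _ => map_evalRingHom_eval _ _ _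
    rw [hprod] at hder
    have hkey : evalEval s t R = l * evalEval s t E *
        ∏ w ∈ B.erase v, evalEval s t (Lc K w) := by
      linear_combination -hder
    have hprod2 : ∏ w ∈ B.erase v, eval s (hev K v 1 (Lc K w)) =
        l ^ (B.erase v).card * ∏ w ∈ B.erase v, evalEval s t (Lc K w) := by
      rw [← Finset.prod_const, ← Finset.prod_mul_distrib]
      exact Finset.prod_congr rfl fun w _ => hL1 w
    have hpow : l ^ e * l ^ (B.erase v).card * l = l ^ a * l := by
      rw [← pow_add, ← pow_succ, hcard]
      have h7 : e + (B.card - 1) + 1 = p + a := by omega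
      rw [h7, pow_add, hlp]
      ring
    rw [hR1, hE1, hprod2, hkey]
    linear_combination (-(l * s - m) * evalEval s t E *
      ∏ w ∈ B.erase v, evalEval s t (Lc K w)) * hpow

end Pool.Agent.MP193S
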