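import Mathlib
import Pool.Agent.Lib.MP_193dd3_co_S.Sym
import Pool.Agent.Lib.MP_193dd3_co_S.Tco

/-!
# MP_193dd3_co, project S: the local rational functions
-/

set_option autoImplicit false

open Polynomial
open Pool.Agent.MP193G (Vc nq Lf Pl iv hx lin)

namespace Pool.Agent.MP193S

variable {p : ℕ} [Fact p.Prime] (K : Type) [Field K] [DecidableEq K] [Algebra (ZMod p) K]
  [CharP K p]

omit [DecidableEq K] [CharP K p] in
private theorem lamV_lam_natDegree (v : Vc p) : (lam K v).natDegree ≤ 1 := by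
  unfold lam
  compute_degree

omit [DecidableEq K] [CharP K p] in
private theorem lamV_mu_natDegree (v : Vc p) : (mu K v).natDegree ≤ 1 := by
  unfold mu
  compute_degree

/-- The product of the `hev v 1 (Lc w)` has a double zero at the elements of `Tv B v`. -/
private theorem lamV_double (B : Finset (Vc p)) {v : Vc p} (hv : v ∈ B) {s : K}
    (hs : s ∈ Tv K B v) :
    (X - C s) ^ 2 ∣ ∏ w ∈ B.erase v, hev K v 1 (Lc K w) := by
  classical
  obtain ⟨hs1, hs2⟩ := Finset.mem_filter.1 hs
  obtain ⟨hs3, hs4⟩ := Finset.mem_filter.1 hs1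
  have hroot : ∀ w : Vc p, Ls w s (s ^ p) = 0 → (X - C s) ∣ hev K v 1 (Lc K w) := by
    intro w hw
    rw [dvd_iff_isRoot, IsRoot.def, hev_eval K v (bd_Lc K w).1 (mu_eq K hs2),
      evalEval_Lc, hw, mul_zero]
  have hvm : v ∈ B.filter fun w => Ls w s (s ^ p) = 0 := Finset.mem_filter.2 ⟨hv, hs2⟩
  have hc : ((B.filter fun w => Ls w s (s ^ p) = 0).erase v).card = 2 := by
    rw [Finset.card_erase_of_mem hvm, hs4]
  obtain ⟨w1, w2, h12, hw⟩ := Finset.card_eq_two.1 hc
  have hsub : ({w1, w2} : Finset (Vc p)) ⊆ B.erase v := by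
    rw [← hw]
    intro w hw'
    obtain ⟨h1, h2⟩ := Finset.mem_erase.1 hw'
    exact Finset.mem_erase.2 ⟨h1, (Finset.mem_filter.1 h2).1⟩
  have hz : ∀ w ∈ ({w1, w2} : Finset (Vc p)), Ls w s (s ^ p) = 0 := by
    intro w hw'
    rw [← hw] at hw'
    exact (Finset.mem_filter.1 (Finset.mem_erase.1 hw').2).2
  refine dvd_trans ?_ (Finset.prod_dvd_prod_of_subset _ _ _ hsub)
  rw [Finset.prod_pair h12, sq]
  exact mul_dvd_mul (hroot w1 (hz w1 (by simp))) (hroot w2 (hz w2 (by simp)))

/-- Proof. Let `κ = lam v * X ^ p - mu v` and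
`ρ = κ * hev v a R - lam v * hev v e E * (lam v * X - mu v) * ∏_{w ≠ v} hev v 1 (Lc w)`. By `rhs_dvd` `ρ = (X - X ^ p) * Ψ`. The degrees: `κ` at most `p + 1`,
`hev v a R` at most `p + 2 a`, `hev v e E` at most `2 e`, `hev v 1 (Lc w)` at most `2`
(`hev_natDegree`), so `ρ` has degree at most `2 p + 2 a + 1` (as `|B| + e = p + a`) and `Ψ` at most
`p + 1 + 2 a`. Let `s ∈ Tv B v`. Exactly two `w ≠ v` in `B` satisfy `Ls w s (s ^ p) = 0`, and
`hev v 1 (Lc w)` vanishes at `s` (`hev_eval` with `t = s ^ p`, `mu_eq`). So the second term of `ρ` is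
divisible by `(X - s) ^ 2`. By `kv_root` `κ` has a simple zero at `s`. So `Ψ` vanishes at `s`
(`s - s ^ p ≠ 0`). Let `k` be the product of the `X - s`, `s ∈ Tv B v`, so `κ = k β`, `Ψ = k N`;
`β` has at `s` a value `≠ 0`, because the zero of `κ` is simple. Dividing
`(X - X ^ p) k N = k β hev v a R - (second term)` by `X - s` and evaluating at `s` gives
`(s - s ^ p) N(s) = β(s) (hev v a R)(s)`. The degree bounds: `deg k = |Tv B v|`; if `N = 0` use
`|Tv B v| ≤ p + 1` (the roots of `κ`, `κ ≠ 0`). -/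
theorem lamV (B : Finset (Vc p)) {v : Vc p} (hv : v ∈ B) (hn : nq v ≠ 0) {e a : ℕ}
    (hb : B.card + e = p + a) (E P R : P2 K) (hE : bd e e E) (hR : bd (p + a) a R)
    (hF : E * ∏ w ∈ B, Lc K w = C (X - X ^ p) * P + (X - X ^ p) * R) :
    ∃ β N : K[X], β.natDegree + (Tv K B v).card ≤ p + 1 ∧
      N.natDegree + (Tv K B v).card ≤ p + 1 + 2 * a ∧
      ∀ s ∈ Tv K B v, eval s β ≠ 0 ∧
        eval s N * (s - s ^ p) = eval s β * eval s (hev K v a R) := by
  classical
  have hp : p.Prime := Fact.out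
  have hp1 : 1 < p := hp.one_lt
  set κ : K[X] := lam K v * X ^ p - mu K v with hκ
  set A : K[X] := hev K v a R with hA
  set Q : K[X] := ∏ w ∈ B.erase v, hev K v 1 (Lc K w) with hQ
  obtain ⟨Ψ, hΨ⟩ := rhs_dvd K B hv hb E P R hE hR hF
  -- the degrees
  have hlam := lamV_lam_natDegree K v
  have hmu := lamV_mu_natDegree K v
  have hκd : κ.natDegree ≤ p + 1 := by
    refine (natDegree_sub_le _ _).trans (max_le ?_ (by omega))
    refine natDegree_mul_le.trans ?_
    have h1 : (X ^ p : K[X]).natDegree ≤ p := natDegree_X_pow_le p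
    omega
  have hAd : A.natDegree ≤ p + 2 * a := by
    have h1 : A.natDegree ≤ (p + a) + a := hev_natDegree K v hR
    omega
  have hEd : (hev K v e E).natDegree ≤ e + e := hev_natDegree K v hE
  have hLd : (lam K v * X - mu K v).natDegree ≤ 2 := by
    refine (natDegree_sub_le _ _).trans (max_le ?_ (by omega))
    refine natDegree_mul_le.trans ?_
    have h1 : (X : K[X]).natDegree ≤ 1 := natDegree_X_le
    omega
  have hQd : Q.natDegree ≤ 2 * (B.card - 1) := by
    refine (natDegree_prod_le _ _).trans ?_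
    refine (Finset.sum_le_card_nsmul _ _ 2 fun w _ => ?_).trans ?_
    · exact hev_natDegree K v (bd_Lc K w)
    · rw [Finset.card_erase_of_mem hv, smul_eq_mul]
      omega
  have hBc : 1 ≤ B.card := Finset.card_pos.2 ⟨v, hv⟩
  have hρd : (κ * A - lam K v * hev K v e E * (lam K v * X - mu K v) * Q).natDegree ≤
      2 * p + 2 * a + 1 := by
    refine (natDegree_sub_le _ _).trans (max_le ?_ ?_)
    · refine natDegree_mul_le.trans ?_
      omega
    · refine natDegree_mul_le.trans ?_
      have h1 : (lam K v * hev K v e E * (lam K v * X - mu K v)).natDegree ≤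
          (lam K v * hev K v e E).natDegree + (lam K v * X - mu K v).natDegree :=
        natDegree_mul_le
      have h2 : (lam K v * hev K v e E).natDegree ≤
          (lam K v).natDegree + (hev K v e E).natDegree := natDegree_mul_le
      omega
  have hU : (X - X ^ p : K[X]).natDegree = p := by
    rw [natDegree_sub_eq_right_of_natDegree_lt, natDegree_X_pow]
    rw [natDegree_X_pow, natDegree_X]
    exact hp1
  have hU0 : (X - X ^ p : K[X]) ≠ 0 := by
    intro h
    rw [h, natDegree_zero] at hU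
    omega
  have hΨd : Ψ.natDegree ≤ p + 1 + 2 * a := by
    by_cases h0 : Ψ = 0
    · rw [h0, natDegree_zero]
      omega
    · rw [hΨ, natDegree_mul hU0 h0, hU] at hρd
      omega
  -- the zeros
  have hκ0 : ∀ s ∈ Tv K B v, eval s κ = 0 := fun s hs => (kv_root K hn hs).1
  have hκ1 : ∀ s ∈ Tv K B v, eval s (derivative κ) ≠ 0 := fun s hs => (kv_root K hn hs).2
  have hne : ∀ s ∈ Tv K B v, s - s ^ p ≠ 0 := by
    intro s hs h
    have h1 := (Finset.mem_filter.1 hs).1
    have h2 := ((mem_irr K).1 (Finset.mem_filter.1 h1).1).2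
    exact h2 (sub_eq_zero.1 h).symm
  have hQ0 : ∀ s ∈ Tv K B v, eval s Q = 0 := by
    intro s hs
    have h1 : (X - C s) ∣ Q := (dvd_pow_self _ two_ne_zero).trans (lamV_double K B hv hs)
    exact dvd_iff_isRoot.1 h1
  have hΨ0 : ∀ s ∈ Tv K B v, eval s Ψ = 0 := by
    intro s hs
    have h0 : κ * A - lam K v * hev K v e E * (lam K v * X - mu K v) * Q =
        (X - X ^ p) * Ψ := hΨ
    have h1 := congrArg (eval s) h0
    rw [eval_sub, eval_mul, hκ0 s hs, zero_mul, eval_mul, hQ0 s hs, mul_zero, sub_zero,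
      eval_mul, eval_sub, eval_X, eval_pow, eval_X] at h1
    rcases mul_eq_zero.1 h1.symm with h2 | h2
    · exact absurd h2 (hne s hs)
    · exact h2
  let k : K[X] := ∏ s ∈ Tv K B v, (X - C s)
  have hkmonic : k.Monic := monic_prod_of_monic _ _ fun s _ => monic_X_sub_C s
  have hk0 : k ≠ 0 := hkmonic.ne_zero
  have hkd : k.natDegree = (Tv K B v).card := by
    rw [natDegree_prod_of_monic _ _ fun s _ => monic_X_sub_C s]
    simp
  have hdvd : ∀ f : K[X], (∀ s ∈ Tv K B v, eval s f = 0) → k ∣ f := by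
    intro f hf
    refine Finset.prod_dvd_of_coprime ?_ fun s hs => dvd_iff_isRoot.2 (hf s hs)
    intro s _ t _ hst
    exact pairwise_coprime_X_sub_C Function.injective_id hst
  obtain ⟨β, hβ⟩ := hdvd κ hκ0
  obtain ⟨N, hN⟩ := hdvd Ψ hΨ0
  have hβd : β.natDegree + (Tv K B v).card ≤ p + 1 := by
    by_cases h0 : κ = 0
    · have h1 : β = 0 := by
        rw [h0] at hβ
        exact (mul_eq_zero.1 hβ.symm).resolve_left hk0
      have h2 : (Tv K B v).card = 0 := by
        rw [Finset.card_eq_zero, Finset.eq_empty_iff_forall_notMem]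
        intro s hs
        apply hκ1 s hs
        rw [h0, derivative_zero, eval_zero]
      rw [h1, h2, natDegree_zero]
      omega
    · have h1 : β ≠ 0 := by
        rintro rfl
        exact h0 (by rw [hβ, mul_zero])
      rw [hβ, natDegree_mul hk0 h1, hkd] at hκd
      omega
  have hNd : N.natDegree + (Tv K B v).card ≤ p + 1 + 2 * a := by
    by_cases h0 : N = 0
    · rw [h0, natDegree_zero]
      omega
    · rw [hN, natDegree_mul hk0 h0, hkd] at hΨd
      omega
  refine ⟨β, N, hβd, hNd, fun s hs => ?_⟩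
  -- `k = (X - s) ks`
  let ks : K[X] := ∏ t ∈ (Tv K B v).erase s, (X - C t)
  have hks : k = (X - C s) * ks := (Finset.mul_prod_erase _ _ hs).symm
  have hks0 : eval s ks ≠ 0 := by
    rw [eval_prod, Finset.prod_ne_zero_iff]
    intro t ht
    rw [eval_sub, eval_X, eval_C, sub_ne_zero]
    exact (Finset.ne_of_mem_erase ht).symm
  constructor
  · intro h0
    apply hκ1 s hs
    rw [hβ, hks, derivative_mul, derivative_mul, derivative_sub, derivative_X, derivative_C,
      eval_add, eval_mul, h0, mul_zero, zero_add, eval_mul, eval_mul, eval_sub, eval_X, eval_C,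
      sub_self, zero_mul, zero_mul]
  · obtain ⟨G2, hG2⟩ := lamV_double K B hv hs
    have h1 : (X - C s) * (ks * β * A - (X - C s) * (lam K v * hev K v e E *
        (lam K v * X - mu K v) * G2)) = (X - C s) * ((X - X ^ p) * (ks * N)) := by
      have h2 : κ * A - lam K v * hev K v e E * (lam K v * X - mu K v) * Q =
          (X - X ^ p) * Ψ := hΨ
      have h6 : Q = (X - C s) ^ 2 * G2 := hG2
      rw [hβ, hN, h6, hks] at h2
      linear_combination h2
    have h3 := mul_left_cancel₀ (X_sub_C_ne_zero s) h1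
    have h4 := congrArg (eval s) h3
    simp only [eval_sub, eval_mul, eval_X, eval_C, eval_pow, sub_self, zero_mul, sub_zero] at h4
    have h5 : eval s ks * (eval s N * (s - s ^ p)) = eval s ks * (eval s β * eval s A) := by
      linear_combination -h4
    exact mul_left_cancel₀ hks0 h5

end Pool.Agent.MP193S
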