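import Mathlib
import Pool.Agent.Lib.MP_193dd3_co_S.Hev

/-!
# MP_193dd3_co, project S: the spaces of polynomials of bounded bidegree
-/

set_option autoImplicit false

open Polynomial
open Pool.Agent.MP193G (Vc nq Lf Pl iv hx lin)

namespace Pool.Agent.MP193S

variable (K : Type) [Field K]

/-- The space of the polynomials of bidegree at most `(i, j)`. -/
noncomputable def Vs (i j : ℕ) : Submodule K (P2 K) where
  carrier := {f | bd i j f}
  add_mem' := fun hf hg => bd_add hf hg
  zero_mem' := by simp [bd]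
  smul_mem' := by
    intro k f hf
    refine ⟨(natDegree_smul_le k f).trans hf.1, fun l => ?_⟩
    rw [coeff_smul]
    exact (natDegree_smul_le k _).trans (hf.2 l)

theorem mem_Vs {i j : ℕ} {f : P2 K} : f ∈ Vs K i j ↔ bd i j f := Iff.rfl

private theorem Vsp_coeff {R : Type*} [Semiring R] (n : ℕ) (P : Fin n → R) (a : ℕ) :
    (∑ l : Fin n, monomial (l : ℕ) (P l)).coeff a = if h : a < n then P ⟨a, h⟩ else 0 := by
  rw [finsetSum_coeff]
  split_ifs with h
  · rw [Finset.sum_eq_single (⟨a, h⟩ : Fin n)]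
    · rw [coeff_monomial, if_pos rfl]
    · intro l _ hl
      rw [coeff_monomial, if_neg]
      intro hla
      exact hl (Fin.ext hla)
    · intro h1
      exact absurd (Finset.mem_univ _) h1
  · refine Finset.sum_eq_zero fun l _ => ?_
    rw [coeff_monomial, if_neg]
    intro hla
    exact h (hla ▸ l.2)

private theorem Vsp_deg {R : Type*} [Semiring R] (n : ℕ) (P : Fin (n + 1) → R) :
    (∑ l : Fin (n + 1), monomial (l : ℕ) (P l)).natDegree ≤ n := by
  rw [natDegree_le_iff_coeff_eq_zero]
  intro a ha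
  rw [Vsp_coeff, dif_neg (by omega)]

private noncomputable def Vsp_lin (i j : ℕ) :
    Vs K i j →ₗ[K] (Fin (j + 1) × Fin (i + 1) → K) where
  toFun f := fun x => ((f : P2 K).coeff x.1).coeff x.2
  map_add' f g := by
    funext x
    simp
  map_smul' k f := by
    funext x
    simp

private theorem Vsp_bij (i j : ℕ) : Function.Bijective (Vsp_lin K i j) := by
  constructor
  · rw [injective_iff_map_eq_zero]
    intro f hf
    have hb := (mem_Vs K).1 f.2
    apply Subtype.ext
    apply Polynomial.ext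
    intro a
    apply Polynomial.ext
    intro b
    show ((f : P2 K).coeff a).coeff b = ((0 : P2 K).coeff a).coeff b
    rw [coeff_zero, coeff_zero]
    by_cases ha : a < j + 1
    · by_cases hbi : b < i + 1
      · exact congrFun hf (⟨a, ha⟩, ⟨b, hbi⟩)
      · exact coeff_eq_zero_of_natDegree_lt (lt_of_le_of_lt (hb.2 a) (by omega))
    · rw [coeff_eq_zero_of_natDegree_lt (lt_of_le_of_lt hb.1 (by omega)), coeff_zero]
  · intro g
    refine ⟨⟨∑ l : Fin (j + 1), monomial (l : ℕ)
      (∑ m : Fin (i + 1), monomial (m : ℕ) (g (l, m))), ?_⟩, ?_⟩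
    · rw [mem_Vs]
      refine ⟨Vsp_deg j _, fun l => ?_⟩
      rw [Vsp_coeff]
      split_ifs with h
      · exact Vsp_deg i _
      · simp
    · funext x
      show ((∑ l : Fin (j + 1), monomial (l : ℕ)
        (∑ m : Fin (i + 1), monomial (m : ℕ) (g (l, m)))).coeff x.1).coeff x.2 = g x
      rw [Vsp_coeff, dif_pos x.1.2, Vsp_coeff, dif_pos x.2.2]

private noncomputable def Vsp_equiv (i j : ℕ) :
    Vs K i j ≃ₗ[K] (Fin (j + 1) × Fin (i + 1) → K) :=
  LinearEquiv.ofBijective (Vsp_lin K i j) (Vsp_bij K i j)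

/-- Proof: linear equivalence with the functions on `Fin (i + 1) × Fin (j + 1)` (coefficients). -/
theorem finrank_Vs (i j : ℕ) : Module.finrank K (Vs K i j) = (i + 1) * (j + 1) := by
  rw [(Vsp_equiv K i j).finrank_eq, Module.finrank_fintype_fun_eq_card, Fintype.card_prod,
    Fintype.card_fin, Fintype.card_fin, mul_comm]

theorem finite_Vs (i j : ℕ) : FiniteDimensional K (Vs K i j) := by
  exact Module.Finite.equiv (Vsp_equiv K i j).symm

/-- Proof: the linear map from `Vs K e e` to the functions on `Z` has a nonzero kernel. -/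
theorem exists_E (Z : Finset (K × K)) {e : ℕ} (h : Z.card < (e + 1) ^ 2) :
    ∃ E : P2 K, E ≠ 0 ∧ bd e e E ∧ ∀ z ∈ Z, evalEval z.1 z.2 E = 0 := by
  let φ : Vs K e e →ₗ[K] (Z → K) :=
    { toFun := fun f z => evalEval z.1.1 z.1.2 (f : P2 K)
      map_add' := fun f g => by
        funext z
        simp [evalEval]
      map_smul' := fun k f => by
        funext z
        show eval z.1.1 (eval (C z.1.2) (k • (f : P2 K))) =
          k • eval z.1.1 (eval (C z.1.2) (f : P2 K))
        rw [eval_smul, eval_smul] }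
  let ψ : (Fin (e + 1) × Fin (e + 1) → K) →ₗ[K] (Z → K) :=
    φ.comp (Vsp_equiv K e e).symm.toLinearMap
  have hk : LinearMap.ker ψ ≠ ⊥ := by
    apply LinearMap.ker_ne_bot_of_finrank_lt
    rw [Module.finrank_fintype_fun_eq_card, Module.finrank_fintype_fun_eq_card, Fintype.card_coe,
      Fintype.card_prod, Fintype.card_fin]
    calc Z.card < (e + 1) ^ 2 := h
      _ = (e + 1) * (e + 1) := by ring
  obtain ⟨g, hg, hg0⟩ := Submodule.exists_mem_ne_zero_of_ne_bot hk
  have hf0 : (Vsp_equiv K e e).symm g ≠ 0 := fun h0 => hg0 (by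
    have h1 := congrArg (Vsp_equiv K e e) h0
    rwa [LinearEquiv.apply_symm_apply, map_zero] at h1)
  refine ⟨((Vsp_equiv K e e).symm g : Vs K e e), fun h0 => hf0 (Subtype.ext h0),
    (mem_Vs K).1 ((Vsp_equiv K e e).symm g).2, fun z hz => ?_⟩
  exact congrFun (LinearMap.mem_ker.1 hg) ⟨z, hz⟩

end Pool.Agent.MP193S
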