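import Mathlib
import Pool.Agent.Lib.MP_193dd3_co_S.Hev

/-!
# MP_193dd3_co, project S: coordinates for pairs of polynomials
-/

set_option autoImplicit false

open Polynomial
open Pool.Agent.MP193G (Vc nq Lf Pl iv hx lin)

namespace Pool.Agent.MP193S

section

variable (K : Type) [Field K]

/-- The polynomial with given coefficients. -/
noncomputable def mkP (i j : ℕ) : (Fin (i + 1) × Fin (j + 1) → K) →ₗ[K] P2 K :=
  ∑ q : Fin (i + 1) × Fin (j + 1),
    (LinearMap.proj q).smulRight (monomial (q.2 : ℕ) (monomial (q.1 : ℕ) (1 : K)))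

theorem mkP_apply (i j : ℕ) (c : Fin (i + 1) × Fin (j + 1) → K) :
    mkP K i j c = ∑ q : Fin (i + 1) × Fin (j + 1),
      c q • (monomial (q.2 : ℕ) (monomial (q.1 : ℕ) (1 : K))) := by
  simp only [mkP, LinearMap.sum_apply, LinearMap.smulRight_apply, LinearMap.proj_apply]

theorem mkP_coeff (i j : ℕ) (c : Fin (i + 1) × Fin (j + 1) → K) (q : Fin (i + 1) × Fin (j + 1)) :
    ((mkP K i j c).coeff q.2).coeff q.1 = c q := by
  rw [mkP_apply, finsetSum_coeff, finsetSum_coeff, Finset.sum_eq_single q]
  · rw [coeff_smul, coeff_smul, coeff_monomial, if_pos rfl, coeff_monomial, if_pos rfl,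
      smul_eq_mul, mul_one]
  · intro r _ hr
    rw [coeff_smul, coeff_smul, coeff_monomial]
    split_ifs with h1
    · rw [coeff_monomial]
      split_ifs with h2
      · exact absurd (Prod.ext (Fin.ext h2) (Fin.ext h1)) hr
      · rw [smul_zero]
    · rw [coeff_zero, smul_zero]
  · intro h
    exact absurd (Finset.mem_univ q) h

theorem mkP_inj (i j : ℕ) {c : Fin (i + 1) × Fin (j + 1) → K} (h : mkP K i j c = 0) : c = 0 := by
  funext q
  rw [← mkP_coeff K i j c q, h, coeff_zero, coeff_zero, Pi.zero_apply]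

theorem mkP_bd (i j : ℕ) (c : Fin (i + 1) × Fin (j + 1) → K) : bd i j (mkP K i j c) := by
  rw [mkP_apply]
  constructor
  · refine natDegree_sum_le_of_forall_le _ _ fun q _ => ?_
    refine (natDegree_smul_le _ _).trans ((natDegree_monomial_le _).trans ?_)
    omega
  · intro l
    rw [finsetSum_coeff]
    refine natDegree_sum_le_of_forall_le _ _ fun q _ => ?_
    rw [coeff_smul]
    refine (natDegree_smul_le _ _).trans ?_
    rw [coeff_monomial]
    split_ifs
    · refine (natDegree_monomial_le _).trans ?_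
      omega
    · simp

/-- Coordinates of the pairs of polynomials of the bidegrees `(2 a, 2 a)` and `(a, a)`. -/
abbrev Wt (a : ℕ) : Type :=
  (Fin (a + a + 1) × Fin (a + a + 1) → K) × (Fin (a + 1) × Fin (a + 1) → K)

theorem finrank_Wt (a : ℕ) : Module.finrank K (Wt K a) =
    (a + a + 1) * (a + a + 1) + (a + 1) * (a + 1) := by
  rw [Module.finrank_prod, Module.finrank_fintype_fun_eq_card,
    Module.finrank_fintype_fun_eq_card, Fintype.card_prod, Fintype.card_prod, Fintype.card_fin,
    Fintype.card_fin]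

end

variable {p : ℕ} [Fact p.Prime] (K : Type) [Field K] [Algebra (ZMod p) K]

/-- The linear maps for the gluing lemma. -/
noncomputable def gam (v : Vc p) (a : ℕ) (β M : K[X]) : Wt K a →ₗ[K] K[X] where
  toFun x := β * hev K v (a + a) (mkP K _ _ x.1) + M * hev K v a (mkP K _ _ x.2)
  map_add' x y := by
    rw [Prod.fst_add, Prod.snd_add, map_add, map_add, hev_add, hev_add]
    ring
  map_smul' k x := by
    rw [Prod.smul_fst, Prod.smul_snd, map_smul, map_smul, hev_smul, hev_smul, RingHom.id_apply,
      smul_add, mul_smul_comm, mul_smul_comm]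

theorem gam_apply (v : Vc p) (a : ℕ) (β M : K[X]) (x : Wt K a) : gam K v a β M x =
    β * hev K v (a + a) (mkP K _ _ x.1) + M * hev K v a (mkP K _ _ x.2) := rfl

end Pool.Agent.MP193S
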