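import Mathlib
import Pool.Agent.Lib.MP_193dd3_co_S.LamV
import Pool.Agent.Lib.MP_193dd3_co_S.Glue
import Pool.Agent.Lib.MP_193dd3_co_S.AlgFin
import Pool.Agent.Lib.MP_193dd3_co_S.Grid
import Pool.Agent.Lib.MP_193dd3_co_S.Vsp
import Pool.Agent.Lib.MP_193dd3_co_S.Wsp
import Pool.Agent.Lib.MP_193dd3_co_S.Ext

/-!
# MP_193dd3_co, project S: stability
-/

set_option autoImplicit false

open Polynomial
open Pool.Agent.MP193G (Vc nq Lf Pl iv hx lin)

namespace Pool.Agent.MP193S

variable {p : ℕ} [Fact p.Prime]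

private theorem bd_prod {K : Type} [Field K] [Algebra (ZMod p) K] (B : Finset (Vc p)) :
    bd B.card B.card (∏ w ∈ B, Lc K w) := by
  classical
  induction B using Finset.induction_on with
  | empty => exact ⟨by simp, fun l => by simp [coeff_one]; split_ifs <;> simp⟩
  | insert v B hv ih =>
    rw [Finset.prod_insert hv, Finset.card_insert_of_notMem hv, add_comm B.card 1]
    exact bd_mul (bd_Lc K v) ih

private theorem ls_map {K : Type} [Field K] [Algebra (ZMod p) K] (v : Vc p) (s t : ZMod p) :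
    Ls v (algebraMap (ZMod p) K s) (algebraMap (ZMod p) K t) =
      algebraMap (ZMod p) K (v.2.2 * (s * t) - v.1 * (s + t) - v.2.1) := by
  simp only [Ls, map_sub, map_mul, map_add]

/-- Values of the combination at the points of `Tv`. -/
private theorem key {K : Type} [Field K] [DecidableEq K] [Algebra (ZMod p) K] [CharP K p]
    {B : Finset (Vc p)} {v : Vc p} {a : ℕ} {R N D : P2 K} {β M : K[X]}
    (hR : bd (p + a) a R) (hN : bd (a + a) (a + a) N) (hD : bd a a D) {s : K}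
    (hs : s ∈ Tv K B v) (hM : eval s M * (s - s ^ p) = eval s β * eval s (hev K v a R)) :
    eval s (β * hev K v (a + a) N + M * hev K v a D) * (s - s ^ p) =
      eval s β * eval s (lam K v) ^ (a + a) *
        evalEval s (s ^ p) (R * D + C (X - X ^ p) * N) := by
  have hs2 := (Finset.mem_filter.1 hs).2
  have hmu := mu_eq K hs2
  rw [eval_add, eval_mul, eval_mul, evalEval_add, evalEval_mul, evalEval_mul, evalEval_C,
    eval_sub, eval_X, eval_pow, eval_X]
  rw [hev_eval K v hR.1 hmu] at hM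
  rw [hev_eval K v hN.1 hmu, hev_eval K v hD.1 hmu]
  linear_combination (eval s (lam K v) ^ a * evalEval s (s ^ p) D) * hM

theorem stab_aux (K : Type) [Field K] [DecidableEq K] [Algebra (ZMod p) K] [CharP K p]
    [IsAlgClosed K] (hp : 10 ^ 7 ≤ p) (h : ℕ) (hh : 10 ≤ h) (hhp : 10 ^ 6 * h ≤ p)
    (B : Finset (Vc p)) (hn : ∀ v ∈ B, nq v ≠ 0) (hB : Np B) (hP : Pl 3 B)
    (A : Finset (PL p)) (hA : p ≤ A.card + h)
    (h1 : ∀ s ∈ A, ∀ t ∈ A, s ≠ t → (B.filter fun v => Lf s t v = 0).card ≤ 1)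
    (hc : B.card + h = p) : False := by
  classical
  have hinf : Infinite K := IsAlgClosed.instInfinite (K := K)
  obtain ⟨a, ha1, ha2⟩ : ∃ a : ℕ, 200 * a ≤ p ∧ p < 200 * a + 200 :=
    ⟨p / 200, Nat.mul_div_le p 200, by omega⟩
  have ha3 : 49999 ≤ a := by omega
  have ha4 : 4000 * h ≤ a := by omega
  -- the polynomial `E`
  set Z0 : Finset (ZMod p × ZMod p) := Finset.univ.filter fun z : ZMod p × ZMod p =>
      ∀ v ∈ B, v.2.2 * (z.1 * z.2) - v.1 * (z.1 + z.2) - v.2.1 ≠ 0 with hZ0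
  have hgrid := card_grid B hn hP A h hA h1
  rw [← hZ0] at hgrid
  set Z : Finset (K × K) := Z0.image fun z =>
    (algebraMap (ZMod p) K z.1, algebraMap (ZMod p) K z.2) with hZ
  have hZc : Z.card < (a + h + 1) ^ 2 := by
    have h2 : Z.card ≤ Z0.card := Finset.card_image_le
    obtain ⟨n, hn'⟩ : ∃ n, n = B.card := ⟨_, rfl⟩
    rw [← hn'] at hgrid hc
    have h3 : n * (p - 1) + n = n * p := by
      have : p - 1 + 1 = p := by omega
      calc n * (p - 1) + n = n * (p - 1 + 1) := by ring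
        _ = n * p := by rw [this]
    have h4 : n * p + h * p = p * p := by rw [← hc]; ring
    have h5 : Z0.card + p * p ≤ p * p + h * p + n + 2 * (2 * (h + 1) + 1) * p := by
      have : p ^ 2 = p * p := sq p
      rw [this] at hgrid
      omega
    have h6 : Z0.card ≤ (5 * h + 7) * p := by
      have : h * p + n + 2 * (2 * (h + 1) + 1) * p ≤ (5 * h + 7) * p := by nlinarith
      omega
    have h7 : (5 * h + 7) * p < (a + h + 1) ^ 2 := by
      have h8 : 5 * h + 7 ≤ 6 * h := by omega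
      have h9 : (5 * h + 7) * p ≤ 6 * h * p := Nat.mul_le_mul_right p h8
      have h10 : 4000 * (6 * h * p) ≤ 6 * a * p := by
        calc 4000 * (6 * h * p) = 6 * (4000 * h) * p := by ring
          _ ≤ 6 * a * p := by gcongr
      have h11 : 6 * a * p ≤ 6 * a * (200 * a + 200) := Nat.mul_le_mul_left _ ha2.le
      nlinarith
    omega
  obtain ⟨E, hE0, hE, hEz⟩ := exists_E K Z hZc
  rw [show a + h = a + h from rfl] at hE
  -- the division
  have hbd : bd (p + a) (p + a) (E * ∏ w ∈ B, Lc K w) := by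
    have := bd_mul hE (bd_prod (K := K) B)
    rwa [show a + h + B.card = p + a by omega] at this
  have hvan : ∀ s t : ZMod p, evalEval (algebraMap (ZMod p) K s) (algebraMap (ZMod p) K t)
      (E * ∏ w ∈ B, Lc K w) = 0 := by
    intro s t
    rw [evalEval_mul]
    by_cases hz : (s, t) ∈ Z0
    · rw [hEz _ (Finset.mem_image_of_mem (fun z : ZMod p × ZMod p =>
        (algebraMap (ZMod p) K z.1, algebraMap (ZMod p) K z.2)) hz), zero_mul]
    · rw [hZ0, Finset.mem_filter] at hz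
      push Not at hz
      obtain ⟨v, hv, h0⟩ := hz (Finset.mem_univ _)
      have : evalEval (algebraMap (ZMod p) K s) (algebraMap (ZMod p) K t)
          (∏ w ∈ B, Lc K w) = 0 := by
        rw [← coe_evalEvalRingHom, map_prod]
        refine Finset.prod_eq_zero hv ?_
        rw [coe_evalEvalRingHom, evalEval_Lc, ls_map, h0, map_zero]
      rw [this, mul_zero]
  obtain ⟨P, R, hPb, hRb, hF⟩ := div_grid K (by omega : p ≤ p + a) _ hbd hvan
  rw [show p + a - p = a by omega] at hPb hRb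
  -- the local functions
  have hb : B.card + (a + h) = p + a := by omega
  have hloc := fun v (hv : v ∈ B) => lamV K B hv (hn v hv) hb E P R hE hRb hF
  choose! β M hβ hM hs using hloc
  have hTl : ∀ v ∈ B, p ≤ (Tv K B v).card + 6 * h + 15 := by
    intro v hv
    have := Tv_large K B hn hB hP A h hA h1 hv
    omega
  -- the linear maps
  obtain ⟨γ, hγ⟩ : ∃ γ : Vc p → Wt K a →ₗ[K] K[X], ∀ v, γ v = gam K v a (β v) (M v) :=
    ⟨_, fun v => rfl⟩
  have hγ' : ∀ v (x : Wt K a), γ v x = β v * hev K v (a + a) (mkP K _ _ x.1) +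
      M v * hev K v a (mkP K _ _ x.2) := fun v x => by rw [hγ, gam_apply]
  have hne : ∀ v ∈ B, ∀ s ∈ Tv K B v, s - s ^ p ≠ 0 ∧ eval s (lam K v) ≠ 0 := by
    intro v hv s hs'
    have h2 := (Finset.mem_filter.1 (Finset.mem_filter.1 hs').1).1
    exact ⟨sub_ne_zero.2 ((mem_irr K).1 h2).2.symm, lam_ne K (hn v hv) h2⟩
  have hiff : ∀ v ∈ B, ∀ s ∈ Tv K B v, ∀ x : Wt K a,
      eval s (γ v x) = 0 ↔
        evalEval s (s ^ p) (R * mkP K _ _ x.2 + C (X - X ^ p) * mkP K _ _ x.1) = 0 := by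
    intro v hv s hs' x
    obtain ⟨h2, h3⟩ := hne v hv s hs'
    obtain ⟨h4, h5⟩ := hs v hv s hs'
    have hk := key hRb (mkP_bd K _ _ x.1) (mkP_bd K _ _ x.2) hs' h5
    rw [← hγ'] at hk
    constructor
    · intro h0
      rw [h0, zero_mul] at hk
      rcases mul_eq_zero.1 hk.symm with h6 | h6
      · exact absurd h6 (mul_ne_zero h4 (pow_ne_zero _ h3))
      · exact h6
    · intro h0
      rw [h0, mul_zero] at hk
      rcases mul_eq_zero.1 hk with h6 | h6
      · exact h6
      · exact absurd h6 h2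
  have hdeg : ∀ v ∈ B, ∀ x, (γ v x).natDegree ≤ 4 * a + 6 * h + 16 := by
    intro v hv x
    have h2 := hβ v hv
    have h3 := hM v hv
    have h4 := hTl v hv
    rw [hγ']
    refine natDegree_add_le_of_degree_le ?_ ?_
    · have h5 := hev_natDegree K v (mkP_bd K _ _ x.1)
      exact natDegree_mul_le.trans (by omega)
    · have h5 := hev_natDegree K v (mkP_bd K _ _ x.2)
      exact natDegree_mul_le.trans (by omega)
  have hrel : ∀ v ∈ B, ∀ w ∈ B, ∀ s ∈ Tv K B v, s ∈ Tv K B w → ∀ x,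
      eval s (γ v x) = 0 → eval s (γ w x) = 0 := by
    intro v hv w hw s hsv hsw x h0
    exact (hiff w hw s hsw x).2 ((hiff v hv s hsv x).1 h0)
  have hm : ∀ v ∈ B, (B.filter fun w => w ≠ v ∧ (Tv K B v ∩ Tv K B w).card < 2).card ≤
      8 * h + 22 := by
    intro v hv
    have h2 := partner K B hn hB hP A h hA h1 hv
    have h3 := hTl v hv
    omega
  have hnum1 : (4 * a + 6 * h + 16 + (8 * h + 22) + 1) ^ 2 ≤
      a / 10 * (B.card - (4 * a + 6 * h + 16 + (8 * h + 22) + 1)) := by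
    obtain ⟨c, hc'⟩ : ∃ c, c = a / 10 := ⟨_, rfl⟩
    rw [← hc']
    have hc1 : a ≤ 10 * c + 9 := by omega
    obtain ⟨r, hr⟩ : ∃ r, r = 4 * a + 6 * h + 16 + (8 * h + 22) + 1 := ⟨_, rfl⟩
    rw [← hr]
    have hr1 : 10 * r ≤ 41 * a := by omega
    obtain ⟨q, hq⟩ : ∃ q, q = B.card - r := ⟨_, rfl⟩
    rw [← hq]
    have hq1 : 195 * a ≤ q := by omega
    have h2 : (10 * r) ^ 2 ≤ (41 * a) ^ 2 := Nat.pow_le_pow_left hr1 2
    obtain ⟨b, hb'⟩ : ∃ b, a = b + 9 := ⟨a - 9, by omega⟩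
    have h3 : b * (195 * a) ≤ 10 * c * q := Nat.mul_le_mul (by omega) hq1
    have h4 : 1681 * a ^ 2 ≤ 10 * (b * (195 * a)) := by
      have h5 : 1681 * a ≤ 1950 * b := by omega
      nlinarith
    nlinarith
  have hnum2 : (4 * a + 6 * h + 16 + 2 * (8 * h + 22) + a / 10 + 2) ^ 2 <
      4 * Module.finrank K (Wt K a) := by
    rw [finrank_Wt]
    obtain ⟨c, hc'⟩ : ∃ c, c = a / 10 := ⟨_, rfl⟩
    rw [← hc']
    have hc1 : 10 * c ≤ a := by omega
    have h2 : 10 * (4 * a + 6 * h + 16 + 2 * (8 * h + 22) + c + 2) ≤ 42 * a := by omega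
    have h3 := Nat.pow_le_pow_left h2 2
    nlinarith
  obtain ⟨x, hx0, hx⟩ := glue B (Tv K B) γ (4 * a + 6 * h + 16) (8 * h + 22) (a / 10) hdeg hrel
    (fun v hv w hw hvw => Tv_inter K hB hn hv hw hvw) (fun s => Tv_three K s) hm (by omega)
    hnum1 hnum2
  have hG : ∀ s ∈ Tt K B,
      evalEval s (s ^ p) (R * mkP K _ _ x.2 + C (X - X ^ p) * mkP K _ _ x.1) = 0 := by
    intro s hs'
    have h2 := (Finset.mem_filter.1 hs').2
    have h3 : (B.filter fun v => Ls v s (s ^ p) = 0).Nonempty := by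
      rw [← Finset.card_pos, h2]; norm_num
    obtain ⟨v, hv⟩ := h3
    rw [Finset.mem_filter] at hv
    have h4 : s ∈ Tv K B v := Finset.mem_filter.2 ⟨hs', hv.2⟩
    exact (hiff v hv.1 s h4 x).1 (by rw [hx v hv.1, eval_zero])
  have hTne : ∀ v ∈ B, (Tv K B v).Nonempty := by
    intro v hv
    rw [← Finset.card_pos]
    have := hTl v hv
    omega
  have hD0 : mkP K a a x.2 ≠ 0 := by
    intro h0
    apply hx0
    have h2 : mkP K (a + a) (a + a) x.1 = 0 := by
      refine hev_zero K B hn hB (mkP_bd K _ _ x.1) (by omega) fun v hv => ?_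
      have h3 := hx v hv
      rw [hγ', h0] at h3
      have h4 : hev K v a (0 : P2 K) = 0 := by simp [hev]
      rw [h4, mul_zero, add_zero] at h3
      obtain ⟨s, hs'⟩ := hTne v hv
      have h5 : β v ≠ 0 := fun h6 => (hs v hv s hs').1 (by rw [h6, eval_zero])
      exact (mul_eq_zero.1 h3).resolve_left h5
    exact Prod.ext (mkP_inj K _ _ h2) (mkP_inj K _ _ h0)
  refine alg_fin K B hn hB (d := a) (e := a + h) hE0 hD0 hE hPb hRb (mkP_bd K _ _ x.1)
    (mkP_bd K _ _ x.2) hF hG ?_ ?_ (by omega) (by omega)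
  · have h2 := sum_Tv K B
    have h3 : B.card * (p - 6 * h - 15) ≤ ∑ v ∈ B, (Tv K B v).card := by
      rw [← smul_eq_mul]
      refine Finset.card_nsmul_le_sum _ _ _ fun v hv => ?_
      have := hTl v hv
      omega
    obtain ⟨q, hq⟩ : ∃ q, q = p - 6 * h - 15 := ⟨_, rfl⟩
    rw [← hq, h2] at h3
    have hq1 : 199 * a ≤ q := by omega
    have hn1 : 199 * a ≤ B.card := by omega
    have h4 : 199 * a * (199 * a) ≤ 3 * (Tt K B).card := (Nat.mul_le_mul hn1 hq1).trans h3
    have h5 : p * (a + a) ≤ (200 * a + 200) * (a + a) := Nat.mul_le_mul_right _ ha2.le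
    nlinarith
  · intro v hv
    have := hTl v hv
    omega

theorem stab_core (hp : 10 ^ 7 ≤ p) (h : ℕ) (hh : 10 ≤ h) (hhp : 10 ^ 6 * h ≤ p)
    (B : Finset (Vc p)) (hn : ∀ v ∈ B, nq v ≠ 0) (hB : Np B) (hP : Pl 3 B)
    (A : Finset (PL p)) (hA : p ≤ A.card + h)
    (h1 : ∀ s ∈ A, ∀ t ∈ A, s ≠ t → (B.filter fun v => Lf s t v = 0).card ≤ 1)
    (hc : B.card + h = p) : False := by
  classical
  have hch : CharP (AlgebraicClosure (ZMod p)) p := charP_of_injective_algebraMap
    (algebraMap (ZMod p) (AlgebraicClosure (ZMod p))).injective p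
  exact stab_aux (AlgebraicClosure (ZMod p)) hp h hh hhp B hn hB hP A hA h1 hc

end Pool.Agent.MP193S
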