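import Mathlib
import Pool.Agent.Lib.MP_193dd3_co_S.Core
import Pool.Agent.Lib.MP_193dd3_co_G.Fin

/-!
# MP_193dd3_co: sets with a positive proportion of their points on a conic
-/

set_option autoImplicit false

open Pool.Agent.MP193G (Vc nq Lf Pl iv hx lin NoFour ev af)

namespace Pool.Agent.MP193S

variable {p : ℕ} [Fact p.Prime]

/-- A set which contains almost all points of a conic does not contain almost `p` other points. -/
theorem stab_conic (hp : 10 ^ 7 ≤ p) (A : Finset (ZMod p × ZMod p)) (hA : NoFour A)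
    (f : Fin 6 → ZMod p) (hf : f ≠ 0)
    (h1 : (1 - 1 / 10 ^ 7 : ℝ) * p ≤ (A.filter fun P => ev f P = 0).card) :
    ((A.filter fun P => ev f P = 0).card : ℝ) ≤ p + 1 ∧
    ((A.filter fun P => ev f P ≠ 0).card : ℝ) < (1 - 1 / 10 ^ 7 : ℝ) * p := by
  classical
  have hpR : (10 : ℝ) ^ 7 ≤ p := by exact_mod_cast hp
  have h7 : 7 ≤ (A.filter fun P => ev f P = 0).card := by
    have : (7 : ℝ) ≤ ((A.filter fun P => ev f P = 0).card : ℝ) := by
      refine le_trans ?_ h1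
      nlinarith
    exact_mod_cast this
  obtain ⟨T, k, hk, hT⟩ := Pool.Agent.MP193G.normal_form A hA f hf h7
  obtain ⟨S, hS, hSm⟩ := Pool.Agent.MP193G.conic_pts A f T k hk hT
  have hcard : S.card ≤ p + 1 := by
    rw [← Pool.Agent.MP193G.card_X (p := p)]
    exact Finset.card_le_univ S
  refine ⟨by rw [← hS]; exact_mod_cast hcard, ?_⟩
  by_contra hcon
  push Not at hcon
  obtain ⟨h, hh1, hh2⟩ : ∃ h : ℕ, 10 ^ 6 * h ≤ p ∧ p < 10 ^ 6 * h + 10 ^ 6 :=
    ⟨p / 10 ^ 6, Nat.mul_div_le p _, by omega⟩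
  have hh3 : 10 ≤ h := by omega
  have hhR : (p : ℝ) < 10 ^ 6 * h + 10 ^ 6 := by exact_mod_cast hh2
  have hhR3 : (10 : ℝ) ≤ h := by exact_mod_cast hh3
  have hloss : (1 / 10 ^ 7 : ℝ) * p ≤ h := by nlinarith
  have hinj : Function.Injective fun P : ZMod p × ZMod p => T (af P) :=
    fun P Q e => Pool.Agent.MP193G.af_inj (T.injective e)
  have hB0 : ((A.filter fun P => ev f P ≠ 0).image fun P => T (af P)).card =
      (A.filter fun P => ev f P ≠ 0).card := Finset.card_image_of_injective _ hinj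
  have hB1 : p - h ≤ ((A.filter fun P => ev f P ≠ 0).image fun P => T (af P)).card := by
    rw [hB0]
    have : (p : ℝ) ≤ ((A.filter fun P => ev f P ≠ 0).card : ℝ) + h := by linarith
    have h2 : p ≤ (A.filter fun P => ev f P ≠ 0).card + h := by exact_mod_cast this
    omega
  obtain ⟨B, hBs, hBc⟩ := Finset.exists_subset_card_eq hB1
  have hC := Pool.Agent.MP193G.Pl_image A hA T A le_rfl
  have hnB : ∀ v ∈ B, (∃ P, v = T (af P)) ∧ v ∈ A.image (fun P => T (af P)) ∧ nq v ≠ 0 := by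
    intro v hv
    obtain ⟨P, hP, rfl⟩ := Finset.mem_image.1 (hBs hv)
    rw [Finset.mem_filter] at hP
    refine ⟨⟨P, rfl⟩, Finset.mem_image_of_mem _ hP.1, fun h0 => hP.2 ?_⟩
    rw [← Pool.Agent.MP193G.evh_af, hT, h0, mul_zero]
  have hNp : Np B := by
    intro v hv w hw c hc
    obtain ⟨⟨P, rfl⟩, -⟩ := hnB v hv
    obtain ⟨⟨Q, rfl⟩, -⟩ := hnB w hw
    rw [← map_smul] at hc
    have e := T.injective hc
    have e3 : (1 : ZMod p) = c * 1 := congrArg (fun x : Vc p => x.2.2) e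
    rw [mul_one] at e3
    rw [e, ← e3, one_smul]
  have hPl : Pl 3 B := by
    intro l hl
    refine le_trans (Finset.card_le_card ?_) (hC l hl)
    intro v hv
    rw [Finset.mem_filter] at hv ⊢
    exact ⟨(hnB v hv.1).2.1, hv.2⟩
  refine stab_core hp h hh3 hh1 B (fun v hv => (hnB v hv).2.2) hNp hPl S ?_ ?_ (by omega)
  · have : (p : ℝ) ≤ (S.card : ℝ) + h := by rw [hS]; linarith
    exact_mod_cast this
  · intro s hs t ht hst
    obtain ⟨P, hP, κ, hκ, hPs⟩ := (hSm s).1 hs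
    obtain ⟨Q, hQ, μ, hμ, hQt⟩ := (hSm t).1 ht
    rw [Finset.card_le_one]
    intro v hv w hw
    rw [Finset.mem_filter] at hv hw
    exact Pool.Agent.MP193G.no_four hC hst hκ hμ
      (hPs ▸ Finset.mem_image_of_mem (fun P => T (af P)) hP)
      (hQt ▸ Finset.mem_image_of_mem (fun P => T (af P)) hQ) (hnB v hv.1).2.1 (hnB w hw.1).2.1
      (hnB v hv.1).2.2 (hnB w hw.1).2.2 hv.2 hw.2

/-- The theorem for sets with a positive proportion of points on a conic. -/
theorem conic_all {δ ε : ℝ} (hδ : 0 < δ) (hε : 0 < ε) : ∃ P0 : ℕ, ∀ (p : ℕ) [Fact p.Prime],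
    P0 ≤ p → ∀ A : Finset (ZMod p × ZMod p), NoFour A → ∀ f : Fin 6 → ZMod p, f ≠ 0 →
    δ * (p : ℝ) ≤ (A.filter fun P => ev f P = 0).card →
    (A.card : ℝ) ≤ (2 - 1 / 10 ^ 8) * p ∧
    ((A.filter fun P => ev f P ≠ 0).card : ℝ) ≤ (1 + ε) * p ∧
    ∀ g : Fin 6 → ZMod p, (∀ k : ZMod p, g ≠ k • f) →
      δ * (p : ℝ) ≤ (A.filter fun P => ev g P = 0).card →
      ((A.filter fun P => ev f P = 0).card : ℝ) ≤ (1 / 2 + ε) * p ∧
      ((A.filter fun P => ev g P = 0).card : ℝ) ≤ (1 / 2 + ε) * p ∧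
      (A.card : ℝ) ≤ (3 / 2 + ε) * p := by
  obtain ⟨P1, h1⟩ := Pool.Agent.MP193G.conic_main hδ hε
  obtain ⟨P2, h2⟩ := Pool.Agent.MP193G.part_one hδ (show (0 : ℝ) < 5 / 10 ^ 8 by norm_num)
  refine ⟨max (max P1 P2) (10 ^ 9), ?_⟩
  intro p _ hp A hA f hf hd
  have hp1 : P1 ≤ p := le_trans (le_trans (le_max_left _ _) (le_max_left _ _)) hp
  have hp2 : P2 ≤ p := le_trans (le_trans (le_max_right _ _) (le_max_left _ _)) hp
  have hp3 : 10 ^ 9 ≤ p := le_trans (le_max_right _ _) hp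
  have hpR : (10 : ℝ) ^ 9 ≤ p := by exact_mod_cast hp3
  obtain ⟨h3, h4⟩ := h1 p hp1 A hA f hf hd
  refine ⟨?_, h3, h4⟩
  have h5 := h2 p hp2 A hA f hf hd
  have hsplit : (A.filter fun P => ev f P = 0).card + (A.filter fun P => ¬ ev f P = 0).card =
      A.card := Finset.card_filter_add_card_filter_not _
  have hs : ((A.filter fun P => ev f P = 0).card : ℝ) +
      ((A.filter fun P => ev f P ≠ 0).card : ℝ) = A.card := by exact_mod_cast hsplit
  by_cases hc : (1 - 1 / 10 ^ 7 : ℝ) * p ≤ (A.filter fun P => ev f P = 0).card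
  · obtain ⟨h6, h7⟩ := stab_conic (by omega) A hA f hf hc
    rw [← hs]
    nlinarith
  · push Not at hc
    rw [← hs]
    nlinarith

end Pool.Agent.MP193S
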